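import Pool.Agent.Lib.MP_7f581e_Z.LieG.Defs

/-!
# Finite groups of Lie type: basic lemmas
-/

set_option autoImplicit false
set_option linter.unusedSectionVars false

namespace MP7Z

namespace LG

open TensorProduct MP7fS MP7fU

variable {p : ℕ} [Fact p.Prime] {B : Type} [Ring B] [Finite B] [Algebra (ZMod p) B]

section rings

variable {R S T : Type} [CommRing R] [Algebra (ZMod p) R] [CommRing S] [Algebra (ZMod p) S]
  [CommRing T] [Algebra (ZMod p) T]

theorem crd_ext {x y : R ⊗[ZMod p] B} (h : ∀ i, crd x i = crd y i) : x = y := by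
  apply (eb (Module.finBasis (ZMod p) B) R).repr.injective
  ext i
  exact h i

theorem crd_tmap (f : R →+* S) (x : R ⊗[ZMod p] B) (i : Fin (Module.finrank (ZMod p) B)) :
    crd (tmap (p := p) f (RingHom.id B) x) i = f (crd x i) :=
  repr_tmap (Module.finBasis (ZMod p) B) f x i

theorem crd_tu (f : R →+* S) (x : (R ⊗[ZMod p] B)ˣ) (i : Fin (Module.finrank (ZMod p) B)) :
    crd ((tu f (RingHom.id B) x : (S ⊗[ZMod p] B)ˣ) : S ⊗[ZMod p] B) i =
      f (crd (x : R ⊗[ZMod p] B) i) := crd_tmap f _ i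

theorem crd_vec (v : Fin (Module.finrank (ZMod p) B) → R)
    (i : Fin (Module.finrank (ZMod p) B)) :
    crd (vec (Module.finBasis (ZMod p) B) v) i = v i :=
  repr_vec (Module.finBasis (ZMod p) B) v i

/-- Polynomial relations over the prime field commute with homomorphisms. -/
theorem aeval_crd_tu (f : R →+* S) (x : (R ⊗[ZMod p] B)ˣ)
    (g : MvPolynomial (Fin (Module.finrank (ZMod p) B)) (ZMod p)) :
    MvPolynomial.aeval (crd ((tu f (RingHom.id B) x : (S ⊗[ZMod p] B)ˣ) : S ⊗[ZMod p] B)) g =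
      f (MvPolynomial.aeval (crd (x : R ⊗[ZMod p] B)) g) := by
  have h : (MvPolynomial.aeval (crd ((tu f (RingHom.id B) x : (S ⊗[ZMod p] B)ˣ) :
      S ⊗[ZMod p] B))) =
      (toAlg (p := p) f).comp (MvPolynomial.aeval (crd (x : R ⊗[ZMod p] B))) := by
    apply MvPolynomial.algHom_ext
    intro i
    rw [MvPolynomial.aeval_X, AlgHom.comp_apply, MvPolynomial.aeval_X, crd_tu]
    rfl
  rw [h]
  rfl

theorem tu_tu (f : S →+* T) (g : B →+* B) (f' : R →+* S) (g' : B →+* B)
    (x : (R ⊗[ZMod p] B)ˣ) : tu f g (tu f' g' x) = tu (f.comp f') (g.comp g') x :=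
  Units.ext (tmap_comp f g f' g' _)

theorem tu_id_id (x : (R ⊗[ZMod p] B)ˣ) : tu (RingHom.id R) (RingHom.id B) x = x :=
  Units.ext (tmap_id _)

theorem tu_injective {f : R →+* S} (hf : Function.Injective f) :
    Function.Injective (tu (p := p) (B := B) f (RingHom.id B)) := by
  intro x y h
  exact Units.ext (tmap_injective f hf (congrArg Units.val h))

/-- `tu f g` in two steps, in both orders. -/
theorem tu_split (f : R →+* S) (g : B →+* B) (x : (R ⊗[ZMod p] B)ˣ) :
    tu f g x = tu (RingHom.id S) g (tu f (RingHom.id B) x) := by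
  rw [tu_tu]
  rfl

theorem tu_split' (f : R →+* S) (g : B →+* B) (x : (R ⊗[ZMod p] B)ˣ) :
    tu f g x = tu f (RingHom.id B) (tu (RingHom.id R) g x) := by
  rw [tu_tu]
  rfl

theorem tu_cstu (f : R →+* S) (b : Bˣ) :
    tu f (RingHom.id B) (cstu (p := p) R b) = cstu S b := by
  apply Units.ext
  rw [coe_tu, coe_cstu, coe_cstu, tmap_tmul, map_one]
  rfl

theorem tu_cstu' (f : R →+* S) {Q : Type} [Group Q] (ρ : Q →* (B ≃+* B)) (q : Q) (b : Bˣ) :
    tu f (ρ q : B →+* B) (cstu (p := p) R b) = cstu S (uact ρ q b) := by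
  apply Units.ext
  rw [coe_tu, coe_cstu, coe_cstu, tmap_tmul, map_one]
  rfl

theorem cstu_injective [Nontrivial R] : Function.Injective (cstu (p := p) (B := B) R) := by
  intro b b' h
  exact Units.ext (one_tmul_inj (p := p) (R := R) (congrArg Units.val h))

theorem fru_tu [CharP R p] [CharP S p] (d : ℕ) (f : R →+* S) (g : B →+* B)
    (x : (R ⊗[ZMod p] B)ˣ) : fru d S (tu f g x) = tu f g (fru d R x) := by
  rw [fru, fru, tu_tu, tu_tu]
  congr 2
  ext r
  rw [RingHom.comp_apply, RingHom.comp_apply, iterateFrobenius_def, iterateFrobenius_def, map_pow]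

theorem fru_cstu [CharP R p] (d : ℕ) (b : Bˣ) : fru d R (cstu (p := p) R b) = cstu R b :=
  tu_cstu _ b

/-- The value of a polynomial map and homomorphisms. -/
theorem tu_valP {ι : Type} (P : (MvPolynomial ι (ZMod p) ⊗[ZMod p] B)ˣ) (f : R →+* S)
    (t : ι → R) : tu f (RingHom.id B) (valP P t) = valP P fun i => f (t i) := by
  rw [valP, valP, tu_tu]
  congr 2
  apply MvPolynomial.ringHom_ext
  · intro c
    change f ((MvPolynomial.aeval t) (MvPolynomial.C c)) =
      (MvPolynomial.aeval fun i => f (t i)) (MvPolynomial.C c)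
    rw [MvPolynomial.aeval_C, MvPolynomial.aeval_C]
    exact congrArg (fun g : ZMod p →+* S => g c)
      (RingHom.ext_zmod (f.comp (algebraMap (ZMod p) R)) (algebraMap (ZMod p) S))
  · intro i
    change f ((MvPolynomial.aeval t) (MvPolynomial.X i)) =
      (MvPolynomial.aeval fun i => f (t i)) (MvPolynomial.X i)
    rw [MvPolynomial.aeval_X, MvPolynomial.aeval_X]

/-- `tu` for the identity of the polynomial ring is the generic value. -/
theorem valP_X {ι : Type} (P : (MvPolynomial ι (ZMod p) ⊗[ZMod p] B)ˣ) :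
    valP P (fun i => (MvPolynomial.X i : MvPolynomial ι (ZMod p))) = P := by
  rw [valP]
  have h : (MvPolynomial.aeval fun i => (MvPolynomial.X i : MvPolynomial ι (ZMod p))) =
      AlgHom.id (ZMod p) (MvPolynomial ι (ZMod p)) := by
    apply MvPolynomial.algHom_ext
    intro i
    rw [MvPolynomial.aeval_X]
    rfl
  rw [h]
  exact tu_id_id P

/-- Values of words are in `H`, if the generic value is. -/
theorem valP_mem {ι : Type} {𝒢 : LangGp p B} {P : (MvPolynomial ι (ZMod p) ⊗[ZMod p] B)ˣ}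
    (hP : P ∈ 𝒢.H (MvPolynomial ι (ZMod p))) (t : ι → R) : valP P t ∈ 𝒢.H R :=
  𝒢.map _ _ _ P hP

theorem mvz_one {ι : Type} [Fintype ι] [DecidableEq ι] (t : ι → R) :
    mvz (1 : Matrix ι ι (ZMod p)) t = t := by
  funext i
  rw [mvz, Finset.sum_eq_single i]
  · rw [Matrix.one_apply_eq, map_one, one_mul]
  · intro j _ hj
    rw [Matrix.one_apply_ne (Ne.symm hj), map_zero, zero_mul]
  · intro h
    exact absurd (Finset.mem_univ i) h

theorem mvz_mul {ι : Type} [Fintype ι] (M N : Matrix ι ι (ZMod p)) (t : ι → R) :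
    mvz (M * N) t = mvz M (mvz N t) := by
  funext i
  simp only [mvz, Matrix.mul_apply, map_sum, map_mul, Finset.sum_mul, Finset.mul_sum]
  rw [Finset.sum_comm]
  refine Finset.sum_congr rfl fun j _ => Finset.sum_congr rfl fun k _ => ?_
  rw [mul_assoc]

theorem mvz_map {ι : Type} [Fintype ι] (M : Matrix ι ι (ZMod p)) (f : R →+* S) (t : ι → R) :
    (fun i => f (mvz M t i)) = mvz M fun i => f (t i) := by
  funext i
  rw [mvz, mvz, map_sum]
  refine Finset.sum_congr rfl fun j _ => ?_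
  rw [map_mul]
  congr 1
  exact congrArg (fun g : ZMod p →+* S => g (M i j))
    (RingHom.ext_zmod (f.comp (algebraMap (ZMod p) R)) (algebraMap (ZMod p) S))

end rings

section fields

variable {K L : Type} [Field K] [Algebra (ZMod p) K] [Field L] [Algebra (ZMod p) L]

/-- Descent of units: a unit whose coordinates are in a subfield. -/
theorem exists_unit (f : K →+* L) (x : (L ⊗[ZMod p] B)ˣ)
    (h : ∀ i, ∃ c, f c = crd (x : L ⊗[ZMod p] B) i) :
    ∃ y : (K ⊗[ZMod p] B)ˣ, tu f (RingHom.id B) y = x := by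
  choose c hc using h
  have h1 : tmap (p := p) f (RingHom.id B) (vec (Module.finBasis (ZMod p) B) c) =
      (x : L ⊗[ZMod p] B) := by
    apply crd_ext
    intro i
    rw [crd_tmap, crd_vec, hc]
  obtain ⟨y', hy'⟩ := desc_inv f x ⟨_, h1⟩
  have hinj := tmap_injective (p := p) (B := B) f f.injective
  refine ⟨⟨vec (Module.finBasis (ZMod p) B) c, y', ?_, ?_⟩, Units.ext h1⟩
  · apply hinj
    rw [map_mul, map_one, h1, hy', Units.mul_inv]
  · apply hinj
    rw [map_mul, map_one, h1, hy', Units.inv_mul]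

/-- Fixed units of the Frobenius. -/
theorem exists_cstu [CharP K p] {x : (K ⊗[ZMod p] B)ˣ} (h : fru 1 K x = x) :
    ∃ b : Bˣ, x = cstu K b := by
  have h1 : frob K (x : K ⊗[ZMod p] B) = x := by
    have h2 := congrArg Units.val h
    rw [fru, coe_tu, iterateFrobenius_one] at h2
    exact h2
  obtain ⟨b, hb⟩ := exists_unit_of_frob_eq x h1
  exact ⟨b, Units.ext hb⟩

end fields

section endo

variable {𝒢 : LangGp p B} (Φ : 𝒢.End)

theorem iter_mem {R : Type} [CommRing R] [CharP R p] [Algebra (ZMod p) R] (m : ℕ)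
    {x : (R ⊗[ZMod p] B)ˣ} (hx : x ∈ 𝒢.H R) : (Φ.φ R)^[m] x ∈ 𝒢.H R := by
  induction m generalizing x with
  | zero => exact hx
  | succ m ih =>
    rw [Function.iterate_succ_apply]
    exact ih (Φ.mem R x hx)

theorem iter_mul {R : Type} [CommRing R] [CharP R p] [Algebra (ZMod p) R] (m : ℕ)
    {x y : (R ⊗[ZMod p] B)ˣ} (hx : x ∈ 𝒢.H R) (hy : y ∈ 𝒢.H R) :
    (Φ.φ R)^[m] (x * y) = (Φ.φ R)^[m] x * (Φ.φ R)^[m] y := by
  induction m generalizing x y with
  | zero => rfl
  | succ m ih =>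
    rw [Function.iterate_succ_apply, Function.iterate_succ_apply, Function.iterate_succ_apply,
      Φ.mul R x hx y hy, ih (Φ.mem R x hx) (Φ.mem R y hy)]

theorem iter_nat {R R' : Type} [CommRing R] [CharP R p] [Algebra (ZMod p) R] [CommRing R']
    [CharP R' p] [Algebra (ZMod p) R'] (f : R →+* R') (m : ℕ) {x : (R ⊗[ZMod p] B)ˣ}
    (hx : x ∈ 𝒢.H R) :
    (Φ.φ R')^[m] (tu f (RingHom.id B) x) = tu f (RingHom.id B) ((Φ.φ R)^[m] x) := by
  induction m generalizing x with
  | zero => rfl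
  | succ m ih =>
    rw [Function.iterate_succ_apply, Function.iterate_succ_apply, Φ.nat R R' f x hx,
      ih (Φ.mem R x hx)]

/-- The Frobenius maps `H(R)` to `H(R)`. -/
theorem fru_mem {R : Type} [CommRing R] [CharP R p] [Algebra (ZMod p) R] (d : ℕ)
    {x : (R ⊗[ZMod p] B)ˣ} (hx : x ∈ 𝒢.H R) : fru d R x ∈ 𝒢.H R := 𝒢.map R R _ x hx

/-- `Φ` commutes with the Frobenius. -/
theorem phi_fru {R : Type} [CommRing R] [CharP R p] [Algebra (ZMod p) R] (d : ℕ)
    {x : (R ⊗[ZMod p] B)ˣ} (hx : x ∈ 𝒢.H R) : Φ.φ R (fru d R x) = fru d R (Φ.φ R x) :=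
  Φ.nat R R _ x hx

/-- The points, over an arbitrary commutative ring. -/
theorem cstu_mem {R : Type} [CommRing R] [CharP R p] [Algebra (ZMod p) R] {b : Bˣ}
    (hb : b ∈ Φ.pts) : cstu R b ∈ 𝒢.H R ∧ Φ.φ R (cstu R b) = cstu R b := by
  have h1 := 𝒢.map (ZMod p) R (algebraMap (ZMod p) R) _ hb.1
  have h2 := Φ.nat (ZMod p) R (algebraMap (ZMod p) R) _ hb.1
  rw [tu_cstu] at h1 h2
  rw [hb.2, tu_cstu] at h2
  exact ⟨h1, h2⟩

/-- The points, over a field. -/
theorem mem_pts_iff {K : Type} [Field K] [CharP K p] [Algebra (ZMod p) K] {b : Bˣ} :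
    b ∈ Φ.pts ↔ cstu K b ∈ 𝒢.H K ∧ Φ.φ K (cstu K b) = cstu K b := by
  refine ⟨cstu_mem Φ, ?_⟩
  rintro ⟨h1, h2⟩
  have h3 : cstu (ZMod p) b ∈ 𝒢.H (ZMod p) := by
    apply 𝒢.inj (ZMod p) K (algebraMap (ZMod p) K) (algebraMap (ZMod p) K).injective
    rw [tu_cstu]
    exact h1
  refine ⟨h3, ?_⟩
  apply tu_injective (p := p) (B := B) (algebraMap (ZMod p) K).injective
  rw [← Φ.nat _ _ _ _ h3, tu_cstu]
  exact h2

/-- The Frobenius as an endomorphism. -/
noncomputable def frEnd (𝒢 : LangGp p B) (d : ℕ) : 𝒢.End where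
  φ R := fun x => fru d R x
  mem R := fun x hx => fru_mem d hx
  mul R := fun x _ y _ => map_mul _ x y
  nat R R' := fun f x _ => fru_tu d f (RingHom.id B) x

theorem frEnd_root (𝒢 : LangGp p B) (d : ℕ) : (frEnd 𝒢 d).Root 1 d := by
  intro R _ _ _ x hx
  rfl

end endo

section datum

variable (D : LieDatum p)

/-- The generic value of `P` is in `H`. -/
theorem P_mem : D.P ∈ D.H.H (MvPolynomial (Fin D.N) (ZMod p)) :=
  (D.closure _ _).2 fun _ h => h

theorem val_mem {R : Type} [CommRing R] [Algebra (ZMod p) R] (t : Fin D.N → R) :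
    valP D.P t ∈ D.H.H R := valP_mem (P_mem D) t

end datum

end LG

end MP7Z
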