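import Pool.Agent.Lib.MP_7f581e_Z.LieG.Cls
import Pool.Agent.Lib.MP_7f581e_Z.LieG.Basic

/-!
# The simple groups of Lie type: from the matrix form to `LieDatum`
-/

set_option autoImplicit false
set_option linter.unusedSectionVars false

namespace MP7Z

namespace LG

open TensorProduct MP7fS Matrix

variable {p : ℕ} [Fact p.Prime] {n : ℕ}

/-- The algebra of matrices. -/
abbrev MB (p n : ℕ) : Type := Matrix (Fin n) (Fin n) (ZMod p)

theorem gl_ext {R : Type} [CommRing R] {x y : GLn n R} (h : ∀ k, ent x k = ent y k) : x = y := by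
  apply Units.ext
  ext i j
  exact h (i, j)

theorem ent_glMap {R S : Type} [CommRing R] [CommRing S] (f : R →+* S) (x : GLn n R)
    (k : Fin n × Fin n) : ent (glMap f x) k = f (ent x k) := rfl

theorem glMap_mul {R S : Type} [CommRing R] [CommRing S] (f : R →+* S) (x y : GLn n R) :
    glMap f (x * y) = glMap f x * glMap f y := map_mul (GeneralLinearGroup.map f) x y

theorem glMap_one {R S : Type} [CommRing R] [CommRing S] (f : R →+* S) :
    glMap f (1 : GLn n R) = 1 := map_one (GeneralLinearGroup.map f)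

theorem glMap_inv {R S : Type} [CommRing R] [CommRing S] (f : R →+* S) (x : GLn n R) :
    glMap f x⁻¹ = (glMap f x)⁻¹ := map_inv (GeneralLinearGroup.map f) x

theorem ent_mul {R : Type} [CommRing R] (x y : GLn n R) (i j : Fin n) :
    ent (x * y) (i, j) = ∑ l, ent x (i, l) * ent y (l, j) :=
  Matrix.mul_apply

section mtx

variable (R : Type) [CommRing R] [Algebra (ZMod p) R]

/-- `R ⊗ M_n(𝔽_p) = M_n(R)`. -/
noncomputable def mtx (p : ℕ) [Fact p.Prime] (n : ℕ) (R : Type) [CommRing R] [Algebra (ZMod p) R] :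
    R ⊗[ZMod p] MB p n ≃ₐ[ZMod p] Matrix (Fin n) (Fin n) R :=
  (matrixEquivTensor (Fin n) (ZMod p) R).symm

theorem mtx_tmul (r : R) (M : MB p n) :
    mtx p n R (r ⊗ₜ M) = r • M.map (algebraMap (ZMod p) R) := rfl

/-- `(R ⊗ M_n(𝔽_p))ˣ = GL_n(R)`. -/
noncomputable def mU : (R ⊗[ZMod p] MB p n)ˣ ≃* GLn n R :=
  Units.mapEquiv ((mtx p n R : R ⊗[ZMod p] MB p n ≃+* Matrix (Fin n) (Fin n) R) :
    R ⊗[ZMod p] MB p n ≃* Matrix (Fin n) (Fin n) R)

theorem ent_mU (x : (R ⊗[ZMod p] MB p n)ˣ) (i j : Fin n) :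
    ent (mU R x) (i, j) = mtx p n R (x : R ⊗[ZMod p] MB p n) i j := rfl

end mtx

section mtx2

variable {R S : Type} [CommRing R] [Algebra (ZMod p) R] [CommRing S] [Algebra (ZMod p) S]

theorem mtx_tmap (f : R →+* S) (x : R ⊗[ZMod p] MB p n) (i j : Fin n) :
    mtx p n S (tmap f (RingHom.id (MB p n)) x) i j = f (mtx p n R x i j) := by
  induction x using TensorProduct.induction_on with
  | zero => simp
  | tmul r M =>
    rw [tmap_tmul, mtx_tmul, mtx_tmul, RingHom.id_apply, Matrix.smul_apply, Matrix.smul_apply,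
      Matrix.map_apply, Matrix.map_apply, smul_eq_mul, smul_eq_mul, map_mul]
    congr 1
    exact ((toAlg (p := p) f).commutes (M i j)).symm
  | add x y hx hy => rw [map_add, map_add, Matrix.add_apply, hx, hy, map_add, Matrix.add_apply,
      map_add]

theorem mU_tu (f : R →+* S) (x : (R ⊗[ZMod p] MB p n)ˣ) :
    mU S (tu f (RingHom.id (MB p n)) x) = glMap f (mU R x) := by
  apply gl_ext
  rintro ⟨i, j⟩
  rw [ent_glMap, ent_mU, ent_mU, coe_tu, mtx_tmap]

theorem mU_cstu (b : GLn n (ZMod p)) :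
    mU R (cstu (p := p) (B := MB p n) R b) = glMap (algebraMap (ZMod p) R) b := by
  apply gl_ext
  rintro ⟨i, j⟩
  rw [ent_glMap, ent_mU, coe_cstu, mtx_tmul, one_smul]
  rfl

theorem mU_cstu_zmod (b : GLn n (ZMod p)) :
    mU (ZMod p) (cstu (p := p) (B := MB p n) (ZMod p) b) = b := by
  rw [mU_cstu]
  apply gl_ext
  intro k
  rw [ent_glMap]
  rfl

/-- Conjugation in the algebra of matrices. -/
def conjB {B : Type} [Ring B] (a : Bˣ) : B ≃+* B where
  toFun x := a.val * x * a.inv
  invFun x := a.inv * x * a.val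
  left_inv x := by
    change a.inv * (a.val * x * a.inv) * a.val = x
    rw [mul_assoc, mul_assoc, mul_assoc, a.inv_val, mul_one, ← mul_assoc, a.inv_val, one_mul]
  right_inv x := by
    change a.val * (a.inv * x * a.val) * a.inv = x
    rw [mul_assoc, mul_assoc, mul_assoc, a.val_inv, mul_one, ← mul_assoc, a.val_inv, one_mul]
  map_mul' x y := by
    simp only [mul_assoc]
    rw [← mul_assoc a.inv a.val, a.inv_val, one_mul]
  map_add' x y := by
    rw [mul_add, add_mul]

theorem conjB_apply {B : Type} [Ring B] (a : Bˣ) (x : B) :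
    conjB a x = a.val * x * (a⁻¹ : Bˣ).val := rfl

/-- Conjugation, as a homomorphism. -/
def conjHom {B C : Type} [Ring B] [Group C] (α : C →* Bˣ) : C →* (B ≃+* B) where
  toFun c := conjB (α c)
  map_one' := by
    ext x
    rw [conjB_apply, map_one, inv_one, Units.val_one, one_mul, mul_one]
    rfl
  map_mul' c d := by
    ext x
    change _ = conjB (α c) (conjB (α d) x)
    rw [conjB_apply, conjB_apply, conjB_apply, map_mul, _root_.mul_inv_rev, Units.val_mul, Units.val_mul]
    simp only [mul_assoc]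

theorem conjHom_apply {B C : Type} [Ring B] [Group C] (α : C →* Bˣ) (c : C) (x : B) :
    conjHom α c x = (α c).val * x * ((α c)⁻¹ : Bˣ).val := rfl

theorem tmap_conj {B : Type} [Ring B] [Finite B] [Algebra (ZMod p) B] (a : Bˣ)
    (x : R ⊗[ZMod p] B) : tmap (p := p) (RingHom.id R) (conjB a : B →+* B) x =
      (1 ⊗ₜ a.val) * x * (1 ⊗ₜ (a⁻¹ : Bˣ).val) := by
  induction x using TensorProduct.induction_on with
  | zero => simp
  | tmul r M =>
    rw [tmap_tmul, Algebra.TensorProduct.tmul_mul_tmul, Algebra.TensorProduct.tmul_mul_tmul,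
      one_mul, mul_one]
    rfl
  | add x y hx hy => rw [map_add, hx, hy, mul_add, add_mul]

theorem tu_conj {B C : Type} [Ring B] [Finite B] [Algebra (ZMod p) B] [Group C] (α : C →* Bˣ)
    (c : C) (x : (R ⊗[ZMod p] B)ˣ) : tu (RingHom.id R) (conjHom α c : B →+* B) x =
      cstu R (α c) * x * (cstu R (α c))⁻¹ := by
  apply Units.ext
  rw [coe_tu, Units.val_mul, Units.val_mul, ← map_inv, coe_cstu, coe_cstu]
  exact tmap_conj (α c) _

theorem mU_tu_conj {C : Type} [Group C] (α : C →* GLn n (ZMod p)) (c : C)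
    (x : (R ⊗[ZMod p] MB p n)ˣ) :
    mU R (tu (RingHom.id R) (conjHom (B := MB p n) α c : MB p n →+* MB p n) x) =
      glConj (α c) (mU R x) := by
  rw [tu_conj, map_mul, map_mul, map_inv, mU_cstu]
  rfl

end mtx2

section cl

variable {N : ℕ} {P : PMap p N n} {R S : Type} [CommRing R] [Algebra (ZMod p) R] [CommRing S]
  [Algebra (ZMod p) S]

theorem aeval_ent_glMap (f : R →+* S) (x : GLn n R) (g : MvPolynomial (Fin n × Fin n) (ZMod p)) :
    MvPolynomial.aeval (ent (glMap f x)) g = f (MvPolynomial.aeval (ent x) g) := by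
  have h : (MvPolynomial.aeval (ent (glMap f x)) :
      MvPolynomial (Fin n × Fin n) (ZMod p) →ₐ[ZMod p] S) =
      (toAlg (p := p) f).comp (MvPolynomial.aeval (ent x)) := by
    apply MvPolynomial.algHom_ext
    intro k
    rw [MvPolynomial.aeval_X, AlgHom.comp_apply, MvPolynomial.aeval_X, ent_glMap]
    rfl
  rw [h]
  rfl

theorem inCl_map {x : GLn n R} (h : InCl P x) (f : R →+* S) : InCl P (glMap f x) := by
  intro g hg
  rw [aeval_ent_glMap, h g hg, map_zero]

theorem inCl_of_inj {x : GLn n R} {f : R →+* S} (hf : Function.Injective f)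
    (h : InCl P (glMap f x)) : InCl P x := by
  intro g hg
  apply hf
  rw [← aeval_ent_glMap, h g hg, map_zero]

theorem inCl_self : InCl P P := fun _ hg => hg

theorem inCl_val (t : Fin N → R) : InCl P (glVal P t) := inCl_map inCl_self _

theorem inCl_one (h : IsGp P) : InCl P (1 : GLn n R) := by
  have h1 : InCl P (1 : GLn n (ZMod p)) := by
    rw [← h.one]
    exact inCl_val _
  have h2 := inCl_map h1 (algebraMap (ZMod p) R)
  rwa [glMap_one] at h2

theorem inCl_inv (h : IsGp P) {x : GLn n R} (hx : InCl P x) : InCl P x⁻¹ := by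
  have h1 := h.mul R 1 x (inCl_one h) hx
  rwa [one_mul] at h1

theorem inCl_mul (h : IsGp P) {x y : GLn n R} (hx : InCl P x) (hy : InCl P y) :
    InCl P (x * y) := by
  have h1 := h.mul R x y⁻¹ hx (inCl_inv h hy)
  rwa [inv_inv] at h1

/-- The group functor. -/
noncomputable def gpOf (h : IsGp P) : LangGp p (MB p n) where
  H R _ _ :=
    { carrier := {x | InCl P (mU R x)}
      one_mem' := by
        change InCl P (mU R 1)
        rw [map_one]
        exact inCl_one h
      mul_mem' := by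
        intro x y hx hy
        change InCl P (mU R (x * y))
        rw [map_mul]
        exact inCl_mul h hx hy
      inv_mem' := by
        intro x hx
        change InCl P (mU R x⁻¹)
        rw [map_inv]
        exact inCl_inv h hx }
  map R R' _ _ _ _ f x hx := by
    change InCl P (mU R' (tu f (RingHom.id (MB p n)) x))
    rw [mU_tu]
    exact inCl_map hx f
  inj R R' _ _ _ _ f hf x hx := by
    change InCl P (mU R' (tu f (RingHom.id (MB p n)) x)) at hx
    rw [mU_tu] at hx
    exact inCl_of_inj hf hx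

theorem mem_gpOf (h : IsGp P) {x : (R ⊗[ZMod p] MB p n)ˣ} : x ∈ (gpOf h).H R ↔ InCl P (mU R x) :=
  Iff.rfl

/-- The polynomial map. -/
noncomputable def pOf (P : PMap p N n) : (MvPolynomial (Fin N) (ZMod p) ⊗[ZMod p] MB p n)ˣ :=
  (mU (MvPolynomial (Fin N) (ZMod p))).symm P

theorem mU_pOf : mU (MvPolynomial (Fin N) (ZMod p)) (pOf P) = P := MulEquiv.apply_symm_apply _ _

theorem mU_valP (t : Fin N → R) : mU R (valP (pOf P) t) = glVal P t := by
  rw [valP, mU_tu, mU_pOf]
  rfl

/-- The entries in terms of the coordinates. -/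
theorem entry_crd (x : R ⊗[ZMod p] MB p n) (i j : Fin n) :
    mtx p n R x i j = ∑ k, crd x k * algebraMap (ZMod p) R (Module.finBasis (ZMod p) (MB p n) k i j) := by
  have h : x = ∑ k, crd x k • (1 ⊗ₜ Module.finBasis (ZMod p) (MB p n) k : R ⊗[ZMod p] MB p n) := by
    conv_lhs => rw [← (eb (Module.finBasis (ZMod p) (MB p n)) R).sum_repr x]
    refine Finset.sum_congr rfl fun k _ => ?_
    rw [eb_apply]
    rfl
  conv_lhs => rw [h]
  rw [map_sum, Matrix.sum_apply]
  refine Finset.sum_congr rfl fun k _ => ?_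
  rw [TensorProduct.smul_tmul', mtx_tmul, Matrix.smul_apply, Matrix.map_apply, smul_eq_mul,
    smul_eq_mul, mul_one]

/-- The coordinates in terms of the entries. -/
theorem crd_entry (x : R ⊗[ZMod p] MB p n) (k : Fin (Module.finrank (ZMod p) (MB p n))) :
    crd x k = ∑ q : Fin n × Fin n, mtx p n R x q.1 q.2 *
      algebraMap (ZMod p) R ((Module.finBasis (ZMod p) (MB p n)).repr (Matrix.single q.1 q.2 1) k) := by
  have h : x = ∑ q : Fin n × Fin n, mtx p n R x q.1 q.2 ⊗ₜ Matrix.single q.1 q.2 1 := by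
    conv_lhs => rw [← (matrixEquivTensor (Fin n) (ZMod p) R).apply_symm_apply x]
    rw [matrixEquivTensor_apply]
    rfl
  conv_lhs => rw [h]
  rw [crd, map_sum, Finsupp.finset_sum_apply]
  refine Finset.sum_congr rfl fun q _ => ?_
  rw [eb, Algebra.TensorProduct.basis_repr_tmul, Finsupp.smul_apply, Finsupp.mapRange_apply,
    smul_eq_mul]

/-- Entries as polynomials in the coordinates. -/
noncomputable def subF (f : MvPolynomial (Fin n × Fin n) (ZMod p)) :
    MvPolynomial (Fin (Module.finrank (ZMod p) (MB p n))) (ZMod p) :=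
  MvPolynomial.aeval (fun q : Fin n × Fin n => ∑ k, MvPolynomial.X k *
    MvPolynomial.C (Module.finBasis (ZMod p) (MB p n) k q.1 q.2)) f

/-- Coordinates as polynomials in the entries. -/
noncomputable def subG (g : MvPolynomial (Fin (Module.finrank (ZMod p) (MB p n))) (ZMod p)) :
    MvPolynomial (Fin n × Fin n) (ZMod p) :=
  MvPolynomial.aeval (fun k => ∑ q : Fin n × Fin n, MvPolynomial.X q *
    MvPolynomial.C ((Module.finBasis (ZMod p) (MB p n)).repr (Matrix.single q.1 q.2 1) k)) g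

theorem aeval_subF (x : (R ⊗[ZMod p] MB p n)ˣ) (f : MvPolynomial (Fin n × Fin n) (ZMod p)) :
    MvPolynomial.aeval (crd (x : R ⊗[ZMod p] MB p n)) (subF f) =
      MvPolynomial.aeval (ent (mU R x)) f := by
  rw [subF, ← AlgHom.comp_apply]
  congr 1
  apply MvPolynomial.algHom_ext
  rintro ⟨i, j⟩
  rw [AlgHom.comp_apply, MvPolynomial.aeval_X, MvPolynomial.aeval_X, map_sum, ent_mU, entry_crd]
  refine Finset.sum_congr rfl fun k _ => ?_
  rw [map_mul, MvPolynomial.aeval_X, MvPolynomial.aeval_C]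

theorem aeval_subG (x : (R ⊗[ZMod p] MB p n)ˣ)
    (g : MvPolynomial (Fin (Module.finrank (ZMod p) (MB p n))) (ZMod p)) :
    MvPolynomial.aeval (ent (mU R x)) (subG g) =
      MvPolynomial.aeval (crd (x : R ⊗[ZMod p] MB p n)) g := by
  rw [subG, ← AlgHom.comp_apply]
  congr 1
  apply MvPolynomial.algHom_ext
  intro k
  rw [AlgHom.comp_apply, MvPolynomial.aeval_X, MvPolynomial.aeval_X, map_sum, crd_entry]
  refine Finset.sum_congr rfl fun q _ => ?_
  rw [map_mul, MvPolynomial.aeval_X, MvPolynomial.aeval_C]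
  rfl

theorem closure_gpOf (h : IsGp P) (x : (R ⊗[ZMod p] MB p n)ˣ) :
    x ∈ (gpOf h).H R ↔ ∀ g : MvPolynomial (Fin (Module.finrank (ZMod p) (MB p n))) (ZMod p),
      MvPolynomial.aeval (crd (pOf P : MvPolynomial (Fin N) (ZMod p) ⊗[ZMod p] MB p n)) g = 0 →
      MvPolynomial.aeval (crd (x : R ⊗[ZMod p] MB p n)) g = 0 := by
  rw [mem_gpOf]
  constructor
  · intro hx g hg
    rw [← aeval_subG]
    apply hx
    rw [← aeval_subG, mU_pOf] at hg
    exact hg
  · intro hx f hf
    rw [← aeval_subF]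
    apply hx
    rw [aeval_subF, mU_pOf]
    exact hf

theorem glVal_X (P : PMap p N n) :
    glVal P (MvPolynomial.X : Fin N → MvPolynomial (Fin N) (ZMod p)) = P := by
  apply gl_ext
  intro k
  rw [glVal, ent_glMap]
  change (MvPolynomial.aeval MvPolynomial.X) (ent P k) = _
  rw [MvPolynomial.aeval_X_left]
  rfl

theorem ent_glConj (a : GLn n (ZMod p)) (x : GLn n R) (i j : Fin n) : ent (glConj a x) (i, j) =
    ∑ l, (∑ k, algebraMap (ZMod p) R (ent a (i, k)) * ent x (k, l)) *
      algebraMap (ZMod p) R (ent a⁻¹ (l, j)) := by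
  rw [glConj, ent_mul]
  refine Finset.sum_congr rfl fun l _ => ?_
  rw [ent_mul, ← glMap_inv]
  rfl

/-- The polynomial `f(a X a⁻¹)`. -/
noncomputable def subC (a : GLn n (ZMod p)) (f : MvPolynomial (Fin n × Fin n) (ZMod p)) :
    MvPolynomial (Fin n × Fin n) (ZMod p) :=
  MvPolynomial.aeval (fun q : Fin n × Fin n =>
    ∑ l, (∑ k, MvPolynomial.C (ent a (q.1, k)) * MvPolynomial.X (k, l)) *
      MvPolynomial.C (ent a⁻¹ (l, q.2))) f

theorem aeval_subC (a : GLn n (ZMod p)) (x : GLn n R)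
    (f : MvPolynomial (Fin n × Fin n) (ZMod p)) :
    MvPolynomial.aeval (ent x) (subC a f) = MvPolynomial.aeval (ent (glConj a x)) f := by
  rw [subC, ← AlgHom.comp_apply]
  congr 1
  apply MvPolynomial.algHom_ext
  rintro ⟨i, j⟩
  rw [AlgHom.comp_apply, MvPolynomial.aeval_X, MvPolynomial.aeval_X, map_sum, ent_glConj]
  refine Finset.sum_congr rfl fun l _ => ?_
  rw [map_mul, MvPolynomial.aeval_C, map_sum]
  congr 1
  refine Finset.sum_congr rfl fun k _ => ?_
  rw [map_mul, MvPolynomial.aeval_C, MvPolynomial.aeval_X]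

theorem inCl_glConj {a : GLn n (ZMod p)} {b : GLn N (ZMod p)}
    (hab : glVal P (glLin b (MvPolynomial.X : Fin N → MvPolynomial (Fin N) (ZMod p))) =
      glConj a (glVal P MvPolynomial.X)) {x : GLn n R} (hx : InCl P x) :
    InCl P (glConj a x) := by
  intro f hf
  rw [← aeval_subC]
  apply hx
  rw [aeval_subC]
  rw [glVal_X] at hab
  rw [← hab]
  exact inCl_val _ f hf

/-- The endomorphism. -/
noncomputable def endOf (h : IsGp P) {Φ : EMap p n} (hΦ : IsRoot P Φ) : (gpOf h).End where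
  φ R _ _ _ x := (mU R).symm (Φ.ap R (mU R x))
  mem R _ _ _ x hx := by
    rw [mem_gpOf] at hx ⊢
    rw [MulEquiv.apply_symm_apply]
    exact hΦ.mem R _ hx
  mul R _ _ _ x hx y hy := by
    rw [mem_gpOf] at hx hy
    rw [map_mul, hΦ.mul R _ _ hx hy, map_mul]
  nat R R' _ _ _ _ _ _ f x hx := by
    rw [mem_gpOf] at hx
    apply (mU R').injective
    rw [MulEquiv.apply_symm_apply, mU_tu, mU_tu, MulEquiv.apply_symm_apply, hΦ.nat R R' f _ hx]

theorem mU_endOf (h : IsGp P) {Φ : EMap p n} (hΦ : IsRoot P Φ) [CharP R p]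
    (x : (R ⊗[ZMod p] MB p n)ˣ) : mU R ((endOf h hΦ).φ R x) = Φ.ap R (mU R x) :=
  MulEquiv.apply_symm_apply _ _

theorem mU_iter (h : IsGp P) {Φ : EMap p n} (hΦ : IsRoot P Φ) [CharP R p] (e : ℕ)
    (x : (R ⊗[ZMod p] MB p n)ˣ) :
    mU R (((endOf h hΦ).φ R)^[e] x) = (Φ.ap R)^[e] (mU R x) := by
  induction e with
  | zero => rfl
  | succ e ih => rw [Function.iterate_succ_apply', mU_endOf, ih, Function.iterate_succ_apply']

theorem root_endOf (h : IsGp P) {Φ : EMap p n} (hΦ : IsRoot P Φ) {e : ℕ}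
    (he : ∀ (R : Type) [CommRing R] [Algebra (ZMod p) R] (x : GLn n R),
      InCl P x → ∀ k, ent ((Φ.ap R)^[e] x) k = ent x k ^ p) : (endOf h hΦ).Root e 1 := by
  intro R _ _ _ x hx
  apply (mU R).injective
  apply gl_ext
  intro k
  rw [mU_iter, he R _ hx k, fru, mU_tu, ent_glMap, iterateFrobenius_one]
  rfl

theorem mem_pts_endOf (h : IsGp P) {Φ : EMap p n} (hΦ : IsRoot P Φ) (b : GLn n (ZMod p)) :
    b ∈ (endOf h hΦ).pts ↔ InCl P b ∧ Φ.ap (ZMod p) b = b := by
  rw [LangGp.End.mem_pts, mem_gpOf, mU_cstu_zmod]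
  refine and_congr Iff.rfl ?_
  rw [← (mU (ZMod p)).injective.eq_iff, mU_endOf, mU_cstu_zmod]

theorem mvz_eq (b : GLn N (ZMod p)) (t : Fin N → R) :
    mvz ((b : GLn N (ZMod p)).val) t = glLin b t := rfl

end cl

section main

variable {N : ℕ} {P : PMap p N n} {Φ : EMap p n} {X : Type} [Group X] {ι : X →* GLn n (ZMod p)}
  {C : Type} [Group C] [Finite C] {α : C →* GLn n (ZMod p)} {β : C →* GLn N (ZMod p)}

/-- `X` and the group of points. -/
noncomputable def ptsEquiv (h : IsGp P) (hΦ : IsRoot P Φ) (hX : IsPts P Φ ι) :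
    X ≃* (endOf h hΦ).pts :=
  MulEquiv.ofBijective (ι.codRestrict (endOf h hΦ).pts fun x =>
    (mem_pts_endOf h hΦ (ι x)).2 ((hX.range (ι x)).1 ⟨x, rfl⟩)) (by
    constructor
    · intro x y hxy
      exact hX.inj (congrArg Subtype.val hxy)
    · rintro ⟨b, hb⟩
      obtain ⟨x, hx⟩ := (hX.range b).2 ((mem_pts_endOf h hΦ b).1 hb)
      exact ⟨x, Subtype.ext hx⟩)

theorem coe_ptsEquiv (h : IsGp P) (hΦ : IsRoot P Φ) (hX : IsPts P Φ ι) (x : X) :
    ((ptsEquiv h hΦ hX x : (endOf h hΦ).pts) : (MB p n)ˣ) = ι x := rfl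

theorem gen_gpOf (h : IsGp P) (F : Type) [Field F] [Algebra (ZMod p) F] [Finite F]
    (x : (F ⊗[ZMod p] MB p n)ˣ) (hx : x ∈ (gpOf h).H F) :
    x ∈ Subgroup.closure (Set.range fun t : Fin N → F => valP (pOf P) t) := by
  have h1 := h.gen F (mU F x) hx
  have h2 : x ∈ (Subgroup.closure (Set.range fun t : Fin N → F => glVal P t)).map
      ((mU (p := p) (n := n) F).symm : GLn n F →* (F ⊗[ZMod p] MB p n)ˣ) :=
    ⟨mU F x, h1, MulEquiv.symm_apply_apply _ _⟩
  rw [MonoidHom.map_closure, ← Set.range_comp] at h2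
  convert h2 using 3
  ext t
  simp only [Function.comp_apply]
  rw [← mU_valP]
  exact congrArg _ (MulEquiv.symm_apply_apply _ _).symm

theorem perf_pts (h : IsGp P) (hΦ : IsRoot P Φ) (hX : IsPts P Φ ι) :
    commutator (endOf h hΦ).pts = ⊤ := by
  have h1 := congrArg (Subgroup.map (ptsEquiv h hΦ hX : X →* (endOf h hΦ).pts)) hX.perf
  have h2 : Subgroup.map (ptsEquiv h hΦ hX : X →* (endOf h hΦ).pts) ⊤ = ⊤ :=
    Subgroup.map_top_of_surjective _ (ptsEquiv h hΦ hX).surjective
  rw [commutator_def, Subgroup.map_commutator, h2] at h1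
  exact h1

theorem glMap_zmod (a : GLn n (ZMod p)) : glMap (algebraMap (ZMod p) (ZMod p)) a = a := by
  apply gl_ext
  intro k
  rw [ent_glMap]
  rfl

theorem uact_conj (c : C) (b : (MB p n)ˣ) :
    uact (conjHom (B := MB p n) α) c b = glConj (α c) (b : GLn n (ZMod p)) := by
  rw [glConj, glMap_zmod]
  apply Units.ext
  rw [coe_uact, conjHom_apply]
  rfl

theorem key (h : IsGp P) (hΦ : IsRoot P Φ) (hX : IsPts P Φ ι) {S : Type} [Group S] {π : X →* S}
    {σ : S ≃* S} {s : S} {c : C}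
    (hsc : ∀ (x y : X), ι y = glConj (α c) (ι x) → σ (π x) = s * π y * s⁻¹)
    (b b' : (endOf h hΦ).pts)
    (hb : (b' : (MB p n)ˣ) = uact (conjHom (B := MB p n) α) c (b : (MB p n)ˣ)) :
    σ (π ((ptsEquiv h hΦ hX).symm b)) = s * π ((ptsEquiv h hΦ hX).symm b') * s⁻¹ := by
  apply hsc
  rw [← coe_ptsEquiv h hΦ hX, ← coe_ptsEquiv h hΦ hX, MulEquiv.apply_symm_apply,
    MulEquiv.apply_symm_apply, hb, uact_conj]

/-- The datum. -/
noncomputable def datumOf (h : IsGp P) (hΦ : IsRoot P Φ) (hX : IsPts P Φ ι)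
    (hC : IsSym P Φ α β) {e : ℕ} (he : 0 < e)
    (hr : ∀ (R : Type) [CommRing R] [Algebra (ZMod p) R] (x : GLn n R),
      InCl P x → ∀ k, ent ((Φ.ap R)^[e] x) k = ent x k ^ p) : LieDatum p where
  B := MB p n
  H := gpOf h
  N := N
  P := pOf P
  closure := fun R _ _ x => closure_gpOf h x
  zero := by
    apply (mU (ZMod p)).injective
    rw [mU_valP, h.one, map_one]
  gen := fun F _ _ _ x hx => gen_gpOf h F x hx
  Φ := endOf h hΦ
  e := e
  e_pos := he
  root := root_endOf h hΦ hr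
  perf := perf_pts h hΦ hX
  A := C
  solv := hC.solv
  α := conjHom (B := MB p n) α
  stab := by
    intro R _ _ c x hx
    rw [mem_gpOf] at hx ⊢
    rw [mU_tu_conj]
    exact inCl_glConj (hC.equi c _ _) hx
  comm := by
    intro R _ _ _ c x hx
    apply (mU R).injective
    rw [mU_endOf, mU_tu_conj, mU_tu_conj, mU_endOf]
    exact hC.comm c R _ hx
  β := (Units.coeHom _).comp β
  equi := by
    intro R _ _ c t
    apply (mU R).injective
    rw [mU_tu_conj, mU_valP, mU_valP]
    exact hC.equi c R t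

end main

end LG

/-- **The matrix form implies the general form.** -/
theorem OfLieType.isLieType {p : ℕ} [Fact p.Prime] {S : Type} [Group S] (h : OfLieType p S) :
    IsLieType p S := by
  obtain ⟨hs, N, n, P, Φ, X, _, ι, π, C, _, _, α, β, hP, hΦ, hX, hC, hq⟩ := h
  obtain ⟨e, he, hr⟩ := hΦ.root
  refine ⟨hs, LG.datumOf hP hΦ hX hC he hr,
    π.comp ((LG.ptsEquiv hP hΦ hX).symm : (LG.endOf hP hΦ).pts →* X),
    hq.surj.comp (LG.ptsEquiv hP hΦ hX).symm.surjective, fun σ => ?_⟩
  obtain ⟨s, c, hsc⟩ := hq.aut σ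
  refine ⟨s, c, fun b => ?_⟩
  exact LG.key hP hΦ hX hsc b _ rfl

theorem OfLieType.congr {p : ℕ} {S T : Type} [Group S] [Group T] (e : S ≃* T)
    (h : OfLieType p S) : OfLieType p T := by
  obtain ⟨hs, N, n, P, Φ, X, _, ι, π, C, _, _, α, β, hP, hΦ, hX, hC, hq⟩ := h
  refine ⟨MulEquiv.isSimpleGroup e.symm, N, n, P, Φ, X, inferInstance, ι,
    (e : S →* T).comp π, C, inferInstance, inferInstance, α, β, hP, hΦ, hX, hC,
    e.surjective.comp hq.surj, fun σ => ?_⟩
  obtain ⟨s, c, h4⟩ := hq.aut ((e.trans σ).trans e.symm)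
  refine ⟨e s, c, fun x y hxy => ?_⟩
  have h5 := congrArg e (h4 x y hxy)
  rw [map_mul, map_mul, map_inv] at h5
  change e (e.symm (σ (e (π x)))) = _ at h5
  rw [MulEquiv.apply_symm_apply] at h5
  exact h5

end MP7Z
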