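import Pool.Agent.Lib.MP_7f581e_Z.LieG.Grp

/-!
# Step Lie, group theory, faithful case
-/

set_option autoImplicit false

namespace MP7Z

namespace LG

open MP7fW MP7fY GrpM

/-- If `A` acts faithfully on `S` modulo inner automorphisms then `Q → G` is bijective. -/
theorem grp_bij (M S A : Type) [Group M] [Group S] [Finite S] [IsSimpleGroup S] [Group A]
    [Finite A] (hM : commutator M = ⊤) (act : A →* MulAut M) (π : M →* S)
    (hπ : Function.Surjective π)
    (haut : ∀ σ : S ≃* S, ∃ (s : S) (a : A), ∀ b, σ (π b) = s * π (act a b) * s⁻¹)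
    (hinj : ∀ (s : S) (a : A), (∀ b, π (act a b) = s * π b * s⁻¹) → a = 1)
    (κ : Type) [Finite κ] (G E : Type) [Group G] [Group E] [Finite E] (f : E →* G)
    (hf : Function.Surjective f) (θ : f.ker ≃* (κ → S)) :
    ∃ (Q : Type) (_ : Group Q) (_ : Finite Q) (f₂ : Q →* G) (i : Q →* E) (w : Q →* WrG κ A),
      Function.Bijective f₂ ∧ (∀ q, f (i q) = f₂ q) ∧
      ∀ (q : Q) (b : κ → M), i q * ((θ.symm fun k => π (b k) : f.ker) : E) * (i q)⁻¹ =
        ((θ.symm fun k => π (act ((w q).left k) (b ((w q).right.symm k))) : f.ker) : E) := by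
  classical
  have hz : Subgroup.center S = ⊥ := center_bot hM π hπ
  let Q := pairs act π f θ
  let i : Q →* E := (MonoidHom.fst E (WrG κ A)).comp Q.subtype
  let w : Q →* WrG κ A := (MonoidHom.snd E (WrG κ A)).comp Q.subtype
  let f₂ : Q →* G := f.comp i
  have hQ : ∀ (q : Q) (b : κ → M), i q * nn f.ker θ (fun k => π (b k)) * (i q)⁻¹ =
      nn f.ker θ (fun k => π (wa act (w q) b k)) := fun q => (mem_pairs act π f θ).1 q.2
  refine ⟨Q, inferInstance, inferInstance, f₂, i, w, ⟨?_, ?_⟩, fun q => rfl, hQ⟩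
  swap
  · -- surjectivity
    intro g
    obtain ⟨a, rfl⟩ := hf g
    obtain ⟨σ, φ, h⟩ := Pool.Agent.Lib.MP_7f581e_nt.AutAlt.aut_pi hz (Psi f.ker θ a)
    choose s x hx using fun k => haut (φ k)
    have h1 : ∀ b : κ → M, Psi f.ker θ a (fun k => π (b k)) =
        (fun j => s (σ.symm j)) *
          (fun k => π (wa act (⟨fun j => x (σ.symm j), σ⟩ : WrG κ A) b k)) *
          (fun j => s (σ.symm j))⁻¹ := by
      intro b
      funext j
      obtain ⟨k, rfl⟩ := σ.surjective j
      rw [h, hx]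
      change _ = s (σ.symm (σ k)) * π (act (x (σ.symm (σ k))) (b (σ.symm (σ k)))) *
        (s (σ.symm (σ k)))⁻¹
      rw [Equiv.symm_apply_apply]
    have h2 : ((nn f.ker θ (fun j => s (σ.symm j)))⁻¹ * a,
        (⟨fun j => x (σ.symm j), σ⟩ : WrG κ A)) ∈ pairs act π f θ := by
      rw [mem_pairs]
      intro b
      have h3 := nn_psi f.ker θ a (fun k => π (b k))
      rw [h1, map_mul, map_mul, map_inv] at h3
      change (nn f.ker θ (fun j => s (σ.symm j)))⁻¹ * a * nn f.ker θ (fun k => π (b k)) *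
        ((nn f.ker θ (fun j => s (σ.symm j)))⁻¹ * a)⁻¹ = nn f.ker θ
          (fun k => π (wa act (⟨fun j => x (σ.symm j), σ⟩ : WrG κ A) b k))
      have h4 : (nn f.ker θ (fun j => s (σ.symm j)))⁻¹ * a * nn f.ker θ (fun k => π (b k)) *
          ((nn f.ker θ (fun j => s (σ.symm j)))⁻¹ * a)⁻¹ =
          (nn f.ker θ (fun j => s (σ.symm j)))⁻¹ * (a * nn f.ker θ (fun k => π (b k)) * a⁻¹) *
            nn f.ker θ (fun j => s (σ.symm j)) := by group
      rw [h4, ← h3]
      group
    refine ⟨⟨_, h2⟩, ?_⟩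
    change f ((nn f.ker θ (fun j => s (σ.symm j)))⁻¹ * a) = f a
    have h3 : f (nn f.ker θ (fun j => s (σ.symm j))) = 1 :=
      MonoidHom.mem_ker.1 (nn_mem f.ker θ _)
    rw [map_mul, map_inv, h3, inv_one, one_mul]
  · -- the kernel
    have hs : ∀ q : f₂.ker, ∃ s : κ → S, nn f.ker θ s = i (q : Q) := fun q =>
      nn_surj f.ker θ (MonoidHom.mem_ker.1 q.2)
    have hs2 : ∀ (q : f₂.ker) (s : κ → S), nn f.ker θ s = i (q : Q) → ∀ (b : κ → M) (k : κ),
        s k * π (b k) * (s k)⁻¹ = π (wa act (w (q : Q)) b k) := by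
      intro q s hsq b k
      have h1 := hQ (q : Q) b
      rw [← hsq, ← map_inv, ← map_mul, ← map_mul] at h1
      exact congrFun (nn_inj f.ker θ h1) k
    have hr : ∀ (q : f₂.ker) (k : κ), (w (q : Q)).right.symm k = k := by
      intro q k
      by_contra hne
      obtain ⟨s, hsq⟩ := hs q
      obtain ⟨t, ht⟩ := exists_ne (1 : S)
      obtain ⟨m, rfl⟩ := hπ t
      have h1 := hs2 q s hsq (Pi.mulSingle k m) k
      change s k * π (Pi.mulSingle (M := fun _ => M) k m k) * (s k)⁻¹ = π (act ((w (q : Q)).left k)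
        (Pi.mulSingle (M := fun _ => M) k m ((w (q : Q)).right.symm k))) at h1
      rw [Pi.mulSingle_eq_same, Pi.mulSingle_eq_of_ne hne, map_one, map_one,
        mul_inv_eq_one] at h1
      exact ht (mul_eq_left.mp h1)
    have hw : ∀ q : f₂.ker, w (q : Q) = 1 := by
      intro q
      obtain ⟨s, hsq⟩ := hs q
      refine SemidirectProduct.ext (funext fun k => ?_) ?_
      · refine hinj (s k) _ fun m => ?_
        have h1 := hs2 q s hsq (fun _ => m) k
        exact h1.symm
      · refine Equiv.ext fun k => ?_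
        have h1 := hr q ((w (q : Q)).right k)
        rw [Equiv.symm_apply_apply] at h1
        exact h1.symm
    rw [injective_iff_map_eq_one]
    intro q' hq'
    let q : f₂.ker := ⟨q', hq'⟩
    obtain ⟨s, hsq⟩ := hs q
    have h1 : s = 1 := by
      funext k
      have h2 : s k ∈ Subgroup.center S := by
        rw [Subgroup.mem_center_iff]
        intro t
        obtain ⟨m, rfl⟩ := hπ t
        have h3 := hs2 q s hsq (fun _ => m) k
        rw [hw, wa_one] at h3
        rw [mul_inv_eq_iff_eq_mul] at h3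
        exact h3.symm
      rw [hz, Subgroup.mem_bot] at h2
      exact h2
    have h2 : i (q : Q) = 1 := by
      rw [← hsq, h1, map_one]
    exact Subtype.ext (Prod.ext h2 (hw q))

end LG

end MP7Z
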