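import Pool.Agent.Lib.MP_7f581e_Z.Fin.Reg
import Pool.Agent.Lib.MP_7f581e_ntE.Defs

/-!
# Embedding problems over `𝔽_p(X)` in the language of homomorphisms
-/

set_option autoImplicit false

namespace MP7Z

/-- The extension given by a homomorphism of finite level. -/
theorem gal_level {K Ω : Type} [Field K] [Field Ω] [Algebra K Ω] [IsGalois K Ω] {G : Type}
    [Group G] (ψ : (Ω ≃ₐ[K] Ω) →* G) (hψ : Function.Surjective ψ) (S : Finset Ω)
    (hS : ∀ γ : Ω ≃ₐ[K] Ω, (∀ s ∈ S, γ s = s) → ψ γ = 1) :
    ∃ (L : IntermediateField K Ω) (_ : FiniteDimensional K L) (_ : IsGalois K L)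
      (e : (L ≃ₐ[K] L) ≃* G), (∀ γ : Ω ≃ₐ[K] Ω, e (AlgEquiv.restrictNormalHom L γ) = ψ γ) ∧
      ∀ y : Ω, (∀ γ, ψ γ = 1 → γ y = y) → y ∈ L := by
  have hfd : FiniteDimensional K (IntermediateField.adjoin K (S : Set Ω)) :=
    IntermediateField.finiteDimensional_adjoin fun s _ => Algebra.IsIntegral.isIntegral s
  have hopen : IsOpen (ψ.ker : Set (Ω ≃ₐ[K] Ω)) := by
    have h1 := IntermediateField.fixingSubgroup_isOpen (IntermediateField.adjoin K (S : Set Ω))
    refine Subgroup.isOpen_mono
      (H₁ := (IntermediateField.adjoin K (S : Set Ω)).fixingSubgroup) ?_ h1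
    intro γ hγ
    rw [MonoidHom.mem_ker]
    refine hS γ fun s hs => ?_
    exact (IntermediateField.mem_fixingSubgroup_iff _ _).1 hγ s
      (IntermediateField.subset_adjoin K _ hs)
  have hclosed : IsClosed (ψ.ker : Set (Ω ≃ₐ[K] Ω)) := Subgroup.isClosed_of_isOpen _ hopen
  let H : ClosedSubgroup (Ω ≃ₐ[K] Ω) := ⟨ψ.ker, hclosed⟩
  have hHn : H.Normal := (inferInstance : ψ.ker.Normal)
  let L : IntermediateField K Ω := IntermediateField.fixedField H.1
  have hfix : L.fixingSubgroup = ψ.ker := InfiniteGalois.fixingSubgroup_fixedField H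
  have h2 : FiniteDimensional K L ∧ IsGalois K L := by
    rw [← InfiniteGalois.isOpen_and_normal_iff_finite_and_isGalois, hfix]
    exact ⟨hopen, inferInstance⟩
  refine ⟨L, h2.1, h2.2, (InfiniteGalois.normalAutEquivQuotient H).symm.trans
      (QuotientGroup.quotientKerEquivOfSurjective ψ hψ), ?_, ?_⟩
  · intro γ
    have h3 : (InfiniteGalois.normalAutEquivQuotient H).symm
        (AlgEquiv.restrictNormalHom L γ) = QuotientGroup.mk γ := by
      rw [MulEquiv.symm_apply_eq]
      rfl
    rw [MulEquiv.trans_apply, h3]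
    rfl
  · intro y hy
    rintro ⟨γ, hγ⟩
    exact hy γ (MonoidHom.mem_ker.1 hγ)

section

variable (p : ℕ) [Fact p.Prime]

/-- The Galois group of the separable closure. -/
noncomputable def galHom : (Om p ≃ₐ[RatFunc (ZMod p)] Om p) →* Gx p (xx p) where
  toFun γ := ⟨AlgEquiv.restrictScalars (ZMod p) γ, by
    rw [mem_Gx]
    exact γ.commutes _⟩
  map_one' := Subtype.ext (AlgEquiv.ext fun _ => rfl)
  map_mul' a b := Subtype.ext (AlgEquiv.ext fun _ => rfl)

theorem galHom_apply (γ : Om p ≃ₐ[RatFunc (ZMod p)] Om p) (z : Om p) :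
    (galHom p γ : Om p ≃ₐ[ZMod p] Om p) z = γ z := rfl

theorem galHom_bijective : Function.Bijective (galHom p) := by
  constructor
  · intro a b h
    refine AlgEquiv.ext fun z => ?_
    rw [← galHom_apply, ← galHom_apply, h]
  · intro γ
    let f : Om p ≃+* Om p := (γ : Om p ≃ₐ[ZMod p] Om p).toRingEquiv
    have hf : ∀ r : RatFunc (ZMod p), f (algebraMap (RatFunc (ZMod p)) (Om p) r) =
        algebraMap (RatFunc (ZMod p)) (Om p) r := by
      intro r
      have h1 : (f : Om p →+* Om p).comp (algebraMap (RatFunc (ZMod p)) (Om p)) =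
          algebraMap (RatFunc (ZMod p)) (Om p) := by
        apply IsFractionRing.ringHom_ext (A := Polynomial (ZMod p))
        intro P
        have h2 : ((f : Om p →+* Om p).comp (algebraMap (RatFunc (ZMod p)) (Om p))).comp
            (algebraMap (Polynomial (ZMod p)) (RatFunc (ZMod p))) =
            (algebraMap (RatFunc (ZMod p)) (Om p)).comp
              (algebraMap (Polynomial (ZMod p)) (RatFunc (ZMod p))) := by
          apply Polynomial.ringHom_ext
          · intro c
            have h3 : algebraMap (RatFunc (ZMod p)) (Om p)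
                (algebraMap (Polynomial (ZMod p)) (RatFunc (ZMod p)) (Polynomial.C c)) =
                algebraMap (ZMod p) (Om p) c :=
              (IsScalarTower.algebraMap_apply (ZMod p) (RatFunc (ZMod p)) (Om p) c).symm
            change (γ : Om p ≃ₐ[ZMod p] Om p) (algebraMap (RatFunc (ZMod p)) (Om p)
              (algebraMap (Polynomial (ZMod p)) (RatFunc (ZMod p)) (Polynomial.C c))) =
              algebraMap (RatFunc (ZMod p)) (Om p)
                (algebraMap (Polynomial (ZMod p)) (RatFunc (ZMod p)) (Polynomial.C c))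
            rw [h3]
            exact (γ : Om p ≃ₐ[ZMod p] Om p).commutes c
          · change (γ : Om p ≃ₐ[ZMod p] Om p) (algebraMap (RatFunc (ZMod p)) (Om p)
              (algebraMap (Polynomial (ZMod p)) (RatFunc (ZMod p)) Polynomial.X)) =
              algebraMap (RatFunc (ZMod p)) (Om p)
                (algebraMap (Polynomial (ZMod p)) (RatFunc (ZMod p)) Polynomial.X)
            rw [RatFunc.algebraMap_X]
            exact mem_Gx.1 γ.2
        exact congrArg (fun g : Polynomial (ZMod p) →+* Om p => g P) h2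
      exact congrArg (fun g : RatFunc (ZMod p) →+* Om p => g r) h1
    refine ⟨AlgEquiv.ofRingEquiv (f := f) hf, ?_⟩
    exact Subtype.ext (AlgEquiv.ext fun _ => rfl)

/-- The absolute Galois group of `𝔽_p(X)`. -/
noncomputable def galEquiv : (Om p ≃ₐ[RatFunc (ZMod p)] Om p) ≃* Gx p (xx p) :=
  MulEquiv.ofBijective (galHom p) (galHom_bijective p)

variable {p}

/-- **Embedding problems over `𝔽_p(X)`** and homomorphisms of finite level. -/
theorem solves_of_hom {E G : Type} [Group E] [Group G] (f : E →* G)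
    (h : ∀ ψ : Gx p (xx p) →* G, FinLevel ψ → Function.Surjective ψ →
      ∃ Ψ : Gx p (xx p) →* E, FinLevel Ψ ∧ Function.Surjective Ψ ∧ ∀ γ, f (Ψ γ) = ψ γ) :
    MP7fE.Solves (RatFunc (ZMod p)) f := by
  intro M _ _ _ _ e
  let K := RatFunc (ZMod p)
  let j : M →ₐ[RatFunc (ZMod p)] Om p := IsSepClosed.lift
  let _ : Algebra M (Om p) := j.toRingHom.toAlgebra
  have htow : IsScalarTower (RatFunc (ZMod p)) M (Om p) :=
    IsScalarTower.of_algebraMap_eq fun a => (j.commutes a).symm
  let r : (Om p ≃ₐ[RatFunc (ZMod p)] Om p) →* (M ≃ₐ[RatFunc (ZMod p)] M) :=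
    AlgEquiv.restrictNormalHom M
  have hr : ∀ γ m, j (r γ m) = γ (j m) := fun γ m => AlgEquiv.restrictNormal_commutes γ M m
  have hrs : Function.Surjective r := AlgEquiv.restrictNormalHom_surjective (Om p)
  let ψ : Gx p (xx p) →* G := (e.toMonoidHom.comp r).comp (galEquiv p).symm.toMonoidHom
  have hψ : ∀ γ, ψ (galHom p γ) = e (r γ) := by
    intro γ
    have h1 : (galEquiv p).symm (galHom p γ) = γ := (galEquiv p).symm_apply_apply γ
    change e (r ((galEquiv p).symm (galHom p γ))) = _
    rw [h1]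
  have hψf : FinLevel ψ := by
    classical
    let b := Module.finBasis (RatFunc (ZMod p)) M
    refine ⟨Finset.univ.image fun i => j (b i), fun γ hγ => ?_⟩
    obtain ⟨γ, rfl⟩ := (galHom_bijective p).2 γ
    rw [hψ]
    have h1 : r γ = 1 := by
      have h2 : (r γ : M ≃ₐ[RatFunc (ZMod p)] M).toLinearMap = LinearMap.id := by
        refine b.ext fun i => ?_
        apply j.injective
        change j (r γ (b i)) = j (b i)
        rw [hr]
        exact hγ _ (Finset.mem_image_of_mem _ (Finset.mem_univ i))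
      refine AlgEquiv.ext fun m => ?_
      exact LinearMap.congr_fun h2 m
    rw [h1, map_one]
  have hψs : Function.Surjective ψ := by
    intro g
    obtain ⟨γ, hγ⟩ := hrs (e.symm g)
    exact ⟨galHom p γ, by rw [hψ, hγ, MulEquiv.apply_symm_apply]⟩
  obtain ⟨Ψ, ⟨S, hS⟩, hΨs, hΨ⟩ := h ψ hψf hψs
  obtain ⟨L, hL1, hL2, e', he', hL3⟩ := gal_level (Ψ.comp (galHom p))
    (hΨs.comp (galHom_bijective p).2) S (fun γ hγ => hS (galHom p γ) hγ)
  have hj : ∀ m : M, j m ∈ L := by
    intro m
    refine hL3 _ fun γ hγ => ?_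
    have h1 : ψ (galHom p γ) = 1 := by
      rw [← hΨ]
      have h2 : Ψ (galHom p γ) = 1 := hγ
      rw [h2, map_one]
    rw [hψ] at h1
    have h2 : r γ = 1 := (MulEquiv.map_eq_one_iff e).1 h1
    rw [← hr, h2]
    rfl
  refine ⟨L, inferInstance, inferInstance, hL1, hL2, e',
    j.toRingHom.codRestrict L.toSubfield.toSubring hj, ?_, ?_⟩
  · intro a
    apply Subtype.ext
    exact j.commutes a
  · intro σ m
    obtain ⟨γ, rfl⟩ := AlgEquiv.restrictNormalHom_surjective (F := RatFunc (ZMod p)) (K₁ := L) (Om p) σ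
    apply Subtype.ext
    have h1 : ((AlgEquiv.restrictNormalHom L γ (⟨j m, hj m⟩ : L) : L) : Om p) = γ (j m) :=
      AlgEquiv.restrictNormal_commutes γ L ⟨j m, hj m⟩
    have h2 : f (e' (AlgEquiv.restrictNormalHom L γ)) = e (r γ) := by
      rw [he']
      change f (Ψ (galHom p γ)) = _
      rw [hΨ, hψ]
    rw [h2, MulEquiv.symm_apply_apply]
    change ((AlgEquiv.restrictNormalHom L γ (⟨j m, hj m⟩ : L) : L) : Om p) = j (r γ m)
    rw [h1, hr]

end

end MP7Z
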