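import Pool.Agent.Lib.MP_7f581e_Z.LieG.ArO
import Pool.Agent.Lib.MP_7f581e_Z.LieG.GrpI
import Pool.Agent.Lib.MP_7f581e_Z.LieG.SolH

/-!
# Embedding problems over `𝔽_p(X)` with kernel a power of a simple group of Lie type

No condition on the given extension, but the group `A` of symmetries of the datum has to act
faithfully on `S` modulo inner automorphisms.
-/

set_option autoImplicit false
set_option linter.unusedSectionVars false

namespace MP7Z

/-- The simple groups of Lie type in characteristic `p` with a datum such that `A` acts faithfully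
on `S` modulo inner automorphisms. -/
def IsLieTypeI (p : ℕ) [Fact p.Prime] (S : Type) [Group S] : Prop :=
  IsSimpleGroup S ∧ ∃ (D : LieDatum p) (π : D.Φ.pts →* S), Function.Surjective π ∧
    (∀ σ : S ≃* S, ∃ (s : S) (a : D.A), ∀ b,
      σ (π b) = s * π (D.Φ.act D.α D.stab D.comm a b) * s⁻¹) ∧
    ∀ (s : S) (a : D.A), (∀ b, π (D.Φ.act D.α D.stab D.comm a b) = s * π b * s⁻¹) → a = 1

namespace LG

open TensorProduct MP7fS MP7fU LieGM

/-- Embedding problems over `𝔽_p(X)` whose kernel is a power of a simple group of Lie type. -/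
theorem solves_lieTypeI (p : ℕ) [Fact p.Prime] {S : Type} [Group S] [Finite S]
    (hSS : IsLieTypeI p S) (κ : Type) [Finite κ] {G E : Type} [Group G] [Group E] [Finite E]
    (f : E →* G) (hf : Function.Surjective f) (θ : f.ker ≃* (κ → S)) :
    MP7fE.Solves (RatFunc (ZMod p)) f := by
  obtain ⟨hsim, D, π, hπ, hσ, hinj⟩ := hSS
  refine solves_of_hom f fun ψ hψf hψs => ?_
  obtain ⟨Q, _, _, f₂, i, w, hf₂, hfi, hconj⟩ :=
    grp_bij D.Φ.pts S D.A D.perf (D.Φ.act D.α D.stab D.comm) π hπ hσ hinj κ G E f hf θ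
  let g₂ : Q ≃* G := MulEquiv.ofBijective f₂ hf₂
  let ψ₂ : Gx p (xx p) →* Q := g₂.symm.toMonoidHom.comp ψ
  have hψ₂ : ∀ γ, f₂ (ψ₂ γ) = ψ γ := fun γ => g₂.apply_symm_apply (ψ γ)
  have hψ₂f : FinLevel ψ₂ := by
    obtain ⟨T, hT⟩ := hψf
    refine ⟨T, fun γ hγ => ?_⟩
    change g₂.symm (ψ γ) = 1
    rw [hT γ hγ, map_one]
  have hψ₂s : Function.Surjective ψ₂ := g₂.symm.surjective.comp hψs
  classical
  have : Fintype κ := Fintype.ofFinite κ
  have : Fintype Q := Fintype.ofFinite Q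
  -- Lang's theorem
  have hL : Lang D.Φ := lg_langW p D.B D.H (Fin D.N) D.P D.closure D.Φ D.e 1 Nat.one_pos D.root
  have hLd : ∀ d, 0 < d → Lang (frEnd D.H d) := fun d hd =>
    lg_langW p D.B D.H (Fin D.N) D.P D.closure (frEnd D.H d) 1 d hd (frEnd_root D.H d)
  -- the power
  obtain ⟨hA1, hA2, hA3, hA4⟩ := tPowA p D.B D.H D.Φ κ
  obtain ⟨hA5, hA6⟩ := hA4 D.A D.α
  have hW := word_comp (tPowW p D.B D.H D.A D.α (Fin D.N) D.P D.β (word_datum D) κ) w
  obtain ⟨hperf, ε, hε⟩ := tPowP p D.B D.H D.Φ κ D.perf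
  have hst : (powG κ D.H).Stable (wrAct κ D.α) := hA5 D.stab
  have hcm : (powE κ D.Φ).Comm (wrAct κ D.α) := hA6 D.comm
  obtain ⟨Ψ, hΨf, hΨs, hΨr⟩ := lang_torsor p (κ → D.B) (powG κ D.H) (powE κ D.Φ) D.e
    (hA3 D.e 1 D.root) (hA1 hL) (fun d hd => hA2 d (hLd d hd)) Q ((wrAct κ D.α).comp w)
    (stable_comp hst w) (comm_comp hcm w) (κ × Fin D.N) (powP κ D.P) ((wrMat κ D.β).comp w) hW
    (Om p) (xx p) (isStage_xx p) ψ₂ hψ₂f hψ₂s
  -- the homomorphism onto `E`
  let f₁ : (powE κ D.Φ).pts →* E :=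
    { toFun := fun b => ((θ.symm fun k => π (ε b k) : f.ker) : E)
      map_one' := by
        have h : (fun k => π (ε 1 k)) = (1 : κ → S) := by
          funext k
          rw [map_one, Pi.one_apply, map_one, Pi.one_apply]
        rw [h, map_one]
        rfl
      map_mul' := by
        intro a b
        have h : (fun k => π (ε (a * b) k)) = (fun k => π (ε a k)) * fun k => π (ε b k) := by
          funext k
          rw [map_mul, Pi.mul_apply, map_mul, Pi.mul_apply]
        rw [h, map_mul]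
        rfl }
  have hact : ∀ (q : Q) (b : (powE κ D.Φ).pts),
      f₁ ((powE κ D.Φ).act ((wrAct κ D.α).comp w) (stable_comp hst w) (comm_comp hcm w) q b) =
        i q * f₁ b * (i q)⁻¹ := by
    intro q b
    rw [act_comp]
    change ((θ.symm fun k => π (ε ((powE κ D.Φ).act (wrAct κ D.α) hst hcm (w q) b) k) : f.ker) :
      E) = i q * ((θ.symm fun k => π (ε b k) : f.ker) : E) * (i q)⁻¹
    rw [hconj q (ε b)]
    have h : (fun k => π (ε ((powE κ D.Φ).act (wrAct κ D.α) hst hcm (w q) b) k)) =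
        fun k => π (D.Φ.act D.α D.stab D.comm ((w q).left k) (ε b ((w q).right.symm k))) := by
      funext k
      rw [hε D.A D.α D.stab D.comm hst hcm (w q) b k]
    rw [h]
  let F : (powE κ D.Φ).pts ⋊[(powE κ D.Φ).act ((wrAct κ D.α).comp w) (stable_comp hst w)
      (comm_comp hcm w)] Q →* E := SemidirectProduct.lift f₁ i (by
    intro q
    ext b
    exact hact q b)
  have hF : Function.Surjective F := by
    intro a
    obtain ⟨q, hq⟩ := hf₂.2 (f a)
    have hk : a * (i q)⁻¹ ∈ f.ker := by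
      rw [MonoidHom.mem_ker, map_mul, map_inv, hfi, hq, mul_inv_cancel]
    choose b hb using fun k => hπ (θ ⟨_, hk⟩ k)
    refine ⟨⟨ε.symm b, q⟩, ?_⟩
    change ((θ.symm fun k => π (ε (ε.symm b) k) : f.ker) : E) * i q = a
    have h : (fun k => π (ε (ε.symm b) k)) = θ ⟨_, hk⟩ := by
      funext k
      rw [MulEquiv.apply_symm_apply, hb]
    rw [h, MulEquiv.symm_apply_apply]
    exact inv_mul_cancel_right a (i q)
  refine ⟨F.comp Ψ, ?_, hF.comp hΨs, ?_⟩
  · obtain ⟨T, hT⟩ := hΨf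
    refine ⟨T, fun γ hγ => ?_⟩
    change F (Ψ γ) = 1
    rw [hT γ hγ, map_one]
  · intro γ
    change f (((θ.symm fun k => π (ε (Ψ γ).left k) : f.ker) : E) * i (Ψ γ).right) = ψ γ
    rw [map_mul, MonoidHom.mem_ker.1 (θ.symm fun k => π (ε (Ψ γ).left k) : f.ker).2, one_mul, hfi,
      hΨr, hψ₂]

end LG

end MP7Z
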