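import Pool.Agent.Lib.MP_7f581e_Z.LieG.Spec
import Pool.Agent.Lib.MP_7f581e_Z.Lie.Clo

/-!
# LieG/CloW: values of elements of `H(Ω)` and `Φ`
-/

set_option autoImplicit false

namespace MP7Z

namespace LG

open TensorProduct MP7fS

/-- Units whose coordinates, and those of the inverse, come from a subring. -/
theorem CloWM.unit {p : ℕ} [Fact p.Prime] {B : Type} [Ring B] [Finite B] [Algebra (ZMod p) B]
    {R Ω : Type} [CommRing R] [Algebra (ZMod p) R] [CommRing Ω]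
    [Algebra (ZMod p) Ω] (inc : R →+* Ω)
    (hinc : Function.Injective inc) (w : (Ω ⊗[ZMod p] B)ˣ)
    (f g : Fin (Module.finrank (ZMod p) B) → R)
    (hf : ∀ i, inc (f i) = crd (w : Ω ⊗[ZMod p] B) i)
    (hg : ∀ i, inc (g i) = crd ((w⁻¹ : (Ω ⊗[ZMod p] B)ˣ) : Ω ⊗[ZMod p] B) i) :
    ∃ v : (R ⊗[ZMod p] B)ˣ, tu inc (RingHom.id B) v = w := by
  have h1 : tmap (p := p) inc (RingHom.id B) (vec (Module.finBasis (ZMod p) B) f) =
      (w : Ω ⊗[ZMod p] B) := by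
    apply crd_ext
    intro i
    rw [crd_tmap, crd_vec, hf]
  have h2 : tmap (p := p) inc (RingHom.id B) (vec (Module.finBasis (ZMod p) B) g) =
      ((w⁻¹ : (Ω ⊗[ZMod p] B)ˣ) : Ω ⊗[ZMod p] B) := by
    apply crd_ext
    intro i
    rw [crd_tmap, crd_vec, hg]
  have hinj := tmap_injective (p := p) (B := B) inc hinc
  refine ⟨⟨vec (Module.finBasis (ZMod p) B) f, vec (Module.finBasis (ZMod p) B) g, ?_, ?_⟩,
    Units.ext h1⟩
  · apply hinj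
    rw [map_mul, map_one, h1, h2, Units.mul_inv]
  · apply hinj
    rw [map_mul, map_one, h1, h2, Units.inv_mul]

theorem CloWM.main {p : ℕ} [Fact p.Prime] {B : Type} [Ring B] [Finite B] [Algebra (ZMod p) B]
    {𝒢 : LangGp p B} (Φ : 𝒢.End) {R Ω k : Type} [CommRing R] [CharP R p] [Algebra (ZMod p) R]
    [CommRing Ω] [CharP Ω p] [Algebra (ZMod p) Ω] [CommRing k] [CharP k p] [Algebra (ZMod p) k]
    (inc : R →+* Ω) (hinc : Function.Injective inc) (res : R →+* k)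
    (w : (Ω ⊗[ZMod p] B)ˣ) (u : (k ⊗[ZMod p] B)ˣ) (hw : w ∈ 𝒢.H Ω)
    (f f' : Fin (Module.finrank (ZMod p) B) → R)
    (hf : ∀ i, inc (f i) = crd (w : Ω ⊗[ZMod p] B) i)
    (hf' : ∀ i, inc (f' i) = crd ((w⁻¹ : (Ω ⊗[ZMod p] B)ˣ) : Ω ⊗[ZMod p] B) i)
    (hr : ∀ i, res (f i) = crd (u : k ⊗[ZMod p] B) i) :
    u ∈ 𝒢.H k ∧ ∀ i, ∃ r : R, inc r = crd (Φ.φ Ω w : Ω ⊗[ZMod p] B) i ∧
      res r = crd (Φ.φ k u : k ⊗[ZMod p] B) i := by
  obtain ⟨v, hv⟩ := CloWM.unit (p := p) (B := B) inc hinc w f f' hf hf'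
  have hvH : v ∈ 𝒢.H R := 𝒢.inj R Ω inc hinc v (by rw [hv]; exact hw)
  have hu : tu res (RingHom.id B) v = u := by
    apply Units.ext
    apply crd_ext
    intro i
    rw [crd_tu, ← hr i]
    congr 1
    apply hinc
    rw [hf, ← hv, crd_tu]
  refine ⟨by rw [← hu]; exact 𝒢.map R k res v hvH, fun i => ?_⟩
  refine ⟨crd ((Φ.φ R v : (R ⊗[ZMod p] B)ˣ) : R ⊗[ZMod p] B) i, ?_, ?_⟩
  · rw [← hv, Φ.nat R Ω inc v hvH, crd_tu]
  · rw [← hu, Φ.nat R k res v hvH, crd_tu]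

theorem tCloW (hRes : ResStmt) : CloWStmt := by
  intro p _ B _ _ _ 𝒢 Φ Ω _ _ _ _ x hx V hV w u hw hwV hwV' hcong
  obtain ⟨hR1, -, hR3, -⟩ := hRes p Ω x hx V hV
  obtain ⟨res, hres⟩ := Clo_res hR1 hR3
  let _ : Algebra (ZMod p) V := ((algebraMap (ZMod p) Ω).codRestrict V.toSubring (by
    intro c
    rw [← ZMod.natCast_zmod_val c, map_natCast]
    exact natCast_mem _ _)).toAlgebra
  have _ : CharP V p := charP_of_injective_algebraMap (algebraMap (ZMod p) V).injective p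
  obtain ⟨h1, h2⟩ := CloWM.main Φ V.subtype Subtype.val_injective res w u hw
    (fun i => ⟨crd (w : Ω ⊗[ZMod p] B) i, hwV i⟩)
    (fun i => ⟨crd ((w⁻¹ : (Ω ⊗[ZMod p] B)ˣ) : Ω ⊗[ZMod p] B) i, hwV' i⟩)
    (fun i => rfl) (fun i => rfl) (fun i => (hres _ _ (hcong i)).symm)
  refine ⟨h1, fun i => ?_⟩
  obtain ⟨r, hr, hr'⟩ := h2 i
  rw [← hr, ← hr']
  obtain ⟨c, hc, hc1, -⟩ := hR3 _ r.2
  rw [← hres r ⟨c, hc⟩ hc1]
  exact hc1

end LG

end MP7Z
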