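import Pool.Agent.Lib.MP_7f581e_Z.LieG.Spec
import Pool.Agent.Lib.MP_7f581e_Z.Types.LGL
import Pool.Agent.Lib.MP_7f581e_Z.Types.Sem1
import Pool.Agent.Lib.MP_7f581e_Z.Types.Sem2

/-!
# Descent of solutions of semilinear systems to separably closed fields
-/

set_option autoImplicit false

namespace MP7Z

namespace LG

open Matrix

/-- Elements fixed by a power of the Frobenius come from a separably closed subfield. -/
theorem des_fixed {p : ℕ} [Fact p.Prime] {k Λ : Type} [Field k] [Field Λ] [CharP k p]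
    [IsSepClosed k] (f : k →+* Λ) {d : ℕ} (hd : 0 < d) {w : Λ} (hw : w ^ (p ^ d) = w) :
    ∃ c, f c = w := by
  have hp : 1 < p := (Fact.out : p.Prime).one_lt
  have hsep : (Polynomial.X ^ (p ^ d) - Polynomial.X : Polynomial k).Separable :=
    galois_poly_separable p _ (dvd_pow_self p (by omega))
  have hne : (Polynomial.X ^ (p ^ d) - Polynomial.X : Polynomial k) ≠ 0 :=
    FiniteField.X_pow_card_pow_sub_X_ne_zero k (by omega) hp
  have h1 := (IsSepClosed.splits_of_separable _ hsep).mem_range_of_isRoot hne (i := f) (x := w)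
    (by
      rw [Polynomial.IsRoot, Polynomial.eval_map, Polynomial.eval₂_sub, Polynomial.eval₂_X_pow,
        Polynomial.eval₂_X, hw, sub_self])
  exact h1

theorem tDes : DesStmt := by
  intro p _ k Λ _ _ _ _ _ f n d hd L v hv
  obtain ⟨M, -, hM⟩ := tyLGL (tySem2 tySem1) p (Fin n) k d hd L trivial
  -- the inverse matrix
  have h1 : GeneralLinearGroup.map (iterateFrobenius k p d) M⁻¹ * L = M⁻¹ := by
    rw [map_inv, hM, _root_.mul_inv_rev, inv_mul_cancel_right]
  have h2 : ∀ i l, ∑ j, ((M⁻¹ : GL (Fin n) k) : Matrix (Fin n) (Fin n) k) i j ^ (p ^ d) *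
      (L : Matrix (Fin n) (Fin n) k) j l =
      ((M⁻¹ : GL (Fin n) k) : Matrix (Fin n) (Fin n) k) i l := by
    intro i l
    have h3 := congrFun (congrFun (congrArg (fun g : GL (Fin n) k =>
      (g : Matrix (Fin n) (Fin n) k)) h1) i) l
    simp only [Units.val_mul, Matrix.mul_apply] at h3
    rw [← h3]
    refine Finset.sum_congr rfl fun j _ => ?_
    congr 1
  have h4 : ∀ i l, ∑ j, (M : Matrix (Fin n) (Fin n) k) i j *
      ((M⁻¹ : GL (Fin n) k) : Matrix (Fin n) (Fin n) k) j l = if i = l then 1 else 0 := by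
    intro i l
    have h3 : (M : Matrix (Fin n) (Fin n) k) *
        ((M⁻¹ : GL (Fin n) k) : Matrix (Fin n) (Fin n) k) = 1 := Units.mul_inv M
    rw [← Matrix.mul_apply, h3, Matrix.one_apply]
  -- the vector `w = M⁻¹ v`
  set w : Fin n → Λ := fun i => ∑ j, f (((M⁻¹ : GL (Fin n) k) : Matrix (Fin n) (Fin n) k) i j) *
    v j with hwdef
  have hw : ∀ i, w i ^ (p ^ d) = w i := by
    intro i
    have e1 : w i ^ (p ^ d) = ∑ j, f (((M⁻¹ : GL (Fin n) k) : Matrix (Fin n) (Fin n) k) i j) ^
        (p ^ d) * ∑ l, f ((L : Matrix (Fin n) (Fin n) k) j l) * v l := by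
      rw [hwdef]
      change (∑ j, f (((M⁻¹ : GL (Fin n) k) : Matrix (Fin n) (Fin n) k) i j) * v j) ^ (p ^ d) = _
      rw [sum_pow_char_pow]
      refine Finset.sum_congr rfl fun j _ => ?_
      rw [mul_pow, hv j]
    rw [e1]
    calc ∑ j, f (((M⁻¹ : GL (Fin n) k) : Matrix (Fin n) (Fin n) k) i j) ^ (p ^ d) *
          ∑ l, f ((L : Matrix (Fin n) (Fin n) k) j l) * v l
        = ∑ l, ∑ j, f (((M⁻¹ : GL (Fin n) k) : Matrix (Fin n) (Fin n) k) i j) ^ (p ^ d) *
          (f ((L : Matrix (Fin n) (Fin n) k) j l) * v l) := by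
          rw [Finset.sum_comm]
          refine Finset.sum_congr rfl fun j _ => ?_
          rw [Finset.mul_sum]
      _ = ∑ l, f (((M⁻¹ : GL (Fin n) k) : Matrix (Fin n) (Fin n) k) i l) * v l := by
          refine Finset.sum_congr rfl fun l _ => ?_
          rw [← h2 i l, map_sum, Finset.sum_mul]
          refine Finset.sum_congr rfl fun j _ => ?_
          rw [map_mul, map_pow, mul_assoc]
      _ = w i := rfl
  -- back
  have hc : ∀ i, ∃ c, f c = w i := fun i => des_fixed f hd (hw i)
  choose c hc using hc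
  intro i
  refine ⟨∑ j, (M : Matrix (Fin n) (Fin n) k) i j * c j, ?_⟩
  rw [map_sum]
  calc ∑ j, f ((M : Matrix (Fin n) (Fin n) k) i j * c j)
      = ∑ j, ∑ l, f ((M : Matrix (Fin n) (Fin n) k) i j) *
        (f (((M⁻¹ : GL (Fin n) k) : Matrix (Fin n) (Fin n) k) j l) * v l) := by
        refine Finset.sum_congr rfl fun j _ => ?_
        rw [map_mul, hc j, hwdef, Finset.mul_sum]
    _ = ∑ l, f (∑ j, (M : Matrix (Fin n) (Fin n) k) i j *
        ((M⁻¹ : GL (Fin n) k) : Matrix (Fin n) (Fin n) k) j l) * v l := by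
        rw [Finset.sum_comm]
        refine Finset.sum_congr rfl fun l _ => ?_
        rw [map_sum, Finset.sum_mul]
        refine Finset.sum_congr rfl fun j _ => ?_
        rw [map_mul, mul_assoc]
    _ = v i := by
        rw [Finset.sum_eq_single i]
        · rw [h4, if_pos rfl, map_one, one_mul]
        · intro l _ hl
          rw [h4, if_neg (Ne.symm hl), map_zero, zero_mul]
        · intro h
          exact absurd (Finset.mem_univ _) h

end LG

end MP7Z
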