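import Pool.Agent.Lib.MP_7f581e_Z.LieG.Spec

/-!
# LieG/GelW: the element `g` with prescribed values
-/

set_option autoImplicit false

namespace MP7Z

namespace LG

open TensorProduct MP7fS

theorem tGelW (hCst : CstStmt) (hFam : FamStmt) (hDecF : DecFStmt) (hLift : LiftAllWStmt) :
    GelWStmt := by
  intro p _ B _ _ _ 𝒢 Φ hLang Q _ _ ρ ι _ _ P β hW Ω _ _ _ _ x hst ψ hfin hsurj
  have : IsAlgClosed (Cst p Ω) := hCst p Ω x hst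
  have : Finite Φ.pts := inferInstance
  let e := Finite.equivFin Φ.pts
  obtain ⟨V, hV⟩ := hFam p Ω x hst 1 one_pos Q ψ hfin (Nat.card Φ.pts)
  have hD := fun j => hDecF p Ω x hst (V j) (hV.ne_top j) (hV.mem j)
  choose d hd0 hγ hfix _ _ using hD
  choose γ hγmem hγc using hγ
  have hcm : ∀ j, cstu (Cst p Ω) ((e.symm j : Φ.pts) : Bˣ) ∈ 𝒢.H (Cst p Ω) ∧
      Φ.φ (Cst p Ω) (cstu (Cst p Ω) ((e.symm j : Φ.pts) : Bˣ)) =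
        cstu (Cst p Ω) ((e.symm j : Φ.pts) : Bˣ) := fun j => cstu_mem Φ (e.symm j).2
  have hz : ∀ j, ∃ z ∈ 𝒢.H (Cst p Ω), fru (d j) (Cst p Ω) z =
      z * cstu (Cst p Ω) ((e.symm j : Φ.pts) : Bˣ) := by
    intro j
    obtain ⟨y, hy, hy2⟩ := hLang (d j) (hd0 j) (Cst p Ω)
      (cstu (Cst p Ω) ((e.symm j : Φ.pts) : Bˣ))⁻¹ (inv_mem (hcm j).1)
    refine ⟨y⁻¹, inv_mem hy, ?_⟩
    have h1 : fru (d j) (Cst p Ω) y = (cstu (Cst p Ω) ((e.symm j : Φ.pts) : Bˣ))⁻¹ * y := hy2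
    rw [map_inv, h1, mul_inv_rev, inv_inv]
  choose z hzH hzf using hz
  have hgH : ∀ j, Φ.φ (Cst p Ω) (z j) * (z j)⁻¹ ∈ 𝒢.H (Cst p Ω) := fun j =>
    mul_mem (Φ.mem _ _ (hzH j)) (inv_mem (hzH j))
  have hgf : ∀ j, fru (d j) (Cst p Ω) (Φ.φ (Cst p Ω) (z j) * (z j)⁻¹) =
      Φ.φ (Cst p Ω) (z j) * (z j)⁻¹ := by
    intro j
    rw [map_mul, map_inv, ← phi_fru Φ (d j) (hzH j), hzf, Φ.mul _ _ (hzH j) _ (hcm j).1,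
      (hcm j).2, mul_inv_rev]
    group
  obtain ⟨w, hwH, hwI, hwi, hwi', hwc⟩ := hLift p B 𝒢 Q ρ ι P β hW Ω x hst ψ hsurj
    1 (Nat.card Φ.pts) V hV d hd0 hfix
    (fun j => Φ.φ (Cst p Ω) (z j) * (z j)⁻¹) hgH hgf
  refine ⟨w, hwH, hwI, hwi, hwi', fun h hh => ?_⟩
  refine ⟨V (e ⟨h, hh⟩), hV.ne_top _, hV.mem _, ⟨γ (e ⟨h, hh⟩), (hγmem _).1⟩, (hγmem _).2,
    hV.dec _ _ (hγmem _).2, d (e ⟨h, hh⟩), hd0 _, hγc _, z (e ⟨h, hh⟩), hzH _, ?_, hwc _⟩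
  have h1 := hzf (e ⟨h, hh⟩)
  rw [Equiv.symm_apply_apply] at h1
  exact h1

end LG

end MP7Z
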