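import Pool.Agent.Lib.MP_7f581e_Z.LieG.Spec

/-!
# Generation, in terms of elements of a big field fixed by a power of the Frobenius
-/

set_option autoImplicit false
set_option linter.unusedSectionVars false

namespace MP7Z

namespace LG

open TensorProduct MP7fS MP7fU

namespace GenFM

/-- The subfield of the elements fixed by the `d`-th power of the Frobenius. -/
def fixF (p : ℕ) [Fact p.Prime] (k : Type) [Field k] [CharP k p] (d : ℕ) : Subfield k :=
  RingHom.eqLocusField (iterateFrobenius k p d) (RingHom.id k)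

theorem mem_fixF {p : ℕ} [Fact p.Prime] {k : Type} [Field k] [CharP k p] {d : ℕ} {c : k} :
    c ∈ fixF p k d ↔ c ^ (p ^ d) = c := by
  change iterateFrobenius k p d c = c ↔ _
  rw [iterateFrobenius_def]

theorem finite_fixF (p : ℕ) [Fact p.Prime] (k : Type) [Field k] [CharP k p] (d : ℕ)
    (hd : 0 < d) : Finite (fixF p k d) := by
  have h1 : ((Polynomial.X : Polynomial k) ^ (p ^ d) - Polynomial.X) ≠ 0 :=
    FiniteField.X_pow_card_pow_sub_X_ne_zero k hd.ne' (Fact.out : p.Prime).one_lt
  have h2 := Polynomial.finite_setOfPred_isRoot h1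
  refine Set.Finite.to_subtype (Set.Finite.subset h2 ?_)
  intro c hc
  have h3 : c ^ (p ^ d) = c := mem_fixF.1 hc
  change Polynomial.eval c _ = 0
  rw [Polynomial.eval_sub, Polynomial.eval_pow, Polynomial.eval_X, h3, sub_self]

end GenFM

open GenFM

/-- Generation by values at fixed elements of a power of the Frobenius. -/
theorem tGenF : GenFStmt := by
  intro p _ B _ _ _ 𝒢 ι P hgen k _ _ _ d hd x hx hfx
  have : Finite (fixF p k d) := finite_fixF p k d hd
  have : CharP (fixF p k d) p :=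
    (RingHom.charP_iff (fixF p k d).subtype (fixF p k d).subtype_injective p).2 inferInstance
  let _ : Algebra (ZMod p) (fixF p k d) := ZMod.algebra _ p
  have hco : ∀ i, crd (x : k ⊗[ZMod p] B) i ^ (p ^ d) = crd (x : k ⊗[ZMod p] B) i := by
    intro i
    have h1 := congrArg (fun y : (k ⊗[ZMod p] B)ˣ => crd (y : k ⊗[ZMod p] B) i) hfx
    change crd ((tu (iterateFrobenius k p d) (RingHom.id B) x : (k ⊗[ZMod p] B)ˣ) :
      k ⊗[ZMod p] B) i = _ at h1
    rw [crd_tu, iterateFrobenius_def] at h1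
    exact h1
  obtain ⟨x₀, hx₀⟩ := exists_unit (fixF p k d).subtype x
    (fun i => ⟨⟨crd (x : k ⊗[ZMod p] B) i, mem_fixF.2 (hco i)⟩, rfl⟩)
  have hx₁ : x₀ ∈ 𝒢.H (fixF p k d) := by
    apply 𝒢.inj (fixF p k d) k (fixF p k d).subtype (fixF p k d).subtype_injective
    rw [hx₀]
    exact hx
  have h2 := Subgroup.mem_map_of_mem (tu (fixF p k d).subtype (RingHom.id B))
    (hgen (fixF p k d) x₀ hx₁)
  rw [hx₀, MonoidHom.map_closure] at h2
  refine Subgroup.closure_mono ?_ h2
  rintro w ⟨w', ⟨t, rfl⟩, rfl⟩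
  refine ⟨fun i => ((t i : fixF p k d) : k), fun i => mem_fixF.1 (t i).2, ?_⟩
  exact tu_valP P (fixF p k d).subtype t

end LG

end MP7Z
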