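import Pool.Agent.Lib.MP_7f581e_Z.LieG.Spec

/-!
# Finite groups of Lie type: extension of the isomorphism of two generic points
-/

set_option autoImplicit false

namespace MP7Z

namespace LG

namespace GptM

open MvPolynomial

private theorem exists_ext {F E M : Type} [Field F] [Field E] [Algebra F E]
    [Algebra.IsAlgebraic F E] [Field M] [IsAlgClosed M] (θ₀ : F →+* M) :
    ∃ θ : E →+* M, ∀ x, θ (algebraMap F E x) = θ₀ x := by
  let _ := θ₀.toAlgebra
  let θ : E →ₐ[F] M := IsAlgClosed.lift
  exact ⟨θ, fun x => θ.commutes x⟩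

open scoped IntermediateField.algebraAdjoinAdjoin in
private theorem exists_hom {k Λ : Type} [Field k] [Field Λ] [Algebra k Λ] {n : ℕ}
    (a b : Fin n → Λ)
    (h : ∀ f : MvPolynomial (Fin n) k, aeval a f = 0 ↔ aeval b f = 0) :
    ∃ θ₀ : IntermediateField.adjoin k (Set.range b) →ₐ[k] Λ,
      ∀ i (hi : b i ∈ IntermediateField.adjoin k (Set.range b)), θ₀ ⟨b i, hi⟩ = a i := by
  have hr : (aeval b : MvPolynomial (Fin n) k →ₐ[k] Λ).range =
      Algebra.adjoin k (Set.range b) := (Algebra.adjoin_range_eq_range_aeval k b).symm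
  let φ : MvPolynomial (Fin n) k →ₐ[k] Algebra.adjoin k (Set.range b) :=
    (aeval b : MvPolynomial (Fin n) k →ₐ[k] Λ).codRestrict _ fun x => by
      rw [← hr]
      exact ⟨x, rfl⟩
  have hφ : Function.Surjective φ := by
    rintro ⟨z, hz⟩
    rw [← hr] at hz
    obtain ⟨y, hy⟩ := hz
    exact ⟨y, Subtype.ext hy⟩
  have hker : ∀ x, φ x = 0 ↔ aeval a x = 0 := by
    intro x
    rw [h]
    exact ⟨fun h1 => congrArg Subtype.val h1, fun h1 => Subtype.ext h1⟩
  let ψ : Algebra.adjoin k (Set.range b) →ₐ[k] Λ :=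
    AlgHom.liftOfSurjective φ hφ (aeval a) fun x hx => (hker x).1 hx
  have hψ : ∀ x, ψ (φ x) = aeval a x := fun x => AlgHom.liftOfSurjective_apply ..
  have hinj : Function.Injective ψ := by
    rw [injective_iff_map_eq_zero]
    intro z hz
    obtain ⟨x, rfl⟩ := hφ z
    rw [hψ] at hz
    exact (hker x).2 hz
  let θ₀ : IntermediateField.adjoin k (Set.range b) →ₐ[k] Λ := IsFractionRing.liftAlgHom hinj
  refine ⟨θ₀, fun i hi => ?_⟩
  have h1 : (⟨b i, hi⟩ : IntermediateField.adjoin k (Set.range b)) =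
      algebraMap (Algebra.adjoin k (Set.range b)) (IntermediateField.adjoin k (Set.range b))
        (φ (X i)) := by
    apply Subtype.ext
    change b i = aeval b (X i)
    rw [aeval_X]
  rw [h1, IsFractionRing.liftAlgHom_apply]
  refine (IsFractionRing.lift_algebraMap _ _).trans ?_
  exact (hψ (X i)).trans (aeval_X a i)

end GptM

open MvPolynomial in
theorem tGpt : GptStmt := by
  intro k Λ _ _ _ _ n a b hab halg
  obtain ⟨θ₀, h0⟩ := GptM.exists_hom a b hab
  obtain ⟨θ, hθ⟩ := GptM.exists_ext
    (E := algebraicClosure (IntermediateField.adjoin k (Set.range b)) Λ) θ₀.toRingHom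
  have hb : ∀ i, b i ∈ IntermediateField.adjoin k (Set.range b) := fun i =>
    IntermediateField.subset_adjoin _ _ ⟨i, rfl⟩
  refine ⟨(algebraicClosure (IntermediateField.adjoin k (Set.range b)) Λ).restrictScalars k,
    { toRingHom := θ
      commutes' := fun c => ?_ }, fun i => mem_algebraicClosure_iff.2 (halg i), fun i => ?_,
    fun i => ?_⟩
  · exact (hθ (algebraMap k (IntermediateField.adjoin k (Set.range b)) c)).trans (θ₀.commutes c)
  · exact (algebraMap (IntermediateField.adjoin k (Set.range b))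
      (algebraicClosure (IntermediateField.adjoin k (Set.range b)) Λ) ⟨b i, hb i⟩).2
  · exact (hθ ⟨b i, hb i⟩).trans (h0 i (hb i))

end LG

end MP7Z
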