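import Pool.Agent.Lib.MP_7f581e_Z.LieG.Spec
import Pool.Agent.Lib.MP_7f581e_Z.Lie.L1
import Pool.Agent.Lib.MP_7f581e_ntL.Y6

/-!
# Step Lie for the simple groups of Lie type: group theory
-/

set_option autoImplicit false

namespace MP7Z

namespace LG

namespace GrpM

open MP7fW MP7fY

/-- The centre of a simple quotient of a perfect group is trivial. -/
theorem center_bot {M S : Type} [Group M] [Group S] [IsSimpleGroup S] (hM : commutator M = ⊤)
    (π : M →* S) (hπ : Function.Surjective π) : Subgroup.center S = ⊥ := by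
  have h1 : commutator S = ⊤ := by
    rw [commutator_def, ← Subgroup.map_top_of_surjective π hπ, ← Subgroup.map_commutator,
      ← commutator_def, hM]
  rcases (inferInstance : (Subgroup.center S).Normal).eq_bot_or_eq_top with h | h
  · exact h
  · exfalso
    have h2 : commutator S ≤ ⊥ := by
      rw [commutator_def, Subgroup.commutator_le]
      intro x _ y _
      rw [Subgroup.mem_bot, commutatorElement_eq_one_iff_mul_comm]
      have hy : y ∈ Subgroup.center S := by
        rw [h]
        exact Subgroup.mem_top _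
      exact Subgroup.mem_center_iff.mp hy x
    rw [h1] at h2
    obtain ⟨t, ht⟩ := exists_ne (1 : S)
    exact ht (Subgroup.mem_bot.1 (h2 (Subgroup.mem_top t)))

section

variable {M S A κ : Type} [Group M] [Group S] [Group A] (act : A →* MulAut M) (π : M →* S)

/-- The action of the wreath product. -/
def wa (w : WrG κ A) (b : κ → M) : κ → M := fun k => act (w.left k) (b (w.right.symm k))

theorem wa_one (b : κ → M) : wa act (1 : WrG κ A) b = b := by
  funext k
  change act 1 (b k) = b k
  rw [map_one]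
  rfl

theorem wa_mul (w w' : WrG κ A) (b : κ → M) : wa act (w * w') b = wa act w (wa act w' b) := by
  funext k
  change act (w.left k * w'.left (w.right.symm k)) (b (w'.right.symm (w.right.symm k))) =
    act (w.left k) (act (w'.left (w.right.symm k)) (b (w'.right.symm (w.right.symm k))))
  rw [map_mul]
  rfl

variable {G E : Type} [Group G] [Group E] (f : E →* G) (θ : f.ker ≃* (κ → S))

/-- The pairs. -/
def pairs : Subgroup (E × WrG κ A) where
  carrier := {x | ∀ b : κ → M, x.1 * nn f.ker θ (fun k => π (b k)) * x.1⁻¹ =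
    nn f.ker θ (fun k => π (wa act x.2 b k))}
  one_mem' := by
    intro b
    change (1 : E) * _ * (1 : E)⁻¹ = nn f.ker θ (fun k => π (wa act (1 : WrG κ A) b k))
    rw [wa_one, one_mul, inv_one, mul_one]
  mul_mem' := by
    rintro ⟨a, w⟩ ⟨a', w'⟩ h h' b
    have h1 := h' b
    have h2 := h (wa act w' b)
    change a' * _ * a'⁻¹ = nn f.ker θ (fun k => π (wa act w' b k)) at h1
    change a * _ * a⁻¹ = nn f.ker θ (fun k => π (wa act w (wa act w' b) k)) at h2
    change a * a' * _ * (a * a')⁻¹ = nn f.ker θ (fun k => π (wa act (w * w') b k))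
    rw [wa_mul, ← h2, ← h1]
    group
  inv_mem' := by
    rintro ⟨a, w⟩ h b
    have h1 := h (wa act w⁻¹ b)
    change a * nn f.ker θ (fun k => π (wa act w⁻¹ b k)) * a⁻¹ =
      nn f.ker θ (fun k => π (wa act w (wa act w⁻¹ b) k)) at h1
    rw [← wa_mul, mul_inv_cancel, wa_one] at h1
    change a⁻¹ * nn f.ker θ (fun k => π (b k)) * (a⁻¹)⁻¹ =
      nn f.ker θ (fun k => π (wa act w⁻¹ b k))
    rw [← h1]
    group

theorem mem_pairs {x : E × WrG κ A} : x ∈ pairs act π f θ ↔
    ∀ b : κ → M, x.1 * nn f.ker θ (fun k => π (b k)) * x.1⁻¹ =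
      nn f.ker θ (fun k => π (wa act x.2 b k)) := Iff.rfl

end

end GrpM

open MP7fW MP7fY GrpM

theorem tGrp : GrpStmt := by
  intro M S A _ _ _ _ _ _ hA hM act π hπ haut κ _ G E _ _ _ f hf θ
  classical
  have hz : Subgroup.center S = ⊥ := center_bot hM π hπ
  let Q := pairs act π f θ
  let i : Q →* E := (MonoidHom.fst E (WrG κ A)).comp Q.subtype
  let w : Q →* WrG κ A := (MonoidHom.snd E (WrG κ A)).comp Q.subtype
  let f₂ : Q →* G := f.comp i
  have hQ : ∀ (q : Q) (b : κ → M), i q * nn f.ker θ (fun k => π (b k)) * (i q)⁻¹ =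
      nn f.ker θ (fun k => π (wa act (w q) b k)) := fun q => (mem_pairs act π f θ).1 q.2
  refine ⟨Q, inferInstance, inferInstance, f₂, i, w, ?_, ?_, fun q => rfl, hQ⟩
  · -- surjectivity
    intro g
    obtain ⟨a, rfl⟩ := hf g
    obtain ⟨σ, φ, h⟩ := Pool.Agent.Lib.MP_7f581e_nt.AutAlt.aut_pi hz (Psi f.ker θ a)
    choose s x hx using fun k => haut (φ k)
    have h1 : ∀ b : κ → M, Psi f.ker θ a (fun k => π (b k)) =
        (fun j => s (σ.symm j)) *
          (fun k => π (wa act (⟨fun j => x (σ.symm j), σ⟩ : WrG κ A) b k)) *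
          (fun j => s (σ.symm j))⁻¹ := by
      intro b
      funext j
      obtain ⟨k, rfl⟩ := σ.surjective j
      rw [h, hx]
      change _ = s (σ.symm (σ k)) * π (act (x (σ.symm (σ k))) (b (σ.symm (σ k)))) *
        (s (σ.symm (σ k)))⁻¹
      rw [Equiv.symm_apply_apply]
    have h2 : ((nn f.ker θ (fun j => s (σ.symm j)))⁻¹ * a,
        (⟨fun j => x (σ.symm j), σ⟩ : WrG κ A)) ∈ pairs act π f θ := by
      rw [mem_pairs]
      intro b
      have h3 := nn_psi f.ker θ a (fun k => π (b k))
      rw [h1, map_mul, map_mul, map_inv] at h3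
      change (nn f.ker θ (fun j => s (σ.symm j)))⁻¹ * a * nn f.ker θ (fun k => π (b k)) *
        ((nn f.ker θ (fun j => s (σ.symm j)))⁻¹ * a)⁻¹ = nn f.ker θ
          (fun k => π (wa act (⟨fun j => x (σ.symm j), σ⟩ : WrG κ A) b k))
      have h4 : (nn f.ker θ (fun j => s (σ.symm j)))⁻¹ * a * nn f.ker θ (fun k => π (b k)) *
          ((nn f.ker θ (fun j => s (σ.symm j)))⁻¹ * a)⁻¹ =
          (nn f.ker θ (fun j => s (σ.symm j)))⁻¹ * (a * nn f.ker θ (fun k => π (b k)) * a⁻¹) *
            nn f.ker θ (fun j => s (σ.symm j)) := by group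
      rw [h4, ← h3]
      group
    refine ⟨⟨_, h2⟩, ?_⟩
    change f ((nn f.ker θ (fun j => s (σ.symm j)))⁻¹ * a) = f a
    have h3 : f (nn f.ker θ (fun j => s (σ.symm j))) = 1 :=
      MonoidHom.mem_ker.1 (nn_mem f.ker θ _)
    rw [map_mul, map_inv, h3, inv_one, one_mul]
  · -- the kernel
    have hs : ∀ q : f₂.ker, ∃ s : κ → S, nn f.ker θ s = i (q : Q) := fun q =>
      nn_surj f.ker θ (MonoidHom.mem_ker.1 q.2)
    have hs2 : ∀ (q : f₂.ker) (s : κ → S), nn f.ker θ s = i (q : Q) → ∀ (b : κ → M) (k : κ),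
        s k * π (b k) * (s k)⁻¹ = π (wa act (w (q : Q)) b k) := by
      intro q s hsq b k
      have h1 := hQ (q : Q) b
      rw [← hsq, ← map_inv, ← map_mul, ← map_mul] at h1
      exact congrFun (nn_inj f.ker θ h1) k
    have hr : ∀ (q : f₂.ker) (k : κ), (w (q : Q)).right.symm k = k := by
      intro q k
      by_contra hne
      obtain ⟨s, hsq⟩ := hs q
      obtain ⟨t, ht⟩ := exists_ne (1 : S)
      obtain ⟨m, rfl⟩ := hπ t
      have h1 := hs2 q s hsq (Pi.mulSingle k m) k
      change s k * π (Pi.mulSingle (M := fun _ => M) k m k) * (s k)⁻¹ = π (act ((w (q : Q)).left k)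
        (Pi.mulSingle (M := fun _ => M) k m ((w (q : Q)).right.symm k))) at h1
      rw [Pi.mulSingle_eq_same, Pi.mulSingle_eq_of_ne hne, map_one, map_one,
        mul_inv_eq_one] at h1
      exact ht (mul_eq_left.mp h1)
    let φ : κ → (f₂.ker →* A) := fun k =>
      { toFun := fun q => (w (q : Q)).left k
        map_one' := rfl
        map_mul' := by
          intro q q'
          change (w (q : Q)).left k * (w (q' : Q)).left ((w (q : Q)).right.symm k) = _
          rw [hr q k] }
    refine solvable_of_homs hA φ ?_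
    intro q hq
    have hw : w (q : Q) = 1 := by
      refine SemidirectProduct.ext (funext fun k => hq k) ?_
      refine Equiv.ext fun k => ?_
      have h1 := hr q ((w (q : Q)).right k)
      rw [Equiv.symm_apply_apply] at h1
      exact h1.symm
    obtain ⟨s, hsq⟩ := hs q
    have h1 : s = 1 := by
      funext k
      have h2 : s k ∈ Subgroup.center S := by
        rw [Subgroup.mem_center_iff]
        intro t
        obtain ⟨m, rfl⟩ := hπ t
        have h3 := hs2 q s hsq (fun _ => m) k
        rw [hw, wa_one] at h3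
        rw [mul_inv_eq_iff_eq_mul] at h3
        exact h3.symm
      rw [hz, Subgroup.mem_bot] at h2
      exact h2
    have h2 : i (q : Q) = 1 := by
      rw [← hsq, h1, map_one]
    exact Subtype.ext (Subtype.ext (Prod.ext h2 hw))

end LG

end MP7Z
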