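import Pool.Agent.Lib.MP_7f581e_Z.LieG.Spec

/-!
# LieG/IntW: solutions of `Φ(y) = g y` are integral
-/

set_option autoImplicit false

namespace MP7Z

namespace LG

open TensorProduct MP7fS

theorem IntWM.unit {p : ℕ} [Fact p.Prime] {B : Type} [Ring B] [Finite B] [Algebra (ZMod p) B]
    {R Ω : Type} [CommRing R] [Algebra (ZMod p) R] [CommRing Ω]
    [Algebra (ZMod p) Ω] (inc : R →+* Ω)
    (hinc : Function.Injective inc) (w : (Ω ⊗[ZMod p] B)ˣ)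
    (f g : Fin (Module.finrank (ZMod p) B) → R)
    (hf : ∀ i, inc (f i) = crd (w : Ω ⊗[ZMod p] B) i)
    (hg : ∀ i, inc (g i) = crd ((w⁻¹ : (Ω ⊗[ZMod p] B)ˣ) : Ω ⊗[ZMod p] B) i) :
    ∃ v : (R ⊗[ZMod p] B)ˣ, tu inc (RingHom.id B) v = w := by
  have h1 : tmap (p := p) inc (RingHom.id B) (vec (Module.finBasis (ZMod p) B) f) =
      (w : Ω ⊗[ZMod p] B) := by
    apply crd_ext
    intro i
    rw [crd_tmap, crd_vec, hf]
  have h2 : tmap (p := p) inc (RingHom.id B) (vec (Module.finBasis (ZMod p) B) g) =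
      ((w⁻¹ : (Ω ⊗[ZMod p] B)ˣ) : Ω ⊗[ZMod p] B) := by
    apply crd_ext
    intro i
    rw [crd_tmap, crd_vec, hg]
  have hinj := tmap_injective (p := p) (B := B) inc hinc
  refine ⟨⟨vec (Module.finBasis (ZMod p) B) f, vec (Module.finBasis (ZMod p) B) g, ?_, ?_⟩,
    Units.ext h1⟩
  · apply hinj
    rw [map_mul, map_one, h1, h2, Units.mul_inv]
  · apply hinj
    rw [map_mul, map_one, h1, h2, Units.inv_mul]

theorem IntWM.main {p : ℕ} [Fact p.Prime] {B : Type} [Ring B] [Finite B] [Algebra (ZMod p) B]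
    {𝒢 : LangGp p B} (Φ : 𝒢.End) {R Ω : Type} [CommRing R] [CharP R p] [Algebra (ZMod p) R]
    [CommRing Ω] [CharP Ω p] [Algebra (ZMod p) Ω] (inc : R →+* Ω)
    (hinc : Function.Injective inc) {g y : (Ω ⊗[ZMod p] B)ˣ} (hg : g ∈ 𝒢.H Ω) (hy : y ∈ 𝒢.H Ω)
    (hgy : Φ.φ Ω y = g * y) (f f' : Fin (Module.finrank (ZMod p) B) → R)
    (hf : ∀ i, inc (f i) = crd (g : Ω ⊗[ZMod p] B) i)
    (hf' : ∀ i, inc (f' i) = crd ((g⁻¹ : (Ω ⊗[ZMod p] B)ˣ) : Ω ⊗[ZMod p] B) i) (m : ℕ) :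
    ∃ G : (Ω ⊗[ZMod p] B)ˣ, (Φ.φ Ω)^[m] y = G * y ∧
      (∀ i, ∃ r : R, inc r = crd (G : Ω ⊗[ZMod p] B) i) ∧
      ∀ i, ∃ r : R, inc r = crd ((G⁻¹ : (Ω ⊗[ZMod p] B)ˣ) : Ω ⊗[ZMod p] B) i := by
  obtain ⟨v, hv⟩ := IntWM.unit (p := p) (B := B) inc hinc g f f' hf hf'
  have hvH : v ∈ 𝒢.H R := 𝒢.inj R Ω inc hinc v (by rw [hv]; exact hg)
  have key : ∀ m : ℕ, ∃ G ∈ 𝒢.H R, (Φ.φ Ω)^[m] y = tu inc (RingHom.id B) G * y := by
    intro m
    induction m with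
    | zero => exact ⟨1, one_mem _, by rw [map_one, one_mul]; rfl⟩
    | succ m ih =>
      obtain ⟨G, hG, hGy⟩ := ih
      refine ⟨Φ.φ R G * v, mul_mem (Φ.mem _ _ hG) hvH, ?_⟩
      rw [Function.iterate_succ_apply', hGy, Φ.mul Ω _ (𝒢.map _ _ inc _ hG) _ hy, hgy, map_mul, hv,
        Φ.nat R Ω inc G hG, mul_assoc]
  obtain ⟨G, hG, hGy⟩ := key m
  refine ⟨tu inc (RingHom.id B) G, hGy, fun i => ⟨_, (crd_tu inc G i).symm⟩, fun i => ?_⟩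
  rw [← map_inv]
  exact ⟨_, (crd_tu inc G⁻¹ i).symm⟩

theorem tIntW (hInt : IntStmt) : IntWStmt := by
  intro p _ B _ _ _ 𝒢 Φ e hroot Ω _ _ _ x g hg y hy hgi hgi' hgy
  let _ : Algebra (ZMod p) (integralClosure (Algebra.adjoin (ZMod p) {x}) Ω) :=
    ((algebraMap (ZMod p) Ω).codRestrict
      (integralClosure (Algebra.adjoin (ZMod p) {x}) Ω).toSubring (by
    intro c
    rw [← ZMod.natCast_zmod_val c, map_natCast]
    exact natCast_mem _ _)).toAlgebra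
  have _ : CharP (integralClosure (Algebra.adjoin (ZMod p) {x}) Ω) p :=
    charP_of_injective_algebraMap (algebraMap (ZMod p)
      (integralClosure (Algebra.adjoin (ZMod p) {x}) Ω)).injective p
  obtain ⟨G, hG, h1, h2⟩ := IntWM.main Φ
    (integralClosure (Algebra.adjoin (ZMod p) {x}) Ω).toSubring.subtype
    Subtype.val_injective hg hy hgy
    (fun i => ⟨crd (g : Ω ⊗[ZMod p] B) i, hgi i⟩)
    (fun i => ⟨crd ((g⁻¹ : (Ω ⊗[ZMod p] B)ˣ) : Ω ⊗[ZMod p] B) i, hgi' i⟩)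
    (fun i => rfl) (fun i => rfl) e
  rw [hroot Ω y hy] at hG
  refine (hInt p B Ω x).2.2.2.2.2 G y ?_ ?_ hG
  · intro i
    obtain ⟨r, hr⟩ := h1 i
    rw [← hr]
    exact r.2
  · intro i
    obtain ⟨r, hr⟩ := h2 i
    rw [← hr]
    exact r.2

end LG

end MP7Z
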