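import Pool.Agent.Lib.MP_7f581e_Z.LieG.Spec

/-!
# Relations which hold for the generic value hold on the closure
-/

set_option autoImplicit false

namespace MP7Z

namespace LG

open TensorProduct MP7fS MP7fU MvPolynomial

/-- Linear maps factor through linear maps with smaller kernel. -/
theorem irr_factor {F V W U : Type} [Field F] [AddCommGroup V] [Module F V] [AddCommGroup W]
    [Module F W] [AddCommGroup U] [Module F U] (φ : V →ₗ[F] W) (ψ : V →ₗ[F] U)
    (h : ∀ v, φ v = 0 → ψ v = 0) : ∃ θ : W →ₗ[F] U, ∀ v, θ (φ v) = ψ v := by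
  have hk : LinearMap.ker φ ≤ LinearMap.ker ψ := fun v hv =>
    LinearMap.mem_ker.2 (h v (LinearMap.mem_ker.1 hv))
  obtain ⟨θ, hθ⟩ := (((LinearMap.ker φ).liftQ ψ hk).comp
    φ.quotKerEquivRange.symm.toLinearMap).exists_extend
  refine ⟨θ, fun v => ?_⟩
  have h1 : θ (φ v) = (θ.comp (LinearMap.range φ).subtype) ⟨φ v, LinearMap.mem_range_self φ v⟩ :=
    rfl
  have h2 : φ.quotKerEquivRange.symm ⟨φ v, LinearMap.mem_range_self φ v⟩ =
      (LinearMap.ker φ).mkQ v := by
    rw [LinearEquiv.symm_apply_eq]
    rfl
  rw [h1, hθ]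
  change (LinearMap.ker φ).liftQ ψ hk (φ.quotKerEquivRange.symm _) = _
  rw [h2]
  exact Submodule.liftQ_apply _ _ _

/-- The statement for polynomial maps. -/
theorem irr_aux {F k Λ : Type} [Field F] [Field k] [Algebra F k] [Field Λ] [Algebra F Λ]
    [Algebra k Λ] [IsScalarTower F k Λ] {ι : Type} {n : ℕ} (t : ι → Λ)
    (ht : AlgebraicIndependent k t) (c : Fin n → MvPolynomial ι F) (y : Fin n → Λ)
    (h : ∀ f : MvPolynomial (Fin n) F, aeval c f = 0 → aeval y f = 0)
    (f : MvPolynomial (Fin n) k) (hf : aeval (fun i => aeval t (c i)) f = 0) :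
    aeval y f = 0 := by
  obtain ⟨θ, hθ⟩ := irr_factor (aeval c : MvPolynomial (Fin n) F →ₐ[F] _).toLinearMap
    (aeval y : MvPolynomial (Fin n) F →ₐ[F] Λ).toLinearMap h
  let Θ : MvPolynomial ι k →ₗ[k] Λ := (basisMonomials ι k).constr k fun m => θ (monomial m 1)
  have hΘ : ∀ m, Θ (monomial m 1) = θ (monomial m 1) := fun m => by
    have := (basisMonomials ι k).constr_basis k (fun m => θ (monomial m 1)) m
    rwa [coe_basisMonomials] at this
  -- on polynomials over `F`
  have h1 : ∀ g : MvPolynomial ι F, Θ (map (algebraMap F k) g) = θ g := by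
    intro g
    induction g using MvPolynomial.monomial_add_induction_on with
    | C a =>
      have e1 : map (algebraMap F k) (C a : MvPolynomial ι F) =
          algebraMap F k a • monomial 0 (1 : k) := by
        rw [map_C, smul_monomial, smul_eq_mul, mul_one]
        rfl
      have e2 : (C a : MvPolynomial ι F) = a • monomial 0 (1 : F) := by
        rw [smul_monomial, smul_eq_mul, mul_one]
        rfl
      rw [e1, map_smul, hΘ, e2, map_smul, algebraMap_smul]
    | monomial_add m a g _ _ ih =>
      have e1 : map (algebraMap F k) (monomial m a : MvPolynomial ι F) =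
          algebraMap F k a • monomial m (1 : k) := by
        rw [map_monomial, smul_monomial, smul_eq_mul, mul_one]
      have e2 : (monomial m a : MvPolynomial ι F) = a • monomial m (1 : F) := by
        rw [smul_monomial, smul_eq_mul, mul_one]
      rw [map_add, map_add, map_add, ih, e1, map_smul, hΘ, e2, map_smul, algebraMap_smul]
  -- on all polynomials
  have h2 : Θ.comp (aeval fun i => map (algebraMap F k) (c i) :
      MvPolynomial (Fin n) k →ₐ[k] MvPolynomial ι k).toLinearMap =
      (aeval y : MvPolynomial (Fin n) k →ₐ[k] Λ).toLinearMap := by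
    apply (basisMonomials (Fin n) k).ext
    intro m
    rw [coe_basisMonomials]
    change Θ (aeval (fun i => map (algebraMap F k) (c i)) (monomial m (1 : k))) =
      aeval y (monomial m (1 : k))
    have e1 : (monomial m (1 : k)) = map (algebraMap F k) (monomial m (1 : F)) := by
      rw [map_monomial]
      exact congrArg (monomial m) (map_one (algebraMap F k)).symm
    have e2 : aeval (fun i => map (algebraMap F k) (c i)) (monomial m (1 : k)) =
        map (algebraMap F k) (aeval c (monomial m (1 : F))) := by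
      rw [aeval_monomial, aeval_monomial, map_one, map_one, one_mul, one_mul, Finsupp.prod,
        Finsupp.prod, map_prod]
      refine Finset.prod_congr rfl fun i _ => ?_
      rw [map_pow]
    rw [e2, h1]
    refine (hθ (monomial m (1 : F))).trans ?_
    rw [AlgHom.toLinearMap_apply, e1, aeval_map_algebraMap]
  have h3 : aeval (fun i => map (algebraMap F k) (c i)) f = 0 := by
    apply ht
    rw [map_zero]
    have e1 : (aeval t).comp (aeval fun i => map (algebraMap F k) (c i) :
        MvPolynomial (Fin n) k →ₐ[k] MvPolynomial ι k) =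
        (aeval fun i => aeval t (c i) : MvPolynomial (Fin n) k →ₐ[k] Λ) := by
      apply MvPolynomial.algHom_ext
      intro i
      rw [AlgHom.comp_apply, aeval_X, aeval_X, aeval_map_algebraMap]
    have e2 := congrArg (fun g : MvPolynomial (Fin n) k →ₐ[k] Λ => g f) e1
    exact e2.trans hf
  have h4 := congrArg (fun g : MvPolynomial (Fin n) k →ₗ[k] Λ => g f) h2
  rw [← AlgHom.toLinearMap_apply, ← h2, LinearMap.comp_apply, AlgHom.toLinearMap_apply, h3,
    map_zero]

theorem tIrr : IrrStmt := by
  intro p _ B _ _ _ ι P k Λ _ _ _ _ _ t ht x hx f hf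
  have : IsScalarTower (ZMod p) k Λ := IsScalarTower.of_algebraMap_eq' (RingHom.ext_zmod _ _)
  refine irr_aux (F := ZMod p) t ht (crd (P : MvPolynomial ι (ZMod p) ⊗[ZMod p] B)) _ hx f ?_
  have h1 : (crd ((valP P t : (Λ ⊗[ZMod p] B)ˣ) : Λ ⊗[ZMod p] B)) =
      fun i => aeval t (crd (P : MvPolynomial ι (ZMod p) ⊗[ZMod p] B) i) := by
    funext i
    exact crd_tu _ _ _
  rw [h1] at hf
  exact hf

end LG

end MP7Z
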