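import Pool.Agent.Lib.MP_7f581e_Z.LieG.Spec

/-!
# LieG/L3W: the Lang torsor theorem for an endomorphism
-/

set_option autoImplicit false

namespace MP7Z

namespace LG

open TensorProduct MP7fS

theorem tL3W (hGel : GelWStmt) (hTor : TorWStmt) (hInt : IntWStmt) (hTorS : TorSWStmt)
    (hTorO : TorOWStmt) : L3WStmt := by
  intro p _ B _ _ _ 𝒢 Φ e hroot hL hLF hperf Q _ _ ρ hρ hc ι _ _ P β hW Ω _ _ x ψ hψ
  have : CharP Ω p := charP_of_injective_algebraMap (algebraMap (ZMod p) Ω).injective p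
  have : CharP (Cst p Ω) p :=
    charP_of_injective_algebraMap (algebraMap (ZMod p) (Cst p Ω)).injective p
  have : IsSepClosed Ω := hψ.stage.sepClosed
  have hsurj : Function.Surjective ψ := by
    intro q
    obtain ⟨γ, _, h⟩ := hψ.reg q
    exact ⟨γ, h⟩
  obtain ⟨g, hgH, hinv, hgi, hgi', hpl⟩ := hGel p B 𝒢 Φ hLF Q ρ ι P β hW Ω x
    hψ.stage ψ hψ.fin hsurj
  obtain ⟨y, hyH, hy⟩ := hL Ω g hgH
  obtain ⟨hyi, hyi'⟩ := hInt p B 𝒢 Φ e hroot Ω x g hgH y hyH hgi hgi' hy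
  obtain ⟨Ψ, hΨf, hΨr, hΨy⟩ := hTor p B 𝒢 Φ e hroot Q ρ hρ hc Ω x ψ g y hψ.fin hinv hgH hyH hy
  refine ⟨Ψ, ⟨hψ.stage, hΨf, ?_, ?_⟩, hΨr⟩
  · exact hTorO p B 𝒢 Φ e hroot Q ρ hρ hc Ω x ψ g y Ψ hψ.stage hψ.reg hperf hgH hyH hyi hyi' hy
      hΨr hΨy hpl
  · exact hTorS p B 𝒢 Φ Q ρ hρ hc Ω x ψ y Ψ hψ.stage hψ.inv hyi hyi' hΨr hΨy

end LG

end MP7Z
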