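import Pool.Agent.Lib.MP_7f581e_Z.LieG.Spec

/-!
# LieG/LangW: the theorem of Lang and Steinberg
-/

set_option autoImplicit false

namespace MP7Z

namespace LG

open TensorProduct MP7fS

/-- `Φ^m(y) = G_m y`. -/
theorem LangWM.iter {p : ℕ} [Fact p.Prime] {B : Type} [Ring B] [Finite B] [Algebra (ZMod p) B]
    {𝒢 : LangGp p B} (Φ : 𝒢.End) {k Λ : Type} [CommRing k] [CharP k p] [Algebra (ZMod p) k]
    [CommRing Λ] [CharP Λ p] [Algebra (ZMod p) Λ] (f : k →+* Λ) {g : (k ⊗[ZMod p] B)ˣ}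
    (hg : g ∈ 𝒢.H k) {y : (Λ ⊗[ZMod p] B)ˣ} (hy : y ∈ 𝒢.H Λ)
    (h : Φ.φ Λ y = tu f (RingHom.id B) g * y) (m : ℕ) :
    ∃ G ∈ 𝒢.H k, (Φ.φ Λ)^[m] y = tu f (RingHom.id B) G * y := by
  induction m with
  | zero => exact ⟨1, one_mem _, by rw [map_one, one_mul]; rfl⟩
  | succ m ih =>
    obtain ⟨G, hG, hGy⟩ := ih
    refine ⟨Φ.φ k G * g, mul_mem (Φ.mem _ _ hG) hg, ?_⟩
    rw [Function.iterate_succ_apply', hGy, Φ.mul Λ _ (𝒢.map _ _ f _ hG) _ hy, h, map_mul,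
      Φ.nat k Λ f G hG, mul_assoc]

theorem tLangW (hSys : SysStmt) (hDes : DesStmt) (hLG : LangGStmt) : LangWStmt := by
  intro p _ B _ _ _ 𝒢 ι P hP Φ e d hd hroot k _ _ _ _ g hg
  let Λ : Type := AlgebraicClosure (FractionRing (MvPolynomial ι k))
  have hinj : Function.Injective (algebraMap (MvPolynomial ι k) Λ) := by
    rw [IsScalarTower.algebraMap_eq (MvPolynomial ι k) (FractionRing (MvPolynomial ι k)) Λ]
    exact (algebraMap (FractionRing (MvPolynomial ι k)) Λ).injective.comp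
      (IsFractionRing.injective (MvPolynomial ι k) (FractionRing (MvPolynomial ι k)))
  have _ : CharP Λ p := charP_of_injective_algebraMap (algebraMap k Λ).injective p
  let t : ι → Λ := fun i => algebraMap (MvPolynomial ι k) Λ (MvPolynomial.X i)
  have ht : AlgebraicIndependent k t := by
    have h1 : AlgebraicIndependent k (MvPolynomial.X : ι → MvPolynomial ι k) :=
      MvPolynomial.algebraicIndependent_X ι k
    exact h1.map' (f := IsScalarTower.toAlgHom k (MvPolynomial ι k) Λ) hinj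
  have hPm : P ∈ 𝒢.H (MvPolynomial ι (ZMod p)) := (hP _ _).2 fun _ h => h
  have hη : valP P t ∈ 𝒢.H Λ := valP_mem hPm t
  obtain ⟨η₁, h1, h1'⟩ := hLG p B 𝒢 ι P hP Φ e d hd hroot k Λ t ht g hg
  obtain ⟨η₂, h2, h2'⟩ := hLG p B 𝒢 ι P hP Φ e d hd hroot k Λ t ht 1 (one_mem _)
  rw [map_one, one_mul] at h2'
  have hy : η₁ * η₂⁻¹ ∈ 𝒢.H Λ := mul_mem h1 (inv_mem h2)
  have hΦy : Φ.φ Λ (η₁ * η₂⁻¹) = tu (algebraMap k Λ) (RingHom.id B) g * (η₁ * η₂⁻¹) := by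
    rw [Φ.mul Λ _ h1 _ (inv_mem h2), Φ.map_inv Λ h2]
    have h3 : Φ.φ Λ η₁ = tu (algebraMap k Λ) (RingHom.id B) g * η₁ * (valP P t)⁻¹ :=
      eq_mul_inv_of_mul_eq h1'
    have h4 : Φ.φ Λ η₂ = η₂ * (valP P t)⁻¹ := eq_mul_inv_of_mul_eq h2'
    rw [h3, h4]
    group
  obtain ⟨G, hG, hGy⟩ := LangWM.iter Φ (algebraMap k Λ) hg hy hΦy e
  rw [hroot Λ _ hy] at hGy
  obtain ⟨M, hM⟩ := hSys p B k Λ (algebraMap k Λ) d G 1 (η₁ * η₂⁻¹) (by
    rw [map_one, mul_one]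
    exact hGy)
  have hc := hDes p k Λ (algebraMap k Λ) _ d hd M _ hM
  obtain ⟨y₀, hy₀⟩ := exists_unit (algebraMap k Λ) (η₁ * η₂⁻¹) hc
  have hy₀H : y₀ ∈ 𝒢.H k :=
    𝒢.inj k Λ (algebraMap k Λ) (algebraMap k Λ).injective y₀ (by rw [hy₀]; exact hy)
  refine ⟨y₀, hy₀H, ?_⟩
  apply tu_injective (p := p) (B := B) (algebraMap k Λ).injective
  rw [← Φ.nat k Λ (algebraMap k Λ) y₀ hy₀H, map_mul, hy₀]
  exact hΦy

end LG

end MP7Z
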