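import Pool.Agent.Lib.MP_7f581e_Z.LieG.Spec

/-!
# Step Lie for the simple groups of Lie type
-/

set_option autoImplicit false
set_option linter.unusedSectionVars false

namespace MP7Z

namespace LG

open TensorProduct MP7fS MP7fU

namespace LieGM

/-- Words pass to groups mapping to the given one. -/
theorem word_comp {p : ℕ} [Fact p.Prime] {B : Type} [Ring B] [Finite B] [Algebra (ZMod p) B]
    {𝒢 : LangGp p B} {W Q : Type} [Group W] [Group Q] {ρ : W →* (B ≃+* B)} {ι : Type} [Fintype ι]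
    [DecidableEq ι] {P : (MvPolynomial ι (ZMod p) ⊗[ZMod p] B)ˣ}
    {β : W →* Matrix ι ι (ZMod p)} (h : Word 𝒢 ρ P β) (w : Q →* W) :
    Word 𝒢 (ρ.comp w) P (β.comp w) where
  mem := h.mem
  zero := h.zero
  gen := h.gen
  equi := fun R _ _ q t => h.equi R (w q) t

/-- The word of a datum. -/
theorem word_datum {p : ℕ} [Fact p.Prime] (D : LieDatum p) : Word D.H D.α D.P D.β where
  mem := P_mem D
  zero := D.zero
  gen := D.gen
  equi := D.equi

theorem stable_comp {p : ℕ} [Fact p.Prime] {B : Type} [Ring B] [Finite B] [Algebra (ZMod p) B]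
    {𝒢 : LangGp p B} {W Q : Type} [Group W] [Group Q] {ρ : W →* (B ≃+* B)} (h : 𝒢.Stable ρ)
    (w : Q →* W) : 𝒢.Stable (ρ.comp w) :=
  fun R _ _ q x hx => h R (w q) x hx

theorem comm_comp {p : ℕ} [Fact p.Prime] {B : Type} [Ring B] [Finite B] [Algebra (ZMod p) B]
    {𝒢 : LangGp p B} {Φ : 𝒢.End} {W Q : Type} [Group W] [Group Q] {ρ : W →* (B ≃+* B)}
    (h : Φ.Comm ρ) (w : Q →* W) : Φ.Comm (ρ.comp w) :=
  fun R _ _ _ q x hx => h R (w q) x hx

theorem act_comp {p : ℕ} [Fact p.Prime] {B : Type} [Ring B] [Finite B] [Algebra (ZMod p) B]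
    {𝒢 : LangGp p B} {Φ : 𝒢.End} {W Q : Type} [Group W] [Group Q] {ρ : W →* (B ≃+* B)}
    (h : 𝒢.Stable ρ) (hc : Φ.Comm ρ) (w : Q →* W) (q : Q) (b : Φ.pts) :
    Φ.act (ρ.comp w) (stable_comp h w) (comm_comp hc w) q b = Φ.act ρ h hc (w q) b :=
  Subtype.ext rfl

end LieGM

open LieGM

/-- Step Lie for the simple groups of Lie type. -/
theorem tLieG (h0 : LangWStmt) (h1 : L3WStmt) (h2 : PowAStmt) (h3 : PowWStmt) (h4 : PowPStmt)
    (h5 : GrpStmt) : LieGStmt := by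
  intro p _ hS Ω _ _ x G _ _ ψ hψ E _ _ f hf S _ _ κ _ hSS hθ₀ _
  obtain ⟨hsim, D, π, hπ, hσ⟩ := hSS
  obtain ⟨θ⟩ := hθ₀
  obtain ⟨Q, _, _, f₂, i, w, hf₂, hsolv, hfi, hconj⟩ :=
    h5 D.Φ.pts S D.A D.solv D.perf (D.Φ.act D.α D.stab D.comm) π hπ hσ κ G E f hf θ
  obtain ⟨x', -, -, -, ψ₂, hψ₂, -⟩ := hS Ω x G ψ hψ Q f₂ hf₂ hsolv
  classical
  have : Fintype κ := Fintype.ofFinite κ
  have : Fintype Q := Fintype.ofFinite Q
  -- Lang's theorem
  have hL : Lang D.Φ := h0 p D.B D.H (Fin D.N) D.P D.closure D.Φ D.e 1 Nat.one_pos D.root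
  have hLd : ∀ d, 0 < d → Lang (frEnd D.H d) := fun d hd =>
    h0 p D.B D.H (Fin D.N) D.P D.closure (frEnd D.H d) 1 d hd (frEnd_root D.H d)
  -- the power
  obtain ⟨hA1, hA2, hA3, hA4⟩ := h2 p D.B D.H D.Φ κ
  obtain ⟨hA5, hA6⟩ := hA4 D.A D.α
  have hW := word_comp (h3 p D.B D.H D.A D.α (Fin D.N) D.P D.β (word_datum D) κ) w
  obtain ⟨hperf, ε, hε⟩ := h4 p D.B D.H D.Φ κ D.perf
  have hst : (powG κ D.H).Stable (wrAct κ D.α) := hA5 D.stab
  have hcm : (powE κ D.Φ).Comm (wrAct κ D.α) := hA6 D.comm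
  obtain ⟨Ψ, hΨ, -⟩ := h1 p (κ → D.B) (powG κ D.H) (powE κ D.Φ) D.e (hA3 D.e 1 D.root) (hA1 hL)
    (fun d hd => hA2 d (hLd d hd)) hperf Q ((wrAct κ D.α).comp w) (stable_comp hst w)
    (comm_comp hcm w) (κ × Fin D.N) (powP κ D.P) ((wrMat κ D.β).comp w) hW Ω x' ψ₂ hψ₂
  -- the homomorphism onto `E`
  let f₁ : (powE κ D.Φ).pts →* E :=
    { toFun := fun b => ((θ.symm fun k => π (ε b k) : f.ker) : E)
      map_one' := by
        have h : (fun k => π (ε 1 k)) = (1 : κ → S) := by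
          funext k
          rw [map_one, Pi.one_apply, map_one, Pi.one_apply]
        rw [h, map_one]
        rfl
      map_mul' := by
        intro a b
        have h : (fun k => π (ε (a * b) k)) = (fun k => π (ε a k)) * fun k => π (ε b k) := by
          funext k
          rw [map_mul, Pi.mul_apply, map_mul, Pi.mul_apply]
        rw [h, map_mul]
        rfl }
  have hact : ∀ (q : Q) (b : (powE κ D.Φ).pts),
      f₁ ((powE κ D.Φ).act ((wrAct κ D.α).comp w) (stable_comp hst w) (comm_comp hcm w) q b) =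
        i q * f₁ b * (i q)⁻¹ := by
    intro q b
    rw [act_comp]
    change ((θ.symm fun k => π (ε ((powE κ D.Φ).act (wrAct κ D.α) hst hcm (w q) b) k) : f.ker) :
      E) = i q * ((θ.symm fun k => π (ε b k) : f.ker) : E) * (i q)⁻¹
    rw [hconj q (ε b)]
    have h : (fun k => π (ε ((powE κ D.Φ).act (wrAct κ D.α) hst hcm (w q) b) k)) =
        fun k => π (D.Φ.act D.α D.stab D.comm ((w q).left k) (ε b ((w q).right.symm k))) := by
      funext k
      rw [hε D.A D.α D.stab D.comm hst hcm (w q) b k]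
    rw [h]
  let F : (powE κ D.Φ).pts ⋊[(powE κ D.Φ).act ((wrAct κ D.α).comp w) (stable_comp hst w)
      (comm_comp hcm w)] Q →* E := SemidirectProduct.lift f₁ i (by
    intro q
    ext b
    exact hact q b)
  have hF : Function.Surjective F := by
    intro a
    obtain ⟨q, hq⟩ := hf₂ (f a)
    have hk : a * (i q)⁻¹ ∈ f.ker := by
      rw [MonoidHom.mem_ker, map_mul, map_inv, hfi, hq, mul_inv_cancel]
    choose b hb using fun k => hπ (θ ⟨_, hk⟩ k)
    refine ⟨⟨ε.symm b, q⟩, ?_⟩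
    change ((θ.symm fun k => π (ε (ε.symm b) k) : f.ker) : E) * i q = a
    have h : (fun k => π (ε (ε.symm b) k)) = θ ⟨_, hk⟩ := by
      funext k
      rw [MulEquiv.apply_symm_apply, hb]
    rw [h, MulEquiv.symm_apply_apply]
    exact inv_mul_cancel_right a (i q)
  exact ⟨x', F.comp Ψ, hΨ.map F hF⟩

end LG

end MP7Z
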