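import Pool.Agent.Lib.MP_7f581e_Z.LieG.Spec

/-!
# Finite groups of Lie type: every family of points, fixed by the powers of the Frobenius, lifts
-/

set_option autoImplicit false
set_option linter.unusedSectionVars false

namespace MP7Z

namespace LG

open TensorProduct MP7fS

namespace LiftAllWM

variable {p : ℕ} [Fact p.Prime] {B : Type} [Ring B] [Finite B] [Algebra (ZMod p) B]

theorem invL_mul {Ω : Type} [Field Ω] [Algebra (ZMod p) Ω] {x : Ω} {Q : Type} [Group Q]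
    {ψ : Gx p x →* Q} {ρ : Q →* (B ≃+* B)} {w w' : (Ω ⊗[ZMod p] B)ˣ} (h : InvL ψ ρ w)
    (h' : InvL ψ ρ w') : InvL ψ ρ (w * w') := fun γ => by rw [map_mul, h γ, h' γ]

theorem invL_one {Ω : Type} [Field Ω] [Algebra (ZMod p) Ω] {x : Ω} {Q : Type} [Group Q]
    {ψ : Gx p x →* Q} {ρ : Q →* (B ≃+* B)} : InvL ψ ρ (1 : (Ω ⊗[ZMod p] B)ˣ) :=
  fun γ => by rw [map_one]

theorem invL_inv {Ω : Type} [Field Ω] [Algebra (ZMod p) Ω] {x : Ω} {Q : Type} [Group Q]
    {ψ : Gx p x →* Q} {ρ : Q →* (B ≃+* B)} {w : (Ω ⊗[ZMod p] B)ˣ} (h : InvL ψ ρ w) :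
    InvL ψ ρ w⁻¹ := fun γ => by rw [map_inv, h γ]

/-- The value at zero. -/
theorem valP_zero {ι : Type} {P : (MvPolynomial ι (ZMod p) ⊗[ZMod p] B)ˣ}
    (h : valP P (fun _ => (0 : ZMod p)) = 1) {R : Type} [CommRing R] [Algebra (ZMod p) R] :
    valP P (fun _ => (0 : R)) = 1 := by
  have h1 := tu_valP P (algebraMap (ZMod p) R) (fun _ => (0 : ZMod p))
  rw [h, map_one] at h1
  simp only [map_zero] at h1
  exact h1.symm

end LiftAllWM

theorem tLiftAllW (hCong : CongStmt) (hInt : IntStmt) (hGenF : GenFStmt) (hL : LiftWStmt) :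
    LiftAllWStmt := by
  classical
  intro p _ B _ _ _ 𝒢 Q _ _ ρ ι _ _ P β hW Ω _ _ _ _ x hst ψ hψ m₀ r V hV d hd hdf g hg hgf
  obtain ⟨i1, -, i3, -, i5, -⟩ := hInt p B Ω x
  have cong := fun j => hCong p B Ω x hst (V j) (hV.ne_top j)
  let C : Subgroup (Fin r → (Cst p Ω ⊗[ZMod p] B)ˣ) :=
    { carrier := {u | ∃ w : (Ω ⊗[ZMod p] B)ˣ, w ∈ 𝒢.H Ω ∧ InvL ψ ρ w ∧
        IntX x (w : Ω ⊗[ZMod p] B) ∧ IntX x ((w⁻¹ : (Ω ⊗[ZMod p] B)ˣ) : Ω ⊗[ZMod p] B) ∧
        ∀ j, Cong (V j) (w : Ω ⊗[ZMod p] B) (u j : Cst p Ω ⊗[ZMod p] B)}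
      mul_mem' := by
        rintro u u' ⟨w, h1, h2, h3, h4, h5⟩ ⟨w', h1', h2', h3', h4', h5'⟩
        refine ⟨w * w', mul_mem h1 h1', LiftAllWM.invL_mul h2 h2', ?_, ?_, fun j => ?_⟩
        · rw [Units.val_mul]
          exact i1 _ _ h3 h3'
        · rw [mul_inv_rev, Units.val_mul]
          exact i1 _ _ h4' h4
        · rw [Units.val_mul, Pi.mul_apply, Units.val_mul]
          exact (cong j).1 _ _ _ _ (h5 j) (h5' j)
      one_mem' := by
        have h1 := i3 (1 : B)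
        refine ⟨1, one_mem _, LiftAllWM.invL_one, h1, ?_, fun j => (cong j).2.1⟩
        rw [inv_one]
        exact h1
      inv_mem' := by
        rintro u ⟨w, h1, h2, h3, h4, h5⟩
        refine ⟨w⁻¹, inv_mem h1, LiftAllWM.invL_inv h2, h4, ?_, fun j => ?_⟩
        · rw [inv_inv]
          exact h3
        · rw [Pi.inv_apply]
          exact (cong j).2.2.2.2.2.2.1 w (u j) (i5 (V j) (hV.mem j) _ h4) (h5 j) }
  have hmem : ∀ v : Fin r → (Cst p Ω ⊗[ZMod p] B)ˣ, v ∈ C ↔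
      ∃ w : (Ω ⊗[ZMod p] B)ˣ, w ∈ 𝒢.H Ω ∧ InvL ψ ρ w ∧
        IntX x (w : Ω ⊗[ZMod p] B) ∧ IntX x ((w⁻¹ : (Ω ⊗[ZMod p] B)ˣ) : Ω ⊗[ZMod p] B) ∧
        ∀ j, Cong (V j) (w : Ω ⊗[ZMod p] B) (v j : Cst p Ω ⊗[ZMod p] B) := fun v => Iff.rfl
  clear_value C
  have hC : g ∈ C := by
    apply Subgroup.pi_mem_of_mulSingle_mem
    intro j
    have h1 := hGenF p B 𝒢 ι P hW.gen (Cst p Ω) (d j) (hd j) (g j) (hg j) (hgf j)
    have h2 : Subgroup.closure {w : (Cst p Ω ⊗[ZMod p] B)ˣ | ∃ t : ι → Cst p Ω,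
        (∀ i, t i ^ (p ^ d j) = t i) ∧ w = valP P t} ≤
        C.comap (MonoidHom.mulSingle (fun _ : Fin r => (Cst p Ω ⊗[ZMod p] B)ˣ) j) := by
      rw [Subgroup.closure_le]
      rintro u ⟨t, ht, rfl⟩
      rw [Subgroup.coe_comap, Set.mem_preimage, SetLike.mem_coe, MonoidHom.mulSingle_apply, hmem]
      let T : Fin r → ι → Cst p Ω := fun k i => if k = j then t i else 0
      have hT1 : T j = t := by
        funext i
        exact if_pos rfl
      have hT2 : ∀ k, k ≠ j → T k = fun _ => 0 := by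
        intro k hk
        funext i
        exact if_neg hk
      obtain ⟨w, hw1, hw2, hw3, hw4, hw5⟩ := hL p B 𝒢 Q ρ ι P β hW Ω x hst ψ hψ m₀ r V hV T (by
        intro k i γ hγ
        by_cases hk : k = j
        · subst hk
          rw [hT1]
          exact hdf k γ hγ _ (t i).2 (congrArg Subtype.val (ht i))
        · rw [hT2 k hk]
          exact map_zero _)
      refine ⟨w, hw1, hw2, hw3, hw4, fun k => ?_⟩
      have h3 := hw5 k
      by_cases hk : k = j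
      · subst hk
        rw [Pi.mulSingle_eq_same]
        rw [hT1] at h3
        exact h3
      · rw [Pi.mulSingle_eq_of_ne hk]
        rw [hT2 k hk, LiftAllWM.valP_zero hW.zero] at h3
        exact h3
    exact h2 h1
  exact (hmem g).1 hC

end LG

end MP7Z
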