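import Pool.Agent.Lib.MP_7f581e_Z.LieG.Spec
import Pool.Agent.Lib.MP_7f581e_Z.Lie.RQ
import Pool.Agent.Lib.MP_7f581e_Z.Lie.Cong

set_option autoImplicit false
set_option linter.unusedSectionVars false

/-! Lifting the values of a word at the places of a split family. -/

namespace MP7Z

namespace LG

open TensorProduct MP7fS

namespace LiftWM

section

variable {p : ℕ} [Fact p.Prime] {B : Type} [Ring B] [Finite B] [Algebra (ZMod p) B]

theorem mvz_sum {ι κ R : Type} [Fintype ι] [CommRing R] [Algebra (ZMod p) R]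
    (M : Matrix ι ι (ZMod p)) (s : Finset κ) (u : κ → ι → R) :
    mvz M (∑ k ∈ s, u k) = ∑ k ∈ s, mvz M (u k) := by
  classical
  induction s using Finset.induction_on with
  | empty =>
    rw [Finset.sum_empty, Finset.sum_empty]
    funext i
    simp [mvz]
  | insert a s ha ih =>
    rw [Finset.sum_insert ha, Finset.sum_insert ha, ← ih]
    funext i
    simp only [mvz, Pi.add_apply, mul_add, Finset.sum_add_distrib]

theorem crd_valP {ι R : Type} [CommRing R] [Algebra (ZMod p) R]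
    (P : (MvPolynomial ι (ZMod p) ⊗[ZMod p] B)ˣ) (t : ι → R)
    (i : Fin (Module.finrank (ZMod p) B)) :
    crd ((valP P t : (R ⊗[ZMod p] B)ˣ) : R ⊗[ZMod p] B) i =
      MvPolynomial.aeval t (crd (P : MvPolynomial ι (ZMod p) ⊗[ZMod p] B) i) :=
  crd_tu _ P i

theorem valP_inv {ι R : Type} [CommRing R] [Algebra (ZMod p) R]
    (P : (MvPolynomial ι (ZMod p) ⊗[ZMod p] B)ˣ) (t : ι → R) :
    (valP P t)⁻¹ = valP P⁻¹ t := (map_inv _ P).symm

variable {Ω : Type} [Field Ω] [Algebra (ZMod p) Ω]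

theorem integral_const {x : Ω} (c : ZMod p) :
    IsIntegral (Algebra.adjoin (ZMod p) {x}) (algebraMap (ZMod p) Ω c) := by
  have h1 : IsIntegral (Algebra.adjoin (ZMod p) {x}) (algebraMap (Algebra.adjoin (ZMod p) {x}) Ω
    (algebraMap (ZMod p) _ c)) := isIntegral_algebraMap
  exact h1

theorem integral_aeval {ι : Type} {x : Ω} {τ : ι → Ω}
    (hτ : ∀ i, IsIntegral (Algebra.adjoin (ZMod p) {x}) (τ i)) (f : MvPolynomial ι (ZMod p)) :
    IsIntegral (Algebra.adjoin (ZMod p) {x}) (MvPolynomial.aeval τ f) := by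
  induction f using MvPolynomial.induction_on with
  | C c =>
    rw [MvPolynomial.aeval_C]
    exact integral_const c
  | add f g hf hg =>
    rw [map_add]
    exact hf.add hg
  | mul_X f i hf =>
    rw [map_mul, MvPolynomial.aeval_X]
    exact hf.mul (hτ i)

theorem val_aeval {ι : Type} {V : ValuationSubring Ω} {τ : ι → Ω} {t : ι → Cst p Ω}
    (hm : ∀ i, τ i ∈ V) (h : ∀ i, V.valuation (τ i - (t i : Ω)) < 1)
    (f : MvPolynomial ι (ZMod p)) :
    MvPolynomial.aeval τ f ∈ V ∧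
      V.valuation (MvPolynomial.aeval τ f - ((MvPolynomial.aeval t f : Cst p Ω) : Ω)) < 1 := by
  have hlt : ∀ a b : Ω, a ∈ V → V.valuation b < 1 → V.valuation (a * b) < 1 := by
    intro a b ha hb
    rw [map_mul]
    exact mul_lt_one_of_nonneg_of_lt_one_right ((V.valuation_le_one_iff a).2 ha) zero_le' hb
  induction f using MvPolynomial.induction_on with
  | C c =>
    rw [MvPolynomial.aeval_C, MvPolynomial.aeval_C]
    refine ⟨Cong_prime_mem V c, ?_⟩
    have h1 : ((algebraMap (ZMod p) (Cst p Ω) c : Cst p Ω) : Ω) = algebraMap (ZMod p) Ω c := rfl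
    rw [h1, sub_self, map_zero]
    exact zero_lt_one
  | add f g hf hg =>
    rw [map_add, map_add]
    refine ⟨V.add_mem _ _ hf.1 hg.1, ?_⟩
    have h1 : MvPolynomial.aeval τ f + MvPolynomial.aeval τ g -
        ((MvPolynomial.aeval t f + MvPolynomial.aeval t g : Cst p Ω) : Ω) =
        (MvPolynomial.aeval τ f - ((MvPolynomial.aeval t f : Cst p Ω) : Ω)) +
          (MvPolynomial.aeval τ g - ((MvPolynomial.aeval t g : Cst p Ω) : Ω)) := by
      push_cast
      ring
    rw [h1]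
    exact Valuation.map_add_lt _ hf.2 hg.2
  | mul_X f i hf =>
    rw [map_mul, map_mul, MvPolynomial.aeval_X, MvPolynomial.aeval_X]
    refine ⟨V.mul_mem _ _ hf.1 (hm i), ?_⟩
    have h2 : (t i : Ω) ∈ V := by
      have h3 : (t i : Ω) = τ i - (τ i - (t i : Ω)) := by ring
      rw [h3]
      exact sub_mem (hm i) ((V.valuation_le_one_iff _).1 (h i).le)
    have h1 : MvPolynomial.aeval τ f * τ i -
        ((MvPolynomial.aeval t f * t i : Cst p Ω) : Ω) =
        MvPolynomial.aeval τ f * (τ i - (t i : Ω)) +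
          (t i : Ω) * (MvPolynomial.aeval τ f - ((MvPolynomial.aeval t f : Cst p Ω) : Ω)) := by
      push_cast
      ring
    rw [h1]
    exact Valuation.map_add_lt _ (hlt _ _ hf.1 (h i)) (hlt _ _ h2 hf.2)

end

end LiftWM

open LiftWM

theorem tLiftW (h0 : PresStmt) (_h1 : IntStmt) : LiftWStmt := by
  classical
  intro p _ B _ _ _ 𝒢 Q _ _ ρ ι _ _ P β hW Ω _ _ x hst ψ hψ m₀ r V hV t ht
  have hz0 := fun i : ι => h0 p Ω x hst Q ψ hψ m₀ r V hV (fun j => (t j i : Ω))
    (fun j => (t j i).2) (fun j δ hδ => ht j i δ hδ)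
  choose z hz1 hz2 hz3 hz4 using hz0
  obtain ⟨s, hs⟩ := hψ.hasRightInverse
  have hzS : ∀ i, z i ∈ RQ_S p x ψ := fun i => RQ_mem_S.2 ⟨hz1 i, hz2 i⟩
  obtain ⟨u, hu⟩ : ∃ u : Q → ι → Ω, ∀ q i, u q i = (s q : Ω ≃ₐ[ZMod p] Ω) (z i) :=
    ⟨_, fun _ _ => rfl⟩
  obtain ⟨τ, hτ⟩ : ∃ τ : ι → Ω, τ = ∑ q, mvz (β q) (u q) := ⟨_, rfl⟩
  have hinv : ∀ γ : Gx p x, mvz (β (ψ γ)) (fun i => (γ : Ω ≃ₐ[ZMod p] Ω) (τ i)) = τ := by
    intro γ
    have h1 : (fun i => (γ : Ω ≃ₐ[ZMod p] Ω) (τ i)) = ∑ q, mvz (β q) (u (ψ γ * q)) := by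
      rw [hτ]
      funext i
      rw [Finset.sum_apply, Finset.sum_apply, map_sum]
      refine Finset.sum_congr rfl fun q _ => ?_
      have h2 := congrFun (mvz_map (β q) ((γ : Ω ≃ₐ[ZMod p] Ω) : Ω →+* Ω) (u q)) i
      refine h2.trans ?_
      congr 1
      funext i'
      rw [hu, hu]
      have h3 : (((γ : Ω ≃ₐ[ZMod p] Ω) : Ω →+* Ω) ((s q : Ω ≃ₐ[ZMod p] Ω) (z i'))) =
          ((γ * s q : Gx p x) : Ω ≃ₐ[ZMod p] Ω) (z i') := rfl
      rw [h3]
      refine RQ_eq ?_ (hzS i')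
      rw [map_mul, hs, hs]
    rw [h1, mvz_sum, hτ]
    refine Fintype.sum_equiv (Equiv.mulLeft (ψ γ)) _ _ fun q => ?_
    rw [Equiv.coe_mulLeft, ← mvz_mul, ← map_mul]
  have hint : ∀ i, IsIntegral (Algebra.adjoin (ZMod p) {x}) (τ i) := by
    intro i
    rw [hτ, Finset.sum_apply]
    refine IsIntegral.sum _ fun q _ => ?_
    rw [mvz]
    refine IsIntegral.sum _ fun k _ => ?_
    rw [hu]
    exact (integral_const _).mul (RQ_int (s q) (hz1 k))
  have hval : ∀ j i, (V j).valuation (τ i - (t j i : Ω)) < 1 := by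
    intro j i
    have h1 : τ i - (t j i : Ω) = (z i - (t j i : Ω)) +
        ∑ q ∈ Finset.univ.erase 1, mvz (β q) (u q) i := by
      have h2 : u 1 = z := by
        funext k
        rw [hu]
        exact hz2 k (s 1) (hs 1)
      rw [hτ, Finset.sum_apply, ← Finset.add_sum_erase _ _ (Finset.mem_univ (1 : Q)), map_one,
        mvz_one, h2]
      ring
    rw [h1]
    refine Valuation.map_add_lt _ (hz3 i j) ?_
    refine Valuation.map_sum_lt _ one_ne_zero fun q hq => ?_
    rw [mvz]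
    refine Valuation.map_sum_lt _ one_ne_zero fun k _ => ?_
    rw [map_mul, hu]
    refine mul_lt_one_of_nonneg_of_lt_one_right
      (((V j).valuation_le_one_iff _).2 (Cong_prime_mem _ _)) zero_le' ?_
    refine hz4 k (s q) ?_ j
    rw [hs]
    exact Finset.ne_of_mem_erase hq
  refine ⟨valP P τ, valP_mem hW.mem τ, fun γ => ?_, fun i => ?_, fun i => ?_, fun j i => ?_⟩
  · rw [tu_split, tu_valP]
    rw [← hW.equi]
    congr 1
    exact hinv γ
  · rw [crd_valP]
    exact integral_aeval hint _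
  · rw [valP_inv, crd_valP]
    exact integral_aeval hint _
  · rw [crd_valP, crd_valP]
    exact (val_aeval (fun k => RQ_mem (V j) (hV.mem j) (hint k)) (hval j) _).2

end LG

end MP7Z
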