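import Pool.Agent.Lib.MP_7f581e_Z.LieG.Spec

/-!
# LieG: Lang's theorem, roots, stability and commutation for powers
-/

set_option autoImplicit false

namespace MP7Z

namespace LG

namespace PowAM

open TensorProduct MP7fS MP7fU

variable {p : ℕ} [Fact p.Prime] {B : Type} [Ring B] [Finite B] [Algebra (ZMod p) B]
  {κ : Type} [Fintype κ] [DecidableEq κ]

theorem iter_pwu {𝒢 : LangGp p B} (Φ : 𝒢.End) {R : Type} [CommRing R] [CharP R p]
    [Algebra (ZMod p) R] (m : ℕ) (x : (R ⊗[ZMod p] (κ → B))ˣ) (k : κ) :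
    pwu R (((powE κ Φ).φ R)^[m] x) k = (Φ.φ R)^[m] (pwu R x k) := by
  induction m generalizing x with
  | zero => rfl
  | succ m ih =>
    rw [Function.iterate_succ_apply, Function.iterate_succ_apply, ih, pwu_powE]

theorem lang_of {𝒢 : LangGp p B} (Ψ : (powG κ 𝒢).End) (Φ : 𝒢.End)
    (h : ∀ (k : Type) [Field k] [CharP k p] [Algebra (ZMod p) k],
      ∀ (x : (k ⊗[ZMod p] (κ → B))ˣ) (j : κ), pwu k (Ψ.φ k x) j = Φ.φ k (pwu k x j))
    (hL : Lang Φ) : Lang Ψ := by
  intro k _ _ _ _ g hg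
  rw [mem_powG] at hg
  choose y hy hy' using fun j => hL k (pwu k g j) (hg j)
  refine ⟨(pwu k).symm y, ?_, ?_⟩
  · rw [mem_powG]
    intro j
    rw [MulEquiv.apply_symm_apply]
    exact hy j
  · apply pwu_ext
    intro j
    rw [h k, map_mul, Pi.mul_apply, MulEquiv.apply_symm_apply]
    exact hy' j

end PowAM

open TensorProduct MP7fS MP7fU in
theorem tPowA : PowAStmt := by
  intro p _ B _ _ _ 𝒢 Φ κ _ _
  refine ⟨?_, ?_, ?_, ?_⟩
  · exact PowAM.lang_of (powE κ Φ) Φ fun k _ _ _ x j => pwu_powE Φ x j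
  · intro d
    exact PowAM.lang_of (frEnd (powG κ 𝒢) d) (frEnd 𝒢 d) fun k _ _ _ x j => pwu_fru d x j
  · intro e d hr R _ _ _ x hx
    rw [mem_powG] at hx
    apply pwu_ext
    intro k
    rw [PowAM.iter_pwu, pwu_fru, hr R _ (hx k)]
  · intro A _ α
    refine ⟨?_, ?_⟩
    · intro hs R _ _ w x hx
      rw [mem_powG] at hx ⊢
      intro k
      rw [pwu_act]
      exact hs R _ _ (hx _)
    · intro hc R _ _ _ w x hx
      rw [mem_powG] at hx
      apply pwu_ext
      intro k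
      rw [pwu_powE, pwu_act, pwu_act, pwu_powE, hc R _ _ (hx _)]

end LG

end MP7Z
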