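import Pool.Agent.Lib.MP_7f581e_Z.LieG.Spec

/-!
# Finite groups of Lie type: the points of powers
-/

set_option autoImplicit false

namespace MP7Z

namespace LG

open TensorProduct MP7fS MP7fU

namespace PowPM

theorem perfect_pow {H : Type} [Group H] {κ : Type} [Finite κ] (hH : commutator H = ⊤) :
    commutator (κ → H) = ⊤ := by
  have h1 := Subgroup.commutator_pi_pi_of_finite (η := κ) (Gs := fun _ => H)
    (fun _ => ⊤) (fun _ => ⊤)
  rw [Subgroup.pi_top] at h1
  rw [commutator_def, h1]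
  rw [commutator_def] at hH
  rw [hH, Subgroup.pi_top]

theorem perfect_congr {G H : Type} [Group G] [Group H] (e : G ≃* H) (h : commutator H = ⊤) :
    commutator G = ⊤ := by
  apply Subgroup.map_injective (f := e.toMonoidHom) e.injective
  have h1 : Subgroup.map e.toMonoidHom (⊤ : Subgroup G) = ⊤ :=
    Subgroup.map_top_of_surjective _ e.surjective
  rw [commutator_def, Subgroup.map_commutator, h1, ← commutator_def, h]

variable {p : ℕ} [Fact p.Prime] {B : Type} [Ring B] [Finite B] [Algebra (ZMod p) B]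
  {κ : Type} [Fintype κ] [DecidableEq κ]

theorem mem_iff {𝒢 : LangGp p B} (Φ : 𝒢.End) (b : (κ → B)ˣ) :
    b ∈ (powE κ Φ).pts ↔ ∀ k, MulEquiv.piUnits b k ∈ Φ.pts := by
  constructor
  · rintro ⟨h1, h2⟩ k
    refine ⟨?_, ?_⟩
    · have h3 := mem_powG.1 h1 k
      rwa [pwu_cstu] at h3
    · have h3 := congrArg (fun x => pwu (ZMod p) x k) h2
      change pwu (ZMod p) ((powE κ Φ).φ (ZMod p) (cstu (ZMod p) b)) k =
        pwu (ZMod p) (cstu (ZMod p) b) k at h3
      rwa [pwu_powE, pwu_cstu] at h3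
  · intro h
    refine ⟨?_, ?_⟩
    · rw [mem_powG]
      intro k
      rw [pwu_cstu]
      exact (h k).1
    · apply pwu_ext
      intro k
      rw [pwu_powE, pwu_cstu]
      exact (h k).2

/-- The points of a power. -/
noncomputable def eps {𝒢 : LangGp p B} (Φ : 𝒢.End) : (powE κ Φ).pts ≃* (κ → Φ.pts) where
  toFun b := fun k => ⟨MulEquiv.piUnits b.1 k, (mem_iff Φ b.1).1 b.2 k⟩
  invFun c := ⟨MulEquiv.piUnits.symm fun k => (c k).1, (mem_iff Φ _).2 fun k => by
    rw [MulEquiv.apply_symm_apply]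
    exact (c k).2⟩
  left_inv b := Subtype.ext (by
    change MulEquiv.piUnits.symm (fun k => MulEquiv.piUnits b.1 k) = b.1
    exact MulEquiv.symm_apply_apply _ _)
  right_inv c := by
    funext k
    apply Subtype.ext
    change MulEquiv.piUnits (MulEquiv.piUnits.symm fun k => (c k).1) k = (c k).1
    rw [MulEquiv.apply_symm_apply]
  map_mul' a b := by
    funext k
    apply Subtype.ext
    change MulEquiv.piUnits (a.1 * b.1) k = MulEquiv.piUnits a.1 k * MulEquiv.piUnits b.1 k
    rw [map_mul, Pi.mul_apply]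

end PowPM

theorem tPowP : PowPStmt := by
  intro p _ B _ _ _ 𝒢 Φ κ _ _ hperf
  refine ⟨PowPM.perfect_congr (PowPM.eps Φ) (PowPM.perfect_pow hperf), PowPM.eps Φ, ?_⟩
  intro A _ α h hc h' hc' w b k
  apply Subtype.ext
  exact Units.ext rfl

end LG

end MP7Z
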