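import Pool.Agent.Lib.MP_7f581e_Z.LieG.Spec

/-!
# LieG/PowW: the word for powers
-/

set_option autoImplicit false

namespace MP7Z

namespace LG

open TensorProduct MP7fS

theorem PowWM.zero {p : ℕ} [Fact p.Prime] {B : Type} [Ring B] [Finite B] [Algebra (ZMod p) B]
    {ι : Type} {P : (MvPolynomial ι (ZMod p) ⊗[ZMod p] B)ˣ}
    (h : valP P (fun _ => (0 : ZMod p)) = 1) (R : Type) [CommRing R] [Algebra (ZMod p) R] :
    valP P (fun _ => (0 : R)) = 1 := by
  have h1 := tu_valP P (algebraMap (ZMod p) R) (fun _ => (0 : ZMod p))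
  rw [h, map_one, map_zero] at h1
  exact h1.symm

theorem tPowW : PowWStmt := by
  intro p _ B _ _ _ 𝒢 A _ α ι _ _ P β hW κ _ _
  refine ⟨?_, ?_, ?_, ?_⟩
  · rw [mem_powG]
    intro k
    rw [powP, MulEquiv.apply_symm_apply]
    exact valP_mem hW.mem _
  · apply pwu_ext
    intro k
    rw [pwu_valP, map_one, Pi.one_apply]
    exact hW.zero
  · intro F _ _ _ x hx
    rw [mem_powG] at hx
    -- the subgroup of the families
    let K : Subgroup (κ → (F ⊗[ZMod p] B)ˣ) :=
      (Subgroup.closure (Set.range fun t : κ × ι → F => valP (powP κ P) t)).map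
        (pwu F).toMonoidHom
    have hs : ∀ k : κ, ∀ u ∈ Subgroup.closure (Set.range fun t : ι → F => valP P t),
        Pi.mulSingle k u ∈ K := by
      intro k u hu
      have hle : Subgroup.closure (Set.range fun t : ι → F => valP P t) ≤
          K.comap (MonoidHom.mulSingle (fun _ : κ => (F ⊗[ZMod p] B)ˣ) k) := by
        rw [Subgroup.closure_le]
        rintro _ ⟨t, rfl⟩
        refine ⟨valP (powP κ P) fun x : κ × ι => if x.1 = k then t x.2 else 0,
          Subgroup.subset_closure ⟨_, rfl⟩, ?_⟩
        funext j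
        change pwu F (valP (powP κ P) fun x : κ × ι => if x.1 = k then t x.2 else 0) j =
          (Pi.mulSingle k (valP P t) : κ → (F ⊗[ZMod p] B)ˣ) j
        rw [pwu_valP]
        by_cases hj : j = k
        · subst hj
          rw [Pi.mulSingle_eq_same]
          simp only [if_true]
        · rw [Pi.mulSingle_eq_of_ne hj]
          simp only [if_neg hj]
          exact PowWM.zero hW.zero F
      exact hle hu
    have h1 : pwu F x ∈ K := by
      have h2 : ∀ f : κ → (F ⊗[ZMod p] B)ˣ, (∀ k, Pi.mulSingle k (f k) ∈ K) → f ∈ K :=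
        fun f hf => Subgroup.pi_mem_of_mulSingle_mem f hf
      exact h2 _ fun k => hs k _ (hW.gen F _ (hx k))
    obtain ⟨y, hy, hyx⟩ := h1
    have h3 : y = x := (pwu F).injective hyx
    rwa [h3] at hy
  · intro R _ _ w t
    apply pwu_ext
    intro k
    rw [pwu_valP, pwu_act, pwu_valP, ← hW.equi]
    congr 1
    funext n
    exact mvz_wrMat β w t k n

end LG

end MP7Z
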