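import Pool.Agent.Lib.MP_7f581e_Z.LieG.Spec

/-!
# Finite groups of Lie type: module Sys

The equation `F_d x = a x b` for units of `Λ ⊗ B`, `a`, `b` units of `K ⊗ B`, is a linear system
`x_i ^ (p ^ d) = ∑ M_ij x_j` for the coordinates of `x`, with `M ∈ GL_n(K)`.
-/

set_option autoImplicit false

namespace MP7Z

namespace LG

open TensorProduct MP7fS

namespace SysM

variable {p : ℕ} [Fact p.Prime] {B : Type} [Ring B] [Finite B] [Algebra (ZMod p) B]

/-- The linear map `y ↦ a y b`. -/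
noncomputable def sw {K : Type} [Field K] [Algebra (ZMod p) K] (a b : K ⊗[ZMod p] B) :
    K ⊗[ZMod p] B →ₗ[K] K ⊗[ZMod p] B :=
  (LinearMap.mulLeft K a).comp (LinearMap.mulRight K b)

theorem sw_apply {K : Type} [Field K] [Algebra (ZMod p) K] (a b y : K ⊗[ZMod p] B) :
    sw a b y = a * (y * b) := rfl

theorem sw_comp {K : Type} [Field K] [Algebra (ZMod p) K] (a b : (K ⊗[ZMod p] B)ˣ) :
    (sw (a : K ⊗[ZMod p] B) (b : K ⊗[ZMod p] B)).comp
      (sw ((a⁻¹ : (K ⊗[ZMod p] B)ˣ) : K ⊗[ZMod p] B) ((b⁻¹ : (K ⊗[ZMod p] B)ˣ) : K ⊗[ZMod p] B)) =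
      LinearMap.id := by
  apply LinearMap.ext
  intro y
  rw [LinearMap.comp_apply, sw_apply, sw_apply, LinearMap.id_apply, mul_assoc, mul_assoc,
    Units.inv_mul, mul_one, ← mul_assoc, Units.mul_inv, one_mul]

/-- The matrix of `y ↦ a y b`. -/
noncomputable def gm {K : Type} [Field K] [Algebra (ZMod p) K] (a b : (K ⊗[ZMod p] B)ˣ) :
    GL (Fin (Module.finrank (ZMod p) B)) K where
  val := LinearMap.toMatrix (eb (Module.finBasis (ZMod p) B) K) (eb (Module.finBasis (ZMod p) B) K)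
    (sw (a : K ⊗[ZMod p] B) (b : K ⊗[ZMod p] B))
  inv := LinearMap.toMatrix (eb (Module.finBasis (ZMod p) B) K) (eb (Module.finBasis (ZMod p) B) K)
    (sw ((a⁻¹ : (K ⊗[ZMod p] B)ˣ) : K ⊗[ZMod p] B) ((b⁻¹ : (K ⊗[ZMod p] B)ˣ) : K ⊗[ZMod p] B))
  val_inv := by
    rw [← LinearMap.toMatrix_comp, sw_comp, LinearMap.toMatrix_id]
  inv_val := by
    rw [← LinearMap.toMatrix_comp]
    have h := sw_comp a⁻¹ b⁻¹
    rw [inv_inv, inv_inv] at h
    rw [h, LinearMap.toMatrix_id]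

theorem gm_apply {K : Type} [Field K] [Algebra (ZMod p) K] (a b : (K ⊗[ZMod p] B)ˣ)
    (i j : Fin (Module.finrank (ZMod p) B)) :
    (gm a b : Matrix _ _ K) i j = crd ((a : K ⊗[ZMod p] B) *
      (eb (Module.finBasis (ZMod p) B) K j * (b : K ⊗[ZMod p] B))) i := by
  change LinearMap.toMatrix (eb (Module.finBasis (ZMod p) B) K)
    (eb (Module.finBasis (ZMod p) B) K) (sw (a : K ⊗[ZMod p] B) (b : K ⊗[ZMod p] B)) i j = _
  rw [LinearMap.toMatrix_apply]
  rfl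

theorem crd_sum {R : Type} [CommRing R] [Algebra (ZMod p) R] {ι : Type} (s : Finset ι)
    (v : ι → R) (y : ι → R ⊗[ZMod p] B) (i : Fin (Module.finrank (ZMod p) B)) :
    crd (∑ j ∈ s, v j • y j) i = ∑ j ∈ s, v j * crd (y j) i := by
  unfold crd
  rw [map_sum, Finsupp.finsetSum_apply]
  refine Finset.sum_congr rfl fun j _ => ?_
  rw [map_smul, Finsupp.smul_apply, smul_eq_mul]

end SysM

open SysM

theorem tSys : SysStmt := by
  intro p _ B _ _ _ K Λ _ _ _ _ _ f d a b x hx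
  refine ⟨gm a b, fun i => ?_⟩
  set e := Module.finBasis (ZMod p) B with he
  have h1 : crd (x : Λ ⊗[ZMod p] B) i ^ (p ^ d) =
      crd ((fru d Λ x : (Λ ⊗[ZMod p] B)ˣ) : Λ ⊗[ZMod p] B) i := by
    rw [fru, crd_tu, iterateFrobenius_def]
  rw [h1, hx]
  have h2 : ((tu f (RingHom.id B) a * x * tu f (RingHom.id B) b : (Λ ⊗[ZMod p] B)ˣ) :
      Λ ⊗[ZMod p] B) = ∑ j, crd (x : Λ ⊗[ZMod p] B) j •
        tmap (p := p) f (RingHom.id B) ((a : K ⊗[ZMod p] B) *
          (eb e K j * (b : K ⊗[ZMod p] B))) := by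
    have h3 : (x : Λ ⊗[ZMod p] B) = ∑ j, crd (x : Λ ⊗[ZMod p] B) j • eb e Λ j :=
      (vec_repr e (x : Λ ⊗[ZMod p] B)).symm
    have h4 : ∀ j, eb e Λ j = tmap (p := p) f (RingHom.id B) (eb e K j) := by
      intro j
      rw [eb_apply, eb_apply, tmap_tmul, map_one]
      rfl
    rw [Units.val_mul, Units.val_mul, coe_tu, coe_tu]
    conv_lhs => rw [h3]
    rw [Finset.mul_sum, Finset.sum_mul]
    refine Finset.sum_congr rfl fun j _ => ?_
    rw [mul_smul_comm, smul_mul_assoc, h4, map_mul, map_mul, mul_assoc]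
  rw [h2, crd_sum]
  refine Finset.sum_congr rfl fun j _ => ?_
  rw [crd_tmap, gm_apply, mul_comm]

end LG

end MP7Z
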