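import Pool.Agent.Lib.MP_7f581e_Z.LieG.Spec
import Pool.Agent.Lib.MP_7f581e_Z.Lie.TorO

/-! # TorOW: surjectivity of the Lang torsor homomorphism on the geometric part -/

set_option autoImplicit false

namespace MP7Z

namespace LG

open TensorProduct MP7fS MP7fU

open TorOAux in
theorem tTorOW (h1 : CongStmt) (h2 : CongUStmt) (h3 : IntStmt) (h4 : CloWStmt) : TorOWStmt := by
  intro p _ B _ _ _ 𝒢 Φ e0 hroot Q _ _ ρ hρ hcomm Ω _ _ _ _ x ψ g y Ψ hst hreg hperf hgH hy hyi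
    hyi' hfy hΨr hΨ hcl
  have : IsSepClosed Ω := hst.sepClosed
  -- left components, for elements of `ker ψ`
  have hleft : ∀ γ δ : Gx p x, ψ γ = 1 → (Ψ (γ * δ)).left = (Ψ γ).left * (Ψ δ).left := by
    intro γ δ hγ
    rw [map_mul, SemidirectProduct.mul_left, hΨr, hγ, map_one, MulAut.one_apply]
  let κ : ψ.ker →* Φ.pts := MonoidHom.mk' (fun γ => (Ψ γ).left) (fun γ δ => hleft γ δ γ.2)
  have hκ : ∀ γ, κ γ = (Ψ γ).left := fun _ => rfl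
  -- every conjugacy class
  have hconj : ∀ h : Φ.pts, ∃ k : Φ.pts, k⁻¹ * h * k ∈ κ.range := by
    intro h
    obtain ⟨V, hV, hxV, γ, hγV, hψγ, d, hd, hγd, z, hz, hfz, hgz⟩ := hcl h h.2
    obtain ⟨c1, c2, c3, c4, c5, c6, c7, -⟩ := h1 p B Ω x hst V hV
    obtain ⟨-, -, -, -, i5, -⟩ := h3 p B Ω x
    obtain ⟨u, hu⟩ := h2 p B Ω x hst V hV y (i5 V hxV _ hyi) (i5 V hxV _ hyi')
    obtain ⟨huH, huΦ⟩ := h4 p B 𝒢 Φ Ω x hst V hV y u hy (i5 V hxV _ hyi)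
      (i5 V hxV _ hyi') hu
    have e1 : Φ.φ (Cst p Ω) u = Φ.φ (Cst p Ω) z * z⁻¹ * u := by
      apply Units.ext
      refine c4 _ _ _ huΦ ?_
      rw [hfy]
      exact c1 _ _ _ _ hgz hu
    have hbH : z⁻¹ * u ∈ 𝒢.H (Cst p Ω) := mul_mem (inv_mem hz) huH
    have hbΦ : Φ.φ (Cst p Ω) (z⁻¹ * u) = z⁻¹ * u := by
      rw [Φ.mul _ _ (inv_mem hz) _ huH, Φ.map_inv _ hz, e1]
      group
    obtain ⟨b, hb⟩ := exists_cstu (p := p) (x := z⁻¹ * u) (by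
      rw [← hroot (Cst p Ω) _ hbH]
      exact Function.iterate_fixed hbΦ e0)
    have hu' : u = z * cstu (Cst p Ω) b := by rw [← hb, mul_inv_cancel_left]
    have hbp : b ∈ Φ.pts := by
      rw [mem_pts_iff Φ (K := Cst p Ω), ← hb]
      exact ⟨hbH, hbΦ⟩
    have e2 : tu (cstAut (γ : Ω ≃ₐ[ZMod p] Ω)) (RingHom.id B) u =
        u * cstu (Cst p Ω) ((Ψ γ).left : Bˣ) := by
      apply Units.ext
      have e3 := c5 γ hγV (RingHom.id B) _ _ hu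
      have e4 := hΨ γ
      rw [hψγ, map_one] at e4
      have e5 := congrArg Units.val e4
      have e6 : tmap (p := p) ((γ : Ω ≃ₐ[ZMod p] Ω) : Ω →+* Ω) (RingHom.id B)
          (y : Ω ⊗[ZMod p] B) = (y : Ω ⊗[ZMod p] B) * ((1 : Ω) ⊗ₜ (((Ψ γ).left : Bˣ) : B)) := e5
      rw [e6] at e3
      exact c4 _ _ _ e3 (c1 _ _ _ _ hu (c3 _))
    have e3 : tu (cstAut (γ : Ω ≃ₐ[ZMod p] Ω)) (RingHom.id B) u = fru d (Cst p Ω) u := by
      have e4 : cstAut (γ : Ω ≃ₐ[ZMod p] Ω) = iterateFrobenius (Cst p Ω) p d := by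
        ext c
        rw [coe_cstAut, iterateFrobenius_def, hγd _ c.2]
        rfl
      rw [e4]
      rfl
    have e4 : (Ψ γ).left = ⟨b, hbp⟩⁻¹ * h * ⟨b, hbp⟩ := by
      apply Subtype.ext
      apply cstu_injective (p := p) (R := Cst p Ω)
      have e5 : fru d (Cst p Ω) (cstu (Cst p Ω) b) = cstu (Cst p Ω) b := fru_cstu d b
      have e6 := e2
      rw [e3, hu', map_mul, hfz, e5, mul_assoc, mul_assoc] at e6
      have e7 := mul_left_cancel e6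
      change cstu (Cst p Ω) ((Ψ γ).left : Bˣ) = cstu (Cst p Ω) (b⁻¹ * (h : Bˣ) * b)
      rw [map_mul, map_mul, map_inv, mul_assoc, e7, inv_mul_cancel_left]
    exact ⟨⟨b, hbp⟩, ⟨⟨γ, hψγ⟩, e4⟩⟩
  have : Finite Φ.pts := inferInstance
  have htop : κ.range = ⊤ := jordan _ hconj
  -- the geometric part
  let Δ : Subgroup Φ.pts := (((Fx p (Cst p Ω : Set Ω)).comap (Gx p x).subtype).comap
    ψ.ker.subtype).map κ
  have hΔ : Δ = ⊤ := by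
    rw [eq_top_iff, ← hperf, commutator_eq_closure, Subgroup.closure_le]
    rintro _ ⟨a, b, rfl⟩
    obtain ⟨γ, rfl⟩ : a ∈ κ.range := by rw [htop]; trivial
    obtain ⟨δ, rfl⟩ : b ∈ κ.range := by rw [htop]; trivial
    refine ⟨γ * δ * γ⁻¹ * δ⁻¹, ?_, by
      rw [map_mul, map_mul, map_mul, map_inv, map_inv, commutatorElement_def]⟩
    intro c hc
    have hcst : ∀ (σ : Ω ≃ₐ[ZMod p] Ω) {a : Ω}, a ∈ Cst p Ω → σ a ∈ Cst p Ω := by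
      intro σ a ha
      rw [mem_algebraicClosure_iff] at ha ⊢
      exact IsAlgebraic.algHom (σ : Ω →ₐ[ZMod p] Ω) ha
    have hc' : c ∈ Cst p Ω := hc
    let γ' : Ω ≃ₐ[ZMod p] Ω := ((γ : Gx p x) : Ω ≃ₐ[ZMod p] Ω)
    let δ' : Ω ≃ₐ[ZMod p] Ω := ((δ : Gx p x) : Ω ≃ₐ[ZMod p] Ω)
    change γ' (δ' (γ'⁻¹ (δ'⁻¹ c))) = c
    have e1 : δ' (γ'⁻¹ (δ'⁻¹ c)) = γ'⁻¹ (δ' (δ'⁻¹ c)) := comm_cst δ' γ'⁻¹ (hcst _ hc')
    have e2 : δ' (δ'⁻¹ c) = c := δ'.apply_symm_apply c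
    have e3 : γ' (γ'⁻¹ c) = c := γ'.apply_symm_apply c
    rw [e1, e2, e3]
  intro e
  obtain ⟨γ, hγ, hγe⟩ := hreg e.right
  have h5 : e.left * (Ψ γ).left⁻¹ ∈ Δ := by rw [hΔ]; trivial
  obtain ⟨γ₁, hγ₁, hγ₁'⟩ := h5
  refine ⟨γ₁ * γ, mul_mem hγ₁ hγ, ?_⟩
  refine SemidirectProduct.ext ?_ ?_
  · rw [hleft _ _ γ₁.2, ← hκ, hγ₁', inv_mul_cancel_right]
  · rw [hΨr, map_mul, hγe]
    have h6 : ψ (γ₁ : Gx p x) = 1 := γ₁.2
    rw [h6, one_mul]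

end LG

end MP7Z
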