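import Pool.Agent.Lib.MP_7f581e_Z.LieG.Spec

/-!
# Finite groups of Lie type: a specialization with algebraic dependence is generic
-/

set_option autoImplicit false

namespace MP7Z

namespace LG

namespace TrdM

open MvPolynomial Algebra

private theorem core {k E : Type} [Field k] [Field E] [Algebra k E] {n : ℕ} (a b : Fin n → E)
    (hab : ∀ f : MvPolynomial (Fin n) k, aeval a f = 0 → aeval b f = 0)
    [Algebra.IsAlgebraic (Algebra.adjoin k (Set.range b)) E]
    (f : MvPolynomial (Fin n) k) (hf : aeval b f = 0) : aeval a f = 0 := by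
  obtain ⟨u, hu, hbu⟩ := exists_isTranscendenceBasis_subset (R := k) (Set.range b)
  have hJ' : ∀ y : u, ∃ j, b j = y := fun y => hu y.2
  choose J hJ using hJ'
  have hbJ : (fun y : u => b (J y)) = ((↑) : u → E) := funext hJ
  have ha : AlgebraicIndependent k (fun y : u => a (J y)) := by
    rw [algebraicIndependent_iff]
    intro g hg
    have h1 : aeval a (rename J g) = 0 := by
      rw [aeval_rename]
      exact hg
    have h2 := hab _ h1
    rw [aeval_rename] at h2
    refine (algebraicIndependent_iff.1 hbu.1) g ?_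
    rw [← hbJ]
    exact h2
  have hfin : Finite u := (Set.finite_range b).subset hu
  have ha' : IsTranscendenceBasis k (fun y : u => a (J y)) :=
    ha.isTranscendenceBasis_of_trdeg_le_of_finite (by rw [hbu.cardinalMk_eq_trdeg])
  have := ha'.isAlgebraic
  by_contra hne
  obtain ⟨q, hq0, hq⟩ := (Algebra.IsAlgebraic.isAlgebraic
    (R := Algebra.adjoin k (Set.range fun y : u => a (J y)))
    (aeval a f)).exists_nonzero_coeff_and_aeval_eq_zero (mem_nonZeroDivisors_of_ne_zero hne)
  obtain ⟨Q, hQ⟩ : ∃ Q : Polynomial (MvPolynomial u k),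
      Q = q.map (ha.aevalEquiv.symm : _ →+* MvPolynomial u k) := ⟨_, rfl⟩
  have hqQ : q = Q.map (ha.aevalEquiv : MvPolynomial u k →+* _) := by
    have h6 : (ha.aevalEquiv : MvPolynomial u k →+* _).comp
        (ha.aevalEquiv.symm : _ →+* MvPolynomial u k) = RingHom.id _ :=
      RingHom.ext fun x => ha.aevalEquiv.apply_symm_apply x
    rw [hQ, Polynomial.map_map, h6, Polynomial.map_id]
  obtain ⟨F, hF⟩ : ∃ F : MvPolynomial (Fin n) k,
      F = Q.eval₂ ((rename J : MvPolynomial u k →ₐ[k] MvPolynomial (Fin n) k) :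
        MvPolynomial u k →+* MvPolynomial (Fin n) k) f := ⟨_, rfl⟩
  have hFa : aeval a F = 0 := by
    rw [hF, ← hq, hqQ, Polynomial.aeval_def, Polynomial.eval₂_map]
    change ((aeval a : MvPolynomial (Fin n) k →ₐ[k] E) : MvPolynomial (Fin n) k →+* E) _ = _
    rw [Polynomial.hom_eval₂]
    have h5 : ((aeval a : MvPolynomial (Fin n) k →ₐ[k] E) :
        MvPolynomial (Fin n) k →+* E).comp
        ((rename J : MvPolynomial u k →ₐ[k] MvPolynomial (Fin n) k) :
        MvPolynomial u k →+* MvPolynomial (Fin n) k) =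
        (algebraMap (Algebra.adjoin k (Set.range fun y : u => a (J y))) E).comp
          (ha.aevalEquiv : MvPolynomial u k →+* _) := by
      refine RingHom.ext fun g => ?_
      change aeval a (rename J g) = algebraMap _ E (ha.aevalEquiv g)
      rw [ha.algebraMap_aevalEquiv, aeval_rename]
      rfl
    rw [h5]
    rfl
  have hFb := hab F hFa
  rw [hF] at hFb
  have h3 : aeval b (Q.eval₂ ((rename J : MvPolynomial u k →ₐ[k] MvPolynomial (Fin n) k) :
        MvPolynomial u k →+* MvPolynomial (Fin n) k) f) =
      aeval (fun y : u => b (J y)) (Q.coeff 0) := by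
    change ((aeval b : MvPolynomial (Fin n) k →ₐ[k] E) : MvPolynomial (Fin n) k →+* E) _ = _
    rw [Polynomial.hom_eval₂]
    have h5 : ((aeval b : MvPolynomial (Fin n) k →ₐ[k] E) :
        MvPolynomial (Fin n) k →+* E) f = 0 := hf
    rw [h5, Polynomial.eval₂_at_zero]
    change aeval b (rename J (Q.coeff 0)) = _
    rw [aeval_rename]
    rfl
  rw [h3, hbJ] at hFb
  have h4 := (algebraicIndependent_iff.1 hbu.1) _ hFb
  apply hq0
  rw [hqQ, Polynomial.coeff_map, h4, map_zero]

end TrdM

open MvPolynomial in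
theorem tTrd : TrdStmt := by
  intro k Λ _ _ _ n a b hab halg f hf
  let E := algebraicClosure (IntermediateField.adjoin k (Set.range b)) Λ
  let a' : Fin n → E := fun i => ⟨a i, mem_algebraicClosure_iff.2 (halg i)⟩
  have hb : ∀ i, b i ∈ IntermediateField.adjoin k (Set.range b) := fun i =>
    IntermediateField.subset_adjoin _ _ ⟨i, rfl⟩
  let b' : Fin n → E := fun i => algebraMap (IntermediateField.adjoin k (Set.range b)) E
    ⟨b i, hb i⟩
  let v : E →ₐ[k] Λ := (E.val.restrictScalars k)
  have hv : Function.Injective v := Subtype.val_injective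
  have hva : ∀ g : MvPolynomial (Fin n) k, v (aeval a' g) = aeval a g := by
    intro g
    rw [MvPolynomial.comp_aeval_apply]
    rfl
  have hvb : ∀ g : MvPolynomial (Fin n) k, v (aeval b' g) = aeval b g := by
    intro g
    rw [MvPolynomial.comp_aeval_apply]
    rfl
  have hab' : ∀ g : MvPolynomial (Fin n) k, aeval a' g = 0 → aeval b' g = 0 := by
    intro g hg
    apply hv
    rw [hvb, map_zero]
    apply hab
    rw [← hva, hg, map_zero]
  have hmap : (Algebra.adjoin k (Set.range b')).map v = Algebra.adjoin k (Set.range b) := by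
    rw [AlgHom.map_adjoin, ← Set.range_comp]
    rfl
  have hmem : ∀ z : Algebra.adjoin k (Set.range b'), v z ∈ Algebra.adjoin k (Set.range b) := by
    intro z
    rw [← hmap]
    exact ⟨z, z.2, rfl⟩
  let w : Algebra.adjoin k (Set.range b') →ₐ[k] Algebra.adjoin k (Set.range b) :=
    (v.comp (Algebra.adjoin k (Set.range b')).val).codRestrict _ hmem
  have hw : Function.Surjective w := by
    rintro ⟨z, hz⟩
    rw [← hmap] at hz
    obtain ⟨y, hy, rfl⟩ := hz
    exact ⟨⟨y, hy⟩, rfl⟩
  have halg' : Algebra.IsAlgebraic (Algebra.adjoin k (Set.range b')) E := by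
    refine ⟨fun z => ?_⟩
    have h1 : IsAlgebraic (IntermediateField.adjoin k (Set.range b)) (v z) :=
      mem_algebraicClosure_iff.1 z.2
    rw [IntermediateField.isAlgebraic_adjoin_iff] at h1
    exact h1.of_ringHom_of_comp_eq (w : _ →+* _) (v : E →+* Λ) hw hv (RingHom.ext fun _ => rfl)
  have h := TrdM.core a' b' hab' f (hv (by rw [hvb, map_zero]; exact hf))
  rw [← hva, h, map_zero]

end LG

end MP7Z
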