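import Pool.Agent.Lib.MP_7f581e_Z.Lie.All
import Pool.Agent.Lib.MP_7f581e_Z.LieG.CloW
import Pool.Agent.Lib.MP_7f581e_Z.LieG.Des
import Pool.Agent.Lib.MP_7f581e_Z.LieG.GelW
import Pool.Agent.Lib.MP_7f581e_Z.LieG.GenF
import Pool.Agent.Lib.MP_7f581e_Z.LieG.Gpt
import Pool.Agent.Lib.MP_7f581e_Z.LieG.Grp
import Pool.Agent.Lib.MP_7f581e_Z.LieG.IntW
import Pool.Agent.Lib.MP_7f581e_Z.LieG.Irr
import Pool.Agent.Lib.MP_7f581e_Z.LieG.L3W
import Pool.Agent.Lib.MP_7f581e_Z.LieG.LangG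
import Pool.Agent.Lib.MP_7f581e_Z.LieG.LangW
import Pool.Agent.Lib.MP_7f581e_Z.LieG.LieG
import Pool.Agent.Lib.MP_7f581e_Z.LieG.LiftAllW
import Pool.Agent.Lib.MP_7f581e_Z.LieG.LiftW
import Pool.Agent.Lib.MP_7f581e_Z.LieG.PowA
import Pool.Agent.Lib.MP_7f581e_Z.LieG.PowP
import Pool.Agent.Lib.MP_7f581e_Z.LieG.PowW
import Pool.Agent.Lib.MP_7f581e_Z.LieG.Sys
import Pool.Agent.Lib.MP_7f581e_Z.LieG.TorOW
import Pool.Agent.Lib.MP_7f581e_Z.LieG.TorSW
import Pool.Agent.Lib.MP_7f581e_Z.LieG.TorW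
import Pool.Agent.Lib.MP_7f581e_Z.LieG.Trd
import Pool.Agent.Lib.MP_7f581e_Z.Types.AllLie

/-!
# Step Lie for the simple groups of Lie type, complete
-/

set_option autoImplicit false

namespace MP7Z

namespace LG

/-- **The theorem of Lang and Steinberg.** -/
theorem lg_langW : LangWStmt := tLangW tSys tDes (tLangG tSys tIrr tTrd tGpt)

theorem lg_liftAllW : LiftAllWStmt := tLiftAllW lie_cong lie_int tGenF (tLiftW lie_pres lie_int)

theorem lg_gelW : GelWStmt := tGelW br_cst lie_fam lie_decF lg_liftAllW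

/-- **The Lang torsor theorem** for endomorphisms. -/
theorem lg_l3W : L3WStmt :=
  tL3W lg_gelW tTorW (tIntW lie_int) (tTorSW lie_cong (tCongU lie_cong) lie_int)
    (tTorOW lie_cong (tCongU lie_cong) lie_int (tCloW br_res))

end LG

/-- **Step Lie for the simple groups of Lie type in characteristic `p`.** -/
theorem lieStep_lieType (p : ℕ) [Fact p.Prime] :
    LieStep p (fun S [Group S] => IsLieType p S) :=
  LG.tLieG LG.lg_langW LG.lg_l3W LG.tPowA LG.tPowW LG.tPowP LG.tGrp p (solvStmt p)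

end MP7Z
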