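import Mathlib

/-!
# The simple groups of Lie type

`GL_n(R)` for commutative `𝔽_p`-algebras `R`; a polynomial map `P : 𝔸^N → GL_n`; the Zariski
closure `H` of its image, assumed to be a group; an endomorphism `Φ` of `H`, a root of the
Frobenius endomorphism; the finite group `{g ∈ H(𝔽_p) : Φ(g) = g}`.

Example: `G` a simply connected (quasi-split) simple algebraic group over `𝔽_q`, `H` its Weil
restriction to `𝔽_p`, `P` a product of parametrizations of the unipotent radicals of two opposite
Borel subgroups, `Φ` the Frobenius endomorphism (for the groups of Suzuki and Ree `Φ` is a square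
root of the Frobenius endomorphism), `C` the group of diagonal, field and graph automorphisms,
`H ⋊ C` embedded in `GL_n`.
-/

set_option autoImplicit false

namespace MP7Z

open Matrix

/-- `GL_n(R)`. -/
abbrev GLn (n : ℕ) (R : Type) [CommRing R] : Type := GL (Fin n) R

/-- The entries of an element of `GL_n(R)`. -/
def ent {n : ℕ} {R : Type} [CommRing R] (x : GLn n R) (k : Fin n × Fin n) : R :=
  x.val k.1 k.2

/-- The homomorphism `GL_n(R) → GL_n(R')` given by a homomorphism of rings. -/
noncomputable def glMap {n : ℕ} {R R' : Type} [CommRing R] [CommRing R'] (f : R →+* R')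
    (x : GLn n R) : GLn n R' :=
  GeneralLinearGroup.map f x

/-- The conjugate `a x a⁻¹ ∈ GL_n(R)` of `x ∈ GL_n(R)` by `a ∈ GL_n(𝔽_p)`. -/
noncomputable def glConj {p n : ℕ} {R : Type} [CommRing R] [Algebra (ZMod p) R]
    (a : GLn n (ZMod p)) (x : GLn n R) : GLn n R :=
  glMap (algebraMap (ZMod p) R) a * x * (glMap (algebraMap (ZMod p) R) a)⁻¹

/-- The linear map `R^N → R^N` given by `b ∈ GL_N(𝔽_p)`. -/
def glLin {p N : ℕ} {R : Type} [CommRing R] [Algebra (ZMod p) R] (b : GLn N (ZMod p))
    (t : Fin N → R) (i : Fin N) : R :=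
  ∑ j, algebraMap (ZMod p) R (ent b (i, j)) * t j

/-- Polynomial maps `𝔸^N → GL_n` over `𝔽_p`. -/
abbrev PMap (p N n : ℕ) : Type := GLn n (MvPolynomial (Fin N) (ZMod p))

/-- The value at `t ∈ R^N` of the polynomial map `P : 𝔸^N → GL_n`. -/
noncomputable def glVal {p N n : ℕ} (P : PMap p N n) {R : Type} [CommRing R]
    [Algebra (ZMod p) R] (t : Fin N → R) : GLn n R :=
  glMap (MvPolynomial.aeval t).toRingHom P

/-- `x ∈ H(R)`: the element `x` of `GL_n(R)` belongs to the Zariski closure `H` of the image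
of `P`. -/
def InCl {p N n : ℕ} (P : PMap p N n) {R : Type} [CommRing R] [Algebra (ZMod p) R]
    (x : GLn n R) : Prop :=
  ∀ f : MvPolynomial (Fin n × Fin n) (ZMod p),
    MvPolynomial.aeval (ent P) f = 0 → MvPolynomial.aeval (ent x) f = 0

/-- The Zariski closure `H` of the image of `P` is a group, `P(0) = 1`, and for all finite fields
`F ⊇ 𝔽_p` the group `H(F)` is generated by the values of `P`. -/
structure IsGp {p N n : ℕ} (P : PMap p N n) : Prop where
  one : glVal P (fun _ => (0 : ZMod p)) = 1
  mul : ∀ (R : Type) [CommRing R] [Algebra (ZMod p) R] (x y : GLn n R),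
    InCl P x → InCl P y → InCl P (x * y⁻¹)
  gen : ∀ (F : Type) [Field F] [Finite F] [Algebra (ZMod p) F] (x : GLn n F), InCl P x →
    x ∈ Subgroup.closure (Set.range fun t : Fin N → F => glVal P t)

/-- Families of maps `GL_n(R) → GL_n(R)`, one for each commutative `𝔽_p`-algebra `R`. -/
structure EMap (p n : ℕ) where
  ap : ∀ (R : Type) [CommRing R] [Algebra (ZMod p) R], GLn n R → GLn n R

/-- `Φ` is a natural endomorphism of `H` (its values outside of `H` are irrelevant), and `Φ ^ e` is
the Frobenius endomorphism for some `e > 0`. -/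
structure IsRoot {p N n : ℕ} (P : PMap p N n) (Φ : EMap p n) : Prop where
  mem : ∀ (R : Type) [CommRing R] [Algebra (ZMod p) R] (x : GLn n R), InCl P x →
    InCl P (Φ.ap R x)
  mul : ∀ (R : Type) [CommRing R] [Algebra (ZMod p) R] (x y : GLn n R), InCl P x → InCl P y →
    Φ.ap R (x * y) = Φ.ap R x * Φ.ap R y
  nat : ∀ (R R' : Type) [CommRing R] [Algebra (ZMod p) R] [CommRing R'] [Algebra (ZMod p) R']
    (f : R →+* R') (x : GLn n R), InCl P x → Φ.ap R' (glMap f x) = glMap f (Φ.ap R x)
  root : ∃ e : ℕ, 0 < e ∧ ∀ (R : Type) [CommRing R] [Algebra (ZMod p) R] (x : GLn n R),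
    InCl P x → ∀ k, ent ((Φ.ap R)^[e] x) k = ent x k ^ p

/-- `ι : X → GL_n(𝔽_p)` is injective with image `{g ∈ H(𝔽_p) : Φ(g) = g}`, and `X` is perfect. -/
structure IsPts {p N n : ℕ} (P : PMap p N n) (Φ : EMap p n) {X : Type} [Group X]
    (ι : X →* GLn n (ZMod p)) : Prop where
  inj : Function.Injective ι
  range : ∀ g, (∃ x, ι x = g) ↔ InCl P g ∧ Φ.ap (ZMod p) g = g
  perf : commutator X = ⊤

/-- `C` is solvable, and acts on `H` (by conjugation with `α(c)`) and on the affine space (by the
linear maps `β(c)`) such that `P` and `Φ` are equivariant. -/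
structure IsSym {p N n : ℕ} (P : PMap p N n) (Φ : EMap p n) {C : Type} [Group C]
    (α : C →* GLn n (ZMod p)) (β : C →* GLn N (ZMod p)) : Prop where
  solv : Group.IsSolvable C
  equi : ∀ (c : C) (R : Type) [CommRing R] [Algebra (ZMod p) R] (t : Fin N → R),
    glVal P (glLin (β c) t) = glConj (α c) (glVal P t)
  comm : ∀ (c : C) (R : Type) [CommRing R] [Algebra (ZMod p) R] (x : GLn n R), InCl P x →
    Φ.ap R (glConj (α c) x) = glConj (α c) (Φ.ap R x)

/-- `π : X → S` is onto, and every automorphism of `S` is induced by an element of `C` up to inner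
automorphisms. -/
structure IsQuo {p n : ℕ} {X C S : Type} [Group X] [Group C] [Group S] (ι : X →* GLn n (ZMod p))
    (α : C →* GLn n (ZMod p)) (π : X →* S) : Prop where
  surj : Function.Surjective π
  aut : ∀ σ : S ≃* S, ∃ (s : S) (c : C), ∀ x y : X, ι y = glConj (α c) (ι x) →
    σ (π x) = s * π y * s⁻¹

/-- The simple groups of Lie type in characteristic `p`: simple quotients `S` of the perfect groups
`X = {g ∈ H(𝔽_p) : Φ(g) = g}` such that every automorphism of `S` is induced, up to inner
automorphisms, by an element of a finite solvable group `C` of symmetries of `P` and `Φ`. -/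
def OfLieType (p : ℕ) (S : Type) [Group S] : Prop :=
  IsSimpleGroup S ∧ ∃ (N n : ℕ) (P : PMap p N n) (Φ : EMap p n)
    (X : Type) (_ : Group X) (ι : X →* GLn n (ZMod p)) (π : X →* S)
    (C : Type) (_ : Group C) (_ : Finite C) (α : C →* GLn n (ZMod p)) (β : C →* GLn N (ZMod p)),
    IsGp P ∧ IsRoot P Φ ∧ IsPts P Φ ι ∧ IsSym P Φ α β ∧ IsQuo ι α π

end MP7Z
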