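import Pool.Agent.Lib.MP_7f581e_Z.LieG.Main
import Pool.Agent.Lib.MP_7f581e_Z.Fin.Reg

/-!
# The Lang torsor theorem without conditions on ramification

Every epimorphism `ψ` of finite level from the absolute Galois group of `𝔽_p(x)` to `Q` lifts to an
epimorphism to `Φ.pts ⋊ Q`.
-/

set_option autoImplicit false

namespace MP7Z

namespace LG

open TensorProduct MP7fS MP7fU

open TorOAux in
/-- Surjectivity of the homomorphism given by a Lang torsor. -/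
theorem surj_of_classes (h1 : CongStmt) (h2 : CongUStmt) (h3 : IntStmt) (h4 : CloWStmt)
    (p : ℕ) [Fact p.Prime] (B : Type) [Ring B] [Finite B] [Algebra (ZMod p) B]
    (𝒢 : LangGp p B) (Φ : 𝒢.End) (e0 : ℕ) (hroot : Φ.Root e0 1)
    (Q : Type) [Group Q] [Finite Q] (ρ : Q →* (B ≃+* B)) (hρ : 𝒢.Stable ρ) (hcomm : Φ.Comm ρ)
    (Ω : Type) [Field Ω] [Algebra (ZMod p) Ω] [CharP Ω p] [CharP (Cst p Ω) p] (x : Ω)
    (ψ : Gx p x →* Q) (g y : (Ω ⊗[ZMod p] B)ˣ) (Ψ : Gx p x →* Φ.pts ⋊[Φ.act ρ hρ hcomm] Q)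
    (hst : IsStage p x) (hsurj : Function.Surjective ψ) (hgH : g ∈ 𝒢.H Ω) (hy : y ∈ 𝒢.H Ω)
    (hyi : IntX x (y : Ω ⊗[ZMod p] B))
    (hyi' : IntX x ((y⁻¹ : (Ω ⊗[ZMod p] B)ˣ) : Ω ⊗[ZMod p] B)) (hfy : Φ.φ Ω y = g * y)
    (hΨr : ∀ γ, (Ψ γ).right = ψ γ)
    (hΨ : ∀ γ : Gx p x, tu ((γ : Ω ≃ₐ[ZMod p] Ω) : Ω →+* Ω) (ρ (ψ γ) : B →+* B) y =
      y * cstu Ω ((Ψ γ).left : Bˣ))
    (hcl : ∀ h ∈ Φ.pts, ∃ V : ValuationSubring Ω, V ≠ ⊤ ∧ x ∈ V ∧ ∃ γ : Gx p x,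
      (γ : Ω ≃ₐ[ZMod p] Ω) ∈ Dec p V ∧ ψ γ = 1 ∧ ∃ d : ℕ, 0 < d ∧
      (∀ c ∈ Cst p Ω, (γ : Ω ≃ₐ[ZMod p] Ω) c = c ^ (p ^ d)) ∧
      ∃ z ∈ 𝒢.H (Cst p Ω), fru d (Cst p Ω) z = z * cstu (Cst p Ω) h ∧
        Cong V (g : Ω ⊗[ZMod p] B)
          ((Φ.φ (Cst p Ω) z * z⁻¹ : (Cst p Ω ⊗[ZMod p] B)ˣ) : Cst p Ω ⊗[ZMod p] B)) :
    Function.Surjective Ψ := by
  have : IsSepClosed Ω := hst.sepClosed
  -- left components, for elements of `ker ψ`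
  have hleft : ∀ γ δ : Gx p x, ψ γ = 1 → (Ψ (γ * δ)).left = (Ψ γ).left * (Ψ δ).left := by
    intro γ δ hγ
    rw [map_mul, SemidirectProduct.mul_left, hΨr, hγ, map_one, MulAut.one_apply]
  let κ : ψ.ker →* Φ.pts := MonoidHom.mk' (fun γ => (Ψ γ).left) (fun γ δ => hleft γ δ γ.2)
  have hκ : ∀ γ, κ γ = (Ψ γ).left := fun _ => rfl
  -- every conjugacy class
  have hconj : ∀ h : Φ.pts, ∃ k : Φ.pts, k⁻¹ * h * k ∈ κ.range := by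
    intro h
    obtain ⟨V, hV, hxV, γ, hγV, hψγ, d, hd, hγd, z, hz, hfz, hgz⟩ := hcl h h.2
    obtain ⟨c1, c2, c3, c4, c5, c6, c7, -⟩ := h1 p B Ω x hst V hV
    obtain ⟨-, -, -, -, i5, -⟩ := h3 p B Ω x
    obtain ⟨u, hu⟩ := h2 p B Ω x hst V hV y (i5 V hxV _ hyi) (i5 V hxV _ hyi')
    obtain ⟨huH, huΦ⟩ := h4 p B 𝒢 Φ Ω x hst V hV y u hy (i5 V hxV _ hyi)
      (i5 V hxV _ hyi') hu
    have e1 : Φ.φ (Cst p Ω) u = Φ.φ (Cst p Ω) z * z⁻¹ * u := by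
      apply Units.ext
      refine c4 _ _ _ huΦ ?_
      rw [hfy]
      exact c1 _ _ _ _ hgz hu
    have hbH : z⁻¹ * u ∈ 𝒢.H (Cst p Ω) := mul_mem (inv_mem hz) huH
    have hbΦ : Φ.φ (Cst p Ω) (z⁻¹ * u) = z⁻¹ * u := by
      rw [Φ.mul _ _ (inv_mem hz) _ huH, Φ.map_inv _ hz, e1]
      group
    obtain ⟨b, hb⟩ := exists_cstu (p := p) (x := z⁻¹ * u) (by
      rw [← hroot (Cst p Ω) _ hbH]
      exact Function.iterate_fixed hbΦ e0)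
    have hu' : u = z * cstu (Cst p Ω) b := by rw [← hb, mul_inv_cancel_left]
    have hbp : b ∈ Φ.pts := by
      rw [mem_pts_iff Φ (K := Cst p Ω), ← hb]
      exact ⟨hbH, hbΦ⟩
    have e2 : tu (cstAut (γ : Ω ≃ₐ[ZMod p] Ω)) (RingHom.id B) u =
        u * cstu (Cst p Ω) ((Ψ γ).left : Bˣ) := by
      apply Units.ext
      have e3 := c5 γ hγV (RingHom.id B) _ _ hu
      have e4 := hΨ γ
      rw [hψγ, map_one] at e4
      have e5 := congrArg Units.val e4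
      have e6 : tmap (p := p) ((γ : Ω ≃ₐ[ZMod p] Ω) : Ω →+* Ω) (RingHom.id B)
          (y : Ω ⊗[ZMod p] B) = (y : Ω ⊗[ZMod p] B) * ((1 : Ω) ⊗ₜ (((Ψ γ).left : Bˣ) : B)) := e5
      rw [e6] at e3
      exact c4 _ _ _ e3 (c1 _ _ _ _ hu (c3 _))
    have e3 : tu (cstAut (γ : Ω ≃ₐ[ZMod p] Ω)) (RingHom.id B) u = fru d (Cst p Ω) u := by
      have e4 : cstAut (γ : Ω ≃ₐ[ZMod p] Ω) = iterateFrobenius (Cst p Ω) p d := by
        ext c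
        rw [coe_cstAut, iterateFrobenius_def, hγd _ c.2]
        rfl
      rw [e4]
      rfl
    have e4 : (Ψ γ).left = ⟨b, hbp⟩⁻¹ * h * ⟨b, hbp⟩ := by
      apply Subtype.ext
      apply cstu_injective (p := p) (R := Cst p Ω)
      have e5 : fru d (Cst p Ω) (cstu (Cst p Ω) b) = cstu (Cst p Ω) b := fru_cstu d b
      have e6 := e2
      rw [e3, hu', map_mul, hfz, e5, mul_assoc, mul_assoc] at e6
      have e7 := mul_left_cancel e6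
      change cstu (Cst p Ω) ((Ψ γ).left : Bˣ) = cstu (Cst p Ω) (b⁻¹ * (h : Bˣ) * b)
      rw [map_mul, map_mul, map_inv, mul_assoc, e7, inv_mul_cancel_left]
    exact ⟨⟨b, hbp⟩, ⟨⟨γ, hψγ⟩, e4⟩⟩
  have : Finite Φ.pts := inferInstance
  have htop : κ.range = ⊤ := jordan _ hconj
  intro e
  obtain ⟨γ, hγe⟩ := hsurj e.right
  have h5 : e.left * (Ψ γ).left⁻¹ ∈ κ.range := by rw [htop]; trivial
  obtain ⟨γ₁, hγ₁'⟩ := h5
  refine ⟨γ₁ * γ, ?_⟩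
  refine SemidirectProduct.ext ?_ ?_
  · rw [hleft _ _ γ₁.2, ← hκ, hγ₁', inv_mul_cancel_right]
  · rw [hΨr, map_mul, hγe]
    have h6 : ψ (γ₁ : Gx p x) = 1 := γ₁.2
    rw [h6, one_mul]

/-- **The Lang torsor theorem**, without conditions on ramification. -/
theorem lang_torsor (p : ℕ) [Fact p.Prime] (B : Type) [Ring B] [Finite B] [Algebra (ZMod p) B]
    (𝒢 : LangGp p B) (Φ : 𝒢.End) (e : ℕ) (hroot : Φ.Root e 1) (hL : Lang Φ)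
    (hLF : ∀ d, 0 < d → Lang (frEnd 𝒢 d))
    (Q : Type) [Group Q] [Fintype Q] (ρ : Q →* (B ≃+* B)) (hρ : 𝒢.Stable ρ)
    (hc : Φ.Comm ρ) (ι : Type) [Fintype ι] [DecidableEq ι]
    (P : (MvPolynomial ι (ZMod p) ⊗[ZMod p] B)ˣ) (β : Q →* Matrix ι ι (ZMod p))
    (hW : Word 𝒢 ρ P β) (Ω : Type) [Field Ω] [Algebra (ZMod p) Ω] (x : Ω) (hst : IsStage p x)
    (ψ : Gx p x →* Q) (hfin : FinLevel ψ) (hsurj : Function.Surjective ψ) :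
    ∃ Ψ : Gx p x →* Φ.pts ⋊[Φ.act ρ hρ hc] Q, FinLevel Ψ ∧ Function.Surjective Ψ ∧
      ∀ γ, (Ψ γ).right = ψ γ := by
  have : CharP Ω p := charP_of_injective_algebraMap (algebraMap (ZMod p) Ω).injective p
  have : CharP (Cst p Ω) p :=
    charP_of_injective_algebraMap (algebraMap (ZMod p) (Cst p Ω)).injective p
  have : IsSepClosed Ω := hst.sepClosed
  obtain ⟨g, hgH, hinv, hgi, hgi', hpl⟩ := lg_gelW p B 𝒢 Φ hLF Q ρ ι P β hW Ω x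
    hst ψ hfin hsurj
  obtain ⟨y, hyH, hy⟩ := hL Ω g hgH
  obtain ⟨hyi, hyi'⟩ := tIntW lie_int p B 𝒢 Φ e hroot Ω x g hgH y hyH hgi hgi' hy
  obtain ⟨Ψ, hΨf, hΨr, hΨy⟩ := tTorW p B 𝒢 Φ e hroot Q ρ hρ hc Ω x ψ g y hfin hinv hgH hyH hy
  exact ⟨Ψ, hΨf, surj_of_classes lie_cong (tCongU lie_cong) lie_int (tCloW br_res) p B 𝒢 Φ e
    hroot Q ρ hρ hc Ω x ψ g y Ψ hst hsurj hgH hyH hyi hyi' hy hΨr hΨy hpl, hΨr⟩

end LG

end MP7Z
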