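import Pool.Agent.Lib.MP_7f581e_Z.Lie.Defs

/-!
# Finite groups of Lie type: definitions

A group functor `H` over `𝔽_p` which is the Zariski closure of the image of a polynomial map
`P : 𝔸^N → Bˣ`, `B` a finite `𝔽_p`-algebra, with an endomorphism `Φ`, `Φ ^ e` = Frobenius, and the
finite group `{g ∈ H(𝔽_p) : Φ(g) = g}`.
-/

set_option autoImplicit false

namespace MP7Z

open TensorProduct MP7fS

section

variable {p : ℕ} [Fact p.Prime] {B : Type} [Ring B] [Finite B] [Algebra (ZMod p) B]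

/-- The value at `t ∈ R^ι` of a polynomial map `P` from the affine space to `Bˣ`. -/
noncomputable def valP {ι R : Type} [CommRing R] [Algebra (ZMod p) R]
    (P : (MvPolynomial ι (ZMod p) ⊗[ZMod p] B)ˣ) (t : ι → R) : (R ⊗[ZMod p] B)ˣ :=
  tu (MvPolynomial.aeval t : MvPolynomial ι (ZMod p) →ₐ[ZMod p] R).toRingHom (RingHom.id B) P

/-- A matrix over the prime field applied to a vector over `R`. -/
def mvz {ι R : Type} [Fintype ι] [CommRing R] [Algebra (ZMod p) R] (M : Matrix ι ι (ZMod p))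
    (t : ι → R) : ι → R :=
  fun i => ∑ j, algebraMap (ZMod p) R (M i j) * t j

/-- A natural endomorphism of a group functor (the values outside of `H(R)` are irrelevant). -/
structure LangGp.End (𝒢 : LangGp p B) where
  φ : ∀ (R : Type) [CommRing R] [CharP R p] [Algebra (ZMod p) R],
    (R ⊗[ZMod p] B)ˣ → (R ⊗[ZMod p] B)ˣ
  mem : ∀ (R : Type) [CommRing R] [CharP R p] [Algebra (ZMod p) R], ∀ x ∈ 𝒢.H R, φ R x ∈ 𝒢.H R
  mul : ∀ (R : Type) [CommRing R] [CharP R p] [Algebra (ZMod p) R], ∀ x ∈ 𝒢.H R, ∀ y ∈ 𝒢.H R,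
    φ R (x * y) = φ R x * φ R y
  nat : ∀ (R R' : Type) [CommRing R] [CharP R p] [Algebra (ZMod p) R] [CommRing R'] [CharP R' p]
    [Algebra (ZMod p) R'] (f : R →+* R'), ∀ x ∈ 𝒢.H R,
    φ R' (tu f (RingHom.id B) x) = tu f (RingHom.id B) (φ R x)

/-- `Φ ^ e` is the `d`-th power of the Frobenius endomorphism. -/
def LangGp.End.Root {𝒢 : LangGp p B} (Φ : 𝒢.End) (e d : ℕ) : Prop :=
  ∀ (R : Type) [CommRing R] [CharP R p] [Algebra (ZMod p) R], ∀ x ∈ 𝒢.H R,
    (Φ.φ R)^[e] x = fru d R x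

/-- `Φ` commutes with automorphisms of `B`. -/
def LangGp.End.Comm {𝒢 : LangGp p B} (Φ : 𝒢.End) {Q : Type} [Group Q] (ρ : Q →* (B ≃+* B)) :
    Prop :=
  ∀ (R : Type) [CommRing R] [CharP R p] [Algebra (ZMod p) R] (q : Q), ∀ x ∈ 𝒢.H R,
    Φ.φ R (tu (RingHom.id R) (ρ q : B →+* B) x) = tu (RingHom.id R) (ρ q : B →+* B) (Φ.φ R x)

theorem LangGp.End.map_one {𝒢 : LangGp p B} (Φ : 𝒢.End) (R : Type) [CommRing R] [CharP R p]
    [Algebra (ZMod p) R] : Φ.φ R 1 = 1 := by
  have h := Φ.mul R 1 (one_mem _) 1 (one_mem _)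
  rw [mul_one] at h
  exact left_eq_mul.mp h

theorem LangGp.End.map_inv {𝒢 : LangGp p B} (Φ : 𝒢.End) (R : Type) [CommRing R] [CharP R p]
    [Algebra (ZMod p) R] {x : (R ⊗[ZMod p] B)ˣ} (hx : x ∈ 𝒢.H R) : Φ.φ R x⁻¹ = (Φ.φ R x)⁻¹ := by
  have h := Φ.mul R x hx x⁻¹ (inv_mem hx)
  rw [mul_inv_cancel, Φ.map_one] at h
  exact (inv_eq_of_mul_eq_one_right h.symm).symm

/-- The finite group `{b ∈ H(𝔽_p) : Φ(b) = b}`. -/
noncomputable def LangGp.End.pts {𝒢 : LangGp p B} (Φ : 𝒢.End) : Subgroup Bˣ where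
  carrier := {b | cstu (ZMod p) b ∈ 𝒢.H (ZMod p) ∧
    Φ.φ (ZMod p) (cstu (ZMod p) b) = cstu (ZMod p) b}
  one_mem' := by
    refine ⟨?_, ?_⟩
    · rw [_root_.map_one]
      exact one_mem _
    · rw [_root_.map_one, Φ.map_one]
  mul_mem' := by
    rintro a b ⟨ha, ha'⟩ ⟨hb, hb'⟩
    refine ⟨?_, ?_⟩
    · rw [_root_.map_mul]
      exact mul_mem ha hb
    · rw [_root_.map_mul, Φ.mul _ _ ha _ hb, ha', hb']
  inv_mem' := by
    rintro a ⟨ha, ha'⟩
    refine ⟨?_, ?_⟩
    · rw [_root_.map_inv]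
      exact inv_mem ha
    · rw [_root_.map_inv, Φ.map_inv _ ha, ha']

theorem LangGp.End.mem_pts {𝒢 : LangGp p B} (Φ : 𝒢.End) {b : Bˣ} : b ∈ Φ.pts ↔
    cstu (ZMod p) b ∈ 𝒢.H (ZMod p) ∧ Φ.φ (ZMod p) (cstu (ZMod p) b) = cstu (ZMod p) b := Iff.rfl

theorem tu_cstu_zmod {Q : Type} [Group Q] (ρ : Q →* (B ≃+* B)) (q : Q) (b : Bˣ) :
    tu (p := p) (RingHom.id (ZMod p)) (ρ q : B →+* B) (cstu (ZMod p) b) =
      cstu (ZMod p) (uact ρ q b) := Units.ext rfl

theorem LangGp.End.pts_act {𝒢 : LangGp p B} (Φ : 𝒢.End) {Q : Type} [Group Q]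
    {ρ : Q →* (B ≃+* B)} (h : 𝒢.Stable ρ) (hc : Φ.Comm ρ) (q : Q) {b : Bˣ} (hb : b ∈ Φ.pts) :
    uact ρ q b ∈ Φ.pts := by
  refine ⟨?_, ?_⟩
  · rw [← tu_cstu_zmod]
    exact h (ZMod p) q _ hb.1
  · rw [← tu_cstu_zmod, hc (ZMod p) q _ hb.1, hb.2]

/-- The action of `Q` on the group of points. -/
noncomputable def LangGp.End.act {𝒢 : LangGp p B} (Φ : 𝒢.End) {Q : Type} [Group Q]
    (ρ : Q →* (B ≃+* B)) (h : 𝒢.Stable ρ) (hc : Φ.Comm ρ) : Q →* MulAut Φ.pts where
  toFun q :=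
    { toFun := fun b => ⟨uact ρ q b.1, Φ.pts_act h hc q b.2⟩
      invFun := fun b => ⟨uact ρ q⁻¹ b.1, Φ.pts_act h hc q⁻¹ b.2⟩
      left_inv := fun b => by
        apply Subtype.ext
        change uact ρ q⁻¹ (uact ρ q b.1) = b.1
        rw [← MulAut.mul_apply, ← _root_.map_mul, inv_mul_cancel, _root_.map_one,
          MulAut.one_apply]
      right_inv := fun b => by
        apply Subtype.ext
        change uact ρ q (uact ρ q⁻¹ b.1) = b.1
        rw [← MulAut.mul_apply, ← _root_.map_mul, mul_inv_cancel, _root_.map_one,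
          MulAut.one_apply]
      map_mul' := fun a b => Subtype.ext (_root_.map_mul (uact ρ q) a.1 b.1) }
  map_one' := by
    ext b
    change (uact ρ 1 b.1 : Bˣ).1 = _
    rw [_root_.map_one]
    rfl
  map_mul' q q' := by
    ext b
    change (uact ρ (q * q') b.1 : Bˣ).1 = _
    rw [_root_.map_mul]
    rfl

theorem LangGp.End.coe_act {𝒢 : LangGp p B} (Φ : 𝒢.End) {Q : Type} [Group Q]
    {ρ : Q →* (B ≃+* B)} (h : 𝒢.Stable ρ) (hc : Φ.Comm ρ) (q : Q) (b : Φ.pts) :
    ((Φ.act ρ h hc q b : Φ.pts) : Bˣ) = uact ρ q (b : Bˣ) := rfl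

end

/-- The data which define a finite group of Lie type in characteristic `p`.

Example: `G` a simply connected (quasi-split) simple algebraic group over `𝔽_q`, `H` its Weil
restriction to `𝔽_p`, embedded in the units of `B = ∏ End(V_i)`, `V_i` irreducible representations,
`Φ` the Frobenius endomorphism (`e = 1`), `P` a product of parametrizations of the unipotent radicals
of two opposite Borel subgroups, `A` the group of diagonal, field and graph automorphisms.  For the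
groups of Suzuki and Ree `Φ` is a square root of the Frobenius endomorphism. -/
structure LieDatum (p : ℕ) [Fact p.Prime] where
  /-- A finite `𝔽_p`-algebra. -/
  B : Type
  [ring : Ring B]
  [fin : Finite B]
  [alg : Algebra (ZMod p) B]
  /-- A group functor `R ↦ H(R) ≤ (R ⊗ B)ˣ` on commutative `𝔽_p`-algebras. -/
  H : LangGp p B
  N : ℕ
  /-- A polynomial map from the affine space of dimension `N` to `Bˣ`. -/
  P : (MvPolynomial (Fin N) (ZMod p) ⊗[ZMod p] B)ˣ
  /-- `H` is the Zariski closure of the image of `P`. -/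
  closure : ∀ (R : Type) [CommRing R] [Algebra (ZMod p) R] (x : (R ⊗[ZMod p] B)ˣ),
    x ∈ H.H R ↔ ∀ f : MvPolynomial (Fin (Module.finrank (ZMod p) B)) (ZMod p),
      MvPolynomial.aeval (crd (P : MvPolynomial (Fin N) (ZMod p) ⊗[ZMod p] B)) f = 0 →
      MvPolynomial.aeval (crd (x : R ⊗[ZMod p] B)) f = 0
  zero : valP P (fun _ => (0 : ZMod p)) = 1
  /-- For finite fields `F` the group `H(F)` is generated by the values of `P`. -/
  gen : ∀ (F : Type) [Field F] [Algebra (ZMod p) F] [Finite F], ∀ x ∈ H.H F,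
    x ∈ Subgroup.closure (Set.range fun t : Fin N → F => valP P t)
  /-- An endomorphism, a root of the Frobenius endomorphism. -/
  Φ : H.End
  e : ℕ
  e_pos : 0 < e
  root : Φ.Root e 1
  /-- The finite group `{g ∈ H(𝔽_p) : Φ(g) = g}` is perfect. -/
  perf : commutator Φ.pts = ⊤
  /-- A solvable group of automorphisms of `B` which stabilizes `H`, commutes with `Φ`, and acts
  linearly on the affine space such that `P` is equivariant. -/
  A : Type
  [grp : Group A]
  [finA : Finite A]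
  solv : Group.IsSolvable A
  α : A →* (B ≃+* B)
  stab : H.Stable α
  comm : Φ.Comm α
  β : A →* Matrix (Fin N) (Fin N) (ZMod p)
  equi : ∀ (R : Type) [CommRing R] [Algebra (ZMod p) R] (a : A) (t : Fin N → R),
    valP P (mvz (β a) t) = tu (RingHom.id R) (α a : B →+* B) (valP P t)

attribute [instance] LieDatum.ring LieDatum.fin LieDatum.alg LieDatum.grp LieDatum.finA

/-- The simple groups of Lie type in characteristic `p` (see `LieDatum`): simple quotients of
`{g ∈ H(𝔽_p) : Φ(g) = g}` whose automorphisms are induced by elements of `A`, up to inner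
automorphisms. -/
def IsLieType (p : ℕ) [Fact p.Prime] (S : Type) [Group S] : Prop :=
  IsSimpleGroup S ∧ ∃ (D : LieDatum p) (π : D.Φ.pts →* S), Function.Surjective π ∧
    ∀ σ : S ≃* S, ∃ (s : S) (a : D.A), ∀ b,
      σ (π b) = s * π (D.Φ.act D.α D.stab D.comm a b) * s⁻¹

theorem IsLieType.congr {p : ℕ} [Fact p.Prime] {S T : Type} [Group S] [Group T] (e : S ≃* T)
    (h : IsLieType p S) : IsLieType p T := by
  obtain ⟨h1, D, π, h2, h3⟩ := h
  refine ⟨MulEquiv.isSimpleGroup e.symm, D, e.toMonoidHom.comp π, e.surjective.comp h2, ?_⟩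
  intro σ
  obtain ⟨s, a, h4⟩ := h3 ((e.trans σ).trans e.symm)
  refine ⟨e s, a, fun b => ?_⟩
  have h5 := congrArg e (h4 b)
  rw [map_mul, map_mul, map_inv] at h5
  change e (e.symm (σ (e (π b)))) = _ at h5
  rw [MulEquiv.apply_symm_apply] at h5
  exact h5

end MP7Z
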