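import Pool.Agent.Lib.MP_7f581e_Z.LieG.Spec
import Pool.Agent.Lib.MP_7f581e_ntL.Z1

/-!
# Finite groups of Lie type: the theorem of Lang and Steinberg, generic version
-/

set_option autoImplicit false

namespace MP7Z

namespace LG

open TensorProduct MP7fS

namespace LangGM

private theorem iter_form {p : ℕ} [Fact p.Prime] {B : Type} [Ring B] [Finite B]
    [Algebra (ZMod p) B] {𝒢 : LangGp p B} (Φ : 𝒢.End) {K R : Type} [CommRing K] [CharP K p]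
    [Algebra (ZMod p) K] [CommRing R] [CharP R p] [Algebra (ZMod p) R] (f : K →+* R)
    {g x : (K ⊗[ZMod p] B)ˣ} (hg : g ∈ 𝒢.H K) (hx : x ∈ 𝒢.H K) {y : (R ⊗[ZMod p] B)ˣ}
    (hy : y ∈ 𝒢.H R)
    (h : Φ.φ R y = tu f (RingHom.id B) g * y * tu f (RingHom.id B) x) (m : ℕ) :
    ∃ G ∈ 𝒢.H K, ∃ X ∈ 𝒢.H K,
      (Φ.φ R)^[m] y = tu f (RingHom.id B) G * y * tu f (RingHom.id B) X := by
  induction m with
  | zero =>
    refine ⟨1, one_mem _, 1, one_mem _, ?_⟩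
    rw [map_one, one_mul, mul_one]
    rfl
  | succ m ih =>
    obtain ⟨G, hG, X, hX, h1⟩ := ih
    refine ⟨Φ.φ K G * g, mul_mem (Φ.mem K G hG) hg, x * Φ.φ K X, mul_mem hx (Φ.mem K X hX), ?_⟩
    rw [Function.iterate_succ_apply', h1,
      Φ.mul R _ (mul_mem (𝒢.map K R f G hG) hy) _ (𝒢.map K R f X hX),
      Φ.mul R _ (𝒢.map K R f G hG) _ hy, h, Φ.nat K R f G hG, Φ.nat K R f X hX, map_mul, map_mul]
    simp only [mul_assoc]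

end LangGM

theorem tLangG (h0 : SysStmt) (h1 : IrrStmt) (h2 : TrdStmt) (h3 : GptStmt) : LangGStmt := by
  intro p _ B _ _ _ 𝒢 ι P hP Φ e d hd hroot k Λ _ _ _ _ _ _ _ _ t ht g hg
  have hPm : P ∈ 𝒢.H (MvPolynomial ι (ZMod p)) := (hP _ P).2 fun f h => h
  have hη : valP P t ∈ 𝒢.H Λ := valP_mem hPm t
  obtain ⟨η, rfl⟩ : ∃ η, η = valP P t := ⟨_, rfl⟩
  have hgΛ : tu (algebraMap k Λ) (RingHom.id B) g ∈ 𝒢.H Λ := 𝒢.map _ _ _ _ hg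
  obtain ⟨ξ, hξe⟩ : ∃ ξ, ξ = (Φ.φ Λ (valP P t))⁻¹ * tu (algebraMap k Λ) (RingHom.id B) g *
      valP P t := ⟨_, rfl⟩
  have hξ : ξ ∈ 𝒢.H Λ := by
    rw [hξe]
    exact mul_mem (mul_mem (inv_mem (Φ.mem Λ _ hη)) hgΛ) hη
  have hΦη : Φ.φ Λ (valP P t) =
      tu (algebraMap k Λ) (RingHom.id B) g * valP P t * ξ⁻¹ := by
    rw [hξe]
    group
  let K₀ : IntermediateField k Λ :=
    IntermediateField.adjoin k (Set.range fun i => crd (ξ : Λ ⊗[ZMod p] B) i)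
  have : CharP K₀ p := (algebraMap K₀ Λ).charP (algebraMap K₀ Λ).injective p
  let _ : Algebra (ZMod p) K₀ := ZMod.algebra K₀ p
  have hK₀ : ∀ i, crd (ξ : Λ ⊗[ZMod p] B) i ∈ K₀ := fun i =>
    IntermediateField.subset_adjoin _ _ ⟨i, rfl⟩
  obtain ⟨ξ₀, hξ₀⟩ := exists_unit (algebraMap K₀ Λ) ξ fun i => ⟨⟨_, hK₀ i⟩, rfl⟩
  have hξ₀m : ξ₀ ∈ 𝒢.H K₀ :=
    𝒢.inj _ _ (algebraMap K₀ Λ) (algebraMap K₀ Λ).injective _ (by rw [hξ₀]; exact hξ)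
  have hg₀ : tu (algebraMap k K₀) (RingHom.id B) g ∈ 𝒢.H K₀ := 𝒢.map _ _ _ _ hg
  have e1 : ∀ K : IntermediateField k Λ, ∀ [Algebra (ZMod p) K],
      tu (algebraMap K Λ) (RingHom.id B) (tu (algebraMap k K) (RingHom.id B) g) =
      tu (algebraMap k Λ) (RingHom.id B) g := by
    intro K _
    rw [tu_tu]
    rfl
  obtain ⟨G, hG, X, hX, hGX⟩ := LangGM.iter_form Φ (algebraMap K₀ Λ) hg₀ (inv_mem hξ₀m) hη
    (by rw [e1, map_inv, hξ₀, hΦη]) e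
  rw [hroot Λ _ hη] at hGX
  obtain ⟨M, hM⟩ := h0 p B K₀ Λ (algebraMap K₀ Λ) d G X (valP P t) hGX
  have halg : ∀ i, IsAlgebraic K₀ (crd ((valP P t : (Λ ⊗[ZMod p] B)ˣ) : Λ ⊗[ZMod p] B) i) :=
    fun i => (MP7fZ.isIntegral_of_system
      (Nat.one_lt_pow hd.ne' (Fact.out : p.Prime).one_lt) hM i).isAlgebraic
  have hrel := h1 p B ι P k Λ t ht ξ ((hP Λ ξ).1 hξ)
  have hrel' := h2 k Λ _ (crd ((valP P t : (Λ ⊗[ZMod p] B)ˣ) : Λ ⊗[ZMod p] B))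
    (crd (ξ : Λ ⊗[ZMod p] B)) hrel halg
  obtain ⟨K₁, θ, hηK, hξK, hθ⟩ := h3 k Λ _ (crd ((valP P t : (Λ ⊗[ZMod p] B)ˣ) : Λ ⊗[ZMod p] B))
    (crd (ξ : Λ ⊗[ZMod p] B)) (fun f => ⟨hrel f, hrel' f⟩) halg
  have : CharP K₁ p := (algebraMap K₁ Λ).charP (algebraMap K₁ Λ).injective p
  let _ : Algebra (ZMod p) K₁ := ZMod.algebra K₁ p
  obtain ⟨η', hη'⟩ := exists_unit (algebraMap K₁ Λ) (valP P t) fun i => ⟨⟨_, hηK i⟩, rfl⟩
  obtain ⟨ξ', hξ'⟩ := exists_unit (algebraMap K₁ Λ) ξ fun i => ⟨⟨_, hξK i⟩, rfl⟩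
  have hη'm : η' ∈ 𝒢.H K₁ :=
    𝒢.inj _ _ (algebraMap K₁ Λ) (algebraMap K₁ Λ).injective _ (by rw [hη']; exact hη)
  have hg₁ : tu (algebraMap k K₁) (RingHom.id B) g ∈ 𝒢.H K₁ := 𝒢.map _ _ _ _ hg
  have hE : Φ.φ K₁ η' = tu (algebraMap k K₁) (RingHom.id B) g * η' * ξ'⁻¹ := by
    apply tu_injective (p := p) (B := B) (algebraMap K₁ Λ).injective
    rw [← Φ.nat _ _ _ _ hη'm, map_mul, map_mul, map_inv, hη', hξ', e1, hΦη]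
  have hθξ : tu (θ : K₁ →+* Λ) (RingHom.id B) ξ' = valP P t := by
    apply Units.ext
    apply crd_ext
    intro i
    rw [crd_tu, ← hθ i]
    change θ _ = θ _
    congr 1
    apply Subtype.ext
    change algebraMap K₁ Λ (crd ξ'.val i) = crd (ξ : Λ ⊗[ZMod p] B) i
    rw [← crd_tu, hξ']
  refine ⟨tu (θ : K₁ →+* Λ) (RingHom.id B) η', 𝒢.map _ _ _ _ hη'm, ?_⟩
  rw [Φ.nat _ _ _ _ hη'm, hE, map_mul, map_mul, map_inv, hθξ, inv_mul_cancel_right, tu_tu]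
  have h6 : (θ : K₁ →+* Λ).comp (algebraMap k K₁) = algebraMap k Λ :=
    RingHom.ext fun c => θ.commutes c
  rw [h6]
  rfl

end LG

end MP7Z
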