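import Pool.Agent.Lib.MP_7f581e_Z.LieG.Basic

/-!
# Powers of group functors, and the wreath product
-/

set_option autoImplicit false
set_option linter.unusedSectionVars false

namespace MP7Z

namespace LG

open TensorProduct MP7fS MP7fU

section wreath

variable {κ : Type} {A : Type} [Group A]

/-- The action of the permutations of `κ` on `κ → A`. -/
def prm (κ A : Type) [Group A] : Equiv.Perm κ →* MulAut (κ → A) where
  toFun σ :=
    { toFun := fun a i => a (σ.symm i)
      invFun := fun a i => a (σ i)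
      left_inv := fun a => by
        funext i
        change a (σ.symm (σ i)) = a i
        rw [Equiv.symm_apply_apply]
      right_inv := fun a => by
        funext i
        change a (σ (σ.symm i)) = a i
        rw [Equiv.apply_symm_apply]
      map_mul' := fun _ _ => rfl }
  map_one' := rfl
  map_mul' _ _ := rfl

/-- The wreath product. -/
abbrev WrG (κ A : Type) [Group A] : Type := (κ → A) ⋊[prm κ A] Equiv.Perm κ

theorem WrG.mul_left (w w' : WrG κ A) (i : κ) :
    (w * w').left i = w.left i * w'.left (w.right.symm i) := rfl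

theorem WrG.mul_symm (w w' : WrG κ A) (i : κ) :
    (w * w').right.symm i = w'.right.symm (w.right.symm i) := rfl

instance [Finite κ] [Finite A] : Finite (WrG κ A) :=
  Finite.of_equiv ((κ → A) × Equiv.Perm κ) (SemidirectProduct.equivProd (φ := prm κ A)).symm

variable {B : Type} [Ring B]

/-- The action of the wreath product on `κ → B`. -/
def wrAct (κ : Type) (α : A →* (B ≃+* B)) : WrG κ A →* ((κ → B) ≃+* (κ → B)) where
  toFun w :=
    { toFun := fun b i => α (w.left i) (b (w.right.symm i))
      invFun := fun b j => α (w.left (w.right j))⁻¹ (b (w.right j))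
      left_inv := fun b => by
        funext j
        change α (w.left (w.right j))⁻¹ (α (w.left (w.right j)) (b (w.right.symm (w.right j)))) = _
        rw [Equiv.symm_apply_apply, ← RingAut.mul_apply, ← map_mul, inv_mul_cancel, map_one]
        rfl
      right_inv := fun b => by
        funext i
        change α (w.left i) (α (w.left (w.right (w.right.symm i)))⁻¹
          (b (w.right (w.right.symm i)))) = _
        rw [Equiv.apply_symm_apply, ← RingAut.mul_apply, ← map_mul, mul_inv_cancel, map_one]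
        rfl
      map_mul' := fun a b => by
        funext i
        exact map_mul _ _ _
      map_add' := fun a b => by
        funext i
        exact map_add _ _ _ }
  map_one' := by
    ext1 b
    funext i
    change α 1 (b i) = b i
    rw [map_one]
    rfl
  map_mul' w w' := by
    ext1 b
    funext i
    change α (w.left i * w'.left (w.right.symm i)) (b (w'.right.symm (w.right.symm i))) =
      α (w.left i) (α (w'.left (w.right.symm i)) (b (w'.right.symm (w.right.symm i))))
    rw [map_mul]
    rfl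

theorem wrAct_apply (α : A →* (B ≃+* B)) (w : WrG κ A) (b : κ → B) (i : κ) :
    wrAct κ α w b i = α (w.left i) (b (w.right.symm i)) := rfl

variable {R : Type} [CommRing R] {ι : Type} [Fintype ι] [DecidableEq ι] [Fintype κ]
  [DecidableEq κ]

/-- The matrices of the wreath product on `(κ × ι) → R`. -/
def wrMat (κ : Type) [Fintype κ] [DecidableEq κ] (β : A →* Matrix ι ι R) :
    WrG κ A →* Matrix (κ × ι) (κ × ι) R where
  toFun w := Matrix.of fun x y => if y.1 = w.right.symm x.1 then β (w.left x.1) x.2 y.2 else 0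
  map_one' := by
    ext x y
    rw [Matrix.of_apply]
    change (if y.1 = x.1 then β 1 x.2 y.2 else 0) = _
    rw [map_one, Matrix.one_apply, Matrix.one_apply]
    by_cases h1 : y.1 = x.1
    · rw [if_pos h1]
      by_cases h2 : x.2 = y.2
      · rw [if_pos h2, if_pos (Prod.ext h1.symm h2)]
      · rw [if_neg h2, if_neg (fun h => h2 (congrArg Prod.snd h))]
    · rw [if_neg h1, if_neg (fun h => h1 (congrArg Prod.fst h).symm)]
  map_mul' w w' := by
    ext x y
    rw [Matrix.of_apply, Matrix.mul_apply, Fintype.sum_prod_type,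
      Finset.sum_eq_single (w.right.symm x.1)]
    · simp only [Matrix.of_apply, if_true, WrG.mul_symm, WrG.mul_left, map_mul, Matrix.mul_apply]
      by_cases h : y.1 = w'.right.symm (w.right.symm x.1)
      · simp only [if_pos h]
      · simp only [if_neg h, mul_zero, Finset.sum_const_zero]
    · intro j _ hj
      refine Finset.sum_eq_zero fun m _ => ?_
      rw [Matrix.of_apply, if_neg hj, zero_mul]
    · intro h
      exact absurd (Finset.mem_univ _) h

theorem wrMat_apply (β : A →* Matrix ι ι R) (w : WrG κ A) (x y : κ × ι) :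
    wrMat κ β w x y = if y.1 = w.right.symm x.1 then β (w.left x.1) x.2 y.2 else 0 := rfl

theorem mvz_wrMat {p : ℕ} [Fact p.Prime] [Algebra (ZMod p) R] (β : A →* Matrix ι ι (ZMod p))
    (w : WrG κ A) (t : κ × ι → R) (i : κ) (n : ι) :
    mvz (wrMat κ β w) t (i, n) = mvz (β (w.left i)) (fun m => t (w.right.symm i, m)) n := by
  rw [mvz, mvz, Fintype.sum_prod_type, Finset.sum_eq_single (w.right.symm i)]
  · refine Finset.sum_congr rfl fun m _ => ?_
    rw [wrMat_apply, if_pos rfl]
  · intro j _ hj
    refine Finset.sum_eq_zero fun m _ => ?_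
    rw [wrMat_apply, if_neg hj, map_zero, zero_mul]
  · intro h
    exact absurd (Finset.mem_univ _) h

end wreath

section power

variable {p : ℕ} [Fact p.Prime] {B : Type} [Ring B] [Finite B] [Algebra (ZMod p) B]
  {κ : Type} [Fintype κ] [DecidableEq κ]

/-- Units of `R ⊗ (κ → B)`. -/
noncomputable def pwu (R : Type) [CommRing R] [Algebra (ZMod p) R] :
    (R ⊗[ZMod p] (κ → B))ˣ ≃* (κ → (R ⊗[ZMod p] B)ˣ) :=
  (Units.mapEquiv (Algebra.TensorProduct.piRight (ZMod p) (ZMod p) R
    (fun _ : κ => B)).toRingEquiv.toMulEquiv).trans MulEquiv.piUnits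

theorem coe_pwu (R : Type) [CommRing R] [Algebra (ZMod p) R] (x : (R ⊗[ZMod p] (κ → B))ˣ)
    (k : κ) : ((pwu R x k : (R ⊗[ZMod p] B)ˣ) : R ⊗[ZMod p] B) =
      Algebra.TensorProduct.piRight (ZMod p) (ZMod p) R (fun _ : κ => B)
        (x : R ⊗[ZMod p] (κ → B)) k := rfl

variable {R S : Type} [CommRing R] [Algebra (ZMod p) R] [CommRing S] [Algebra (ZMod p) S]

theorem pwu_ext {x y : (R ⊗[ZMod p] (κ → B))ˣ} (h : ∀ k, pwu R x k = pwu R y k) : x = y :=
  (pwu R).injective (funext h)

theorem piRight_tmap (f : R →+* S) (g : (κ → B) →+* (κ → B)) (g' : κ → (B →+* B)) (s : κ → κ)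
    (hg : ∀ b k, g b k = g' k (b (s k))) (x : R ⊗[ZMod p] (κ → B)) (k : κ) :
    Algebra.TensorProduct.piRight (ZMod p) (ZMod p) S (fun _ : κ => B) (tmap f g x) k =
      tmap f (g' k) (Algebra.TensorProduct.piRight (ZMod p) (ZMod p) R (fun _ : κ => B) x
        (s k)) := by
  induction x using TensorProduct.induction_on with
  | zero => simp only [map_zero, Pi.zero_apply]
  | tmul r b =>
    rw [tmap_tmul, Algebra.TensorProduct.piRight_tmul, Algebra.TensorProduct.piRight_tmul,
      tmap_tmul, ← hg]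
  | add x y hx hy => simp only [map_add, Pi.add_apply, hx, hy]

theorem pwu_tu (f : R →+* S) (x : (R ⊗[ZMod p] (κ → B))ˣ) (k : κ) :
    pwu S (tu f (RingHom.id (κ → B)) x) k = tu f (RingHom.id B) (pwu R x k) :=
  Units.ext (piRight_tmap f _ (fun _ => RingHom.id B) id (fun _ _ => rfl) _ k)

theorem pwu_act {A : Type} [Group A] (α : A →* (B ≃+* B)) (w : WrG κ A)
    (x : (R ⊗[ZMod p] (κ → B))ˣ) (k : κ) :
    pwu R (tu (RingHom.id R) (wrAct κ α w : (κ → B) →+* (κ → B)) x) k =
      tu (RingHom.id R) (α (w.left k) : B →+* B) (pwu R x (w.right.symm k)) :=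
  Units.ext (piRight_tmap (RingHom.id R) _ (fun k => (α (w.left k) : B →+* B))
    (fun k => w.right.symm k) (fun _ _ => rfl) _ k)

theorem pwu_cstu (b : (κ → B)ˣ) (k : κ) :
    pwu (p := p) R (cstu (p := p) R b) k = cstu R (MulEquiv.piUnits b k) := Units.ext rfl

/-- The power of a group functor. -/
noncomputable def powG (κ : Type) [Fintype κ] [DecidableEq κ] (𝒢 : LangGp p B) :
    LangGp p (κ → B) where
  H R := (Subgroup.pi Set.univ fun _ => 𝒢.H R).comap (pwu R).toMonoidHom
  map R R' := by
    intro _ _ _ _ f x hx k hk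
    change pwu R' (tu f (RingHom.id (κ → B)) x) k ∈ _
    rw [pwu_tu]
    exact 𝒢.map R R' f _ (hx k hk)
  inj R R' := by
    intro _ _ _ _ f hf x hx k hk
    have h := hx k hk
    change pwu R' (tu f (RingHom.id (κ → B)) x) k ∈ _ at h
    rw [pwu_tu] at h
    exact 𝒢.inj R R' f hf _ h

theorem mem_powG {𝒢 : LangGp p B} {x : (R ⊗[ZMod p] (κ → B))ˣ} :
    x ∈ (powG κ 𝒢).H R ↔ ∀ k, pwu R x k ∈ 𝒢.H R :=
  ⟨fun h k => h k (Set.mem_univ k), fun h k _ => h k⟩

/-- The power of an endomorphism. -/
noncomputable def powE (κ : Type) [Fintype κ] [DecidableEq κ] {𝒢 : LangGp p B} (Φ : 𝒢.End) :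
    (powG κ 𝒢).End where
  φ R := fun x => (pwu R).symm fun k => Φ.φ R (pwu R x k)
  mem R := by
    intro _ _ _ x hx
    rw [mem_powG] at hx ⊢
    intro k
    rw [MulEquiv.apply_symm_apply]
    exact Φ.mem R _ (hx k)
  mul R := by
    intro _ _ _ x hx y hy
    rw [mem_powG] at hx hy
    apply pwu_ext
    intro k
    rw [MulEquiv.apply_symm_apply, map_mul, map_mul, MulEquiv.apply_symm_apply,
      MulEquiv.apply_symm_apply, Pi.mul_apply, Pi.mul_apply, Φ.mul R _ (hx k) _ (hy k)]
  nat R R' := by
    intro _ _ _ _ _ _ f x hx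
    rw [mem_powG] at hx
    apply pwu_ext
    intro k
    rw [MulEquiv.apply_symm_apply, pwu_tu, pwu_tu, MulEquiv.apply_symm_apply,
      Φ.nat R R' f _ (hx k)]

theorem pwu_powE {𝒢 : LangGp p B} (Φ : 𝒢.End) [CharP R p] (x : (R ⊗[ZMod p] (κ → B))ˣ)
    (k : κ) : pwu R ((powE κ Φ).φ R x) k = Φ.φ R (pwu R x k) := by
  change pwu R ((pwu R).symm fun k => Φ.φ R (pwu R x k)) k = _
  rw [MulEquiv.apply_symm_apply]

theorem pwu_fru [CharP R p] (d : ℕ) (x : (R ⊗[ZMod p] (κ → B))ˣ) (k : κ) :
    pwu R (fru d R x) k = fru d R (pwu R x k) := pwu_tu _ x k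

/-- The power of a polynomial map. -/
noncomputable def powP (κ : Type) [Fintype κ] [DecidableEq κ] {ι : Type}
    (P : (MvPolynomial ι (ZMod p) ⊗[ZMod p] B)ˣ) :
    (MvPolynomial (κ × ι) (ZMod p) ⊗[ZMod p] (κ → B))ˣ :=
  (pwu _).symm fun k => valP P fun i => (MvPolynomial.X (k, i) : MvPolynomial (κ × ι) (ZMod p))

theorem pwu_valP {ι : Type} (P : (MvPolynomial ι (ZMod p) ⊗[ZMod p] B)ˣ) (t : κ × ι → R)
    (k : κ) : pwu R (valP (powP κ P) t) k = valP P fun i => t (k, i) := by
  change pwu R (tu _ (RingHom.id (κ → B)) (powP κ P)) k = _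
  rw [pwu_tu, powP, MulEquiv.apply_symm_apply, tu_valP]
  congr 1
  funext i
  exact MvPolynomial.aeval_X t (k, i)

end power

end LG

end MP7Z
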