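import Pool.Agent.Lib.MP_7f581e_Z.LieG.Pow
import Pool.Agent.Lib.MP_7f581e_Z.Lie.Spec
import Pool.Agent.Lib.MP_7f581e_Z.Fin.Solv

/-!
# Finite groups of Lie type: statements with complete proofs in the docstrings

Each `def XStmt : Prop` is one Lean task: file `LieG/X.lean`, import this file (and the files named
in the docstring), `theorem tX : XStmt` in the namespace `MP7Z.LG`; statements listed under *Uses*
are hypotheses of `tX`, in the given order.  Basic lemmas are in `LieG/Basic.lean` (`crd_tu`,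
`tu_tu`, `tu_split`, `tu_injective`, `exists_unit` (descent of units), `exists_cstu` (fixed units of
the Frobenius), `fru_tu`, `fru_cstu`, `tu_cstu`, `tu_valP`, `valP_mem`, `aeval_crd_tu`, `mvz_*`,
`iter_*`, `phi_fru`, `cstu_mem`, `mem_pts_iff`, `frEnd`), and in `LieG/Pow.lean` (powers `powG`,
`powE`, `powP`, the wreath product `WrG`, `wrAct`, `wrMat`, `pwu_*`, `mvz_wrMat`).

Notation: `F_d = fru d R` (Frobenius `c ↦ c ^ (p ^ d)` on the coordinates), `Φ` an endomorphism of the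
functor `H = 𝒢.H`, `n = dim B`, coordinates `crd`; for a ring homomorphism `f : R → R'` we write `f x`
for `tu f id x`.
-/

set_option autoImplicit false

namespace MP7Z

namespace LG

open TensorProduct MP7fS

/-- Lang's theorem for an endomorphism, over separably closed fields. -/
def Lang {p : ℕ} [Fact p.Prime] {B : Type} [Ring B] [Finite B] [Algebra (ZMod p) B]
    {𝒢 : LangGp p B} (Φ : 𝒢.End) : Prop :=
  ∀ (k : Type) [Field k] [CharP k p] [Algebra (ZMod p) k] [IsSepClosed k],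
    ∀ g ∈ 𝒢.H k, ∃ y ∈ 𝒢.H k, Φ.φ k y = g * y

/-- `H` is the Zariski closure of the image of `P`. -/
def Closure {p : ℕ} [Fact p.Prime] {B : Type} [Ring B] [Finite B] [Algebra (ZMod p) B]
    (𝒢 : LangGp p B) {ι : Type} (P : (MvPolynomial ι (ZMod p) ⊗[ZMod p] B)ˣ) : Prop :=
  ∀ (R : Type) [CommRing R] [Algebra (ZMod p) R] (x : (R ⊗[ZMod p] B)ˣ),
    x ∈ 𝒢.H R ↔ ∀ f : MvPolynomial (Fin (Module.finrank (ZMod p) B)) (ZMod p),
      MvPolynomial.aeval (crd (P : MvPolynomial ι (ZMod p) ⊗[ZMod p] B)) f = 0 →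
      MvPolynomial.aeval (crd (x : R ⊗[ZMod p] B)) f = 0

/-- A generating polynomial map, equivariant for `Q`. -/
structure Word {p : ℕ} [Fact p.Prime] {B : Type} [Ring B] [Finite B] [Algebra (ZMod p) B]
    (𝒢 : LangGp p B) {Q : Type} [Group Q] (ρ : Q →* (B ≃+* B)) {ι : Type} [Fintype ι]
    [DecidableEq ι] (P : (MvPolynomial ι (ZMod p) ⊗[ZMod p] B)ˣ)
    (β : Q →* Matrix ι ι (ZMod p)) : Prop where
  mem : P ∈ 𝒢.H (MvPolynomial ι (ZMod p))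
  zero : valP P (fun _ => (0 : ZMod p)) = 1
  gen : ∀ (F : Type) [Field F] [Algebra (ZMod p) F] [Finite F], ∀ x ∈ 𝒢.H F,
    x ∈ Subgroup.closure (Set.range fun t : ι → F => valP P t)
  equi : ∀ (R : Type) [CommRing R] [Algebra (ZMod p) R] (q : Q) (t : ι → R),
    valP P (mvz (β q) t) = tu (RingHom.id R) (ρ q : B →+* B) (valP P t)

/-! ## The theorem of Lang and Steinberg -/

/-- **Des.** Descent to separably closed fields.

*Proof.*  Lang's theorem for `GL_n` (import `Types/LGL.lean`, `Types/Sem1.lean`, `Types/Sem2.lean`: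
`tyLGL (tySem2 tySem1)` is `LangS p (GLf (Fin n))`) gives `M ∈ GL_n(k)` with `M^{(q)} = L M`, `q = p ^ d`,
`M^{(q)}` = the matrix of the `q`-th powers of the entries.  Let `w = (f M)⁻¹ v ∈ Λ^n`.  The Frobenius is a
ring homomorphism, so `w^{(q)} = (f M^{(q)})⁻¹ v^{(q)} = (f L · f M)⁻¹ (f L) v = (f M)⁻¹ v = w`.  So
`w_i ^ q = w_i`.  The polynomial `X ^ q - X` over `k` is separable and `k` is separably closed, so it
splits over `k` and all its roots in `Λ` come from `k`: `w_i = f c_i`.  `v = (f M) w`.  (`GL` matrices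
over `k` are mapped to `Λ` by `f`, for example `Matrix.map` or `GeneralLinearGroup.map`.) -/
def DesStmt : Prop :=
  ∀ (p : ℕ) [Fact p.Prime] (k Λ : Type) [Field k] [Field Λ] [CharP k p] [CharP Λ p]
    [IsSepClosed k] (f : k →+* Λ) (n d : ℕ), 0 < d →
    ∀ (L : GL (Fin n) k) (v : Fin n → Λ),
      (∀ i, v i ^ (p ^ d) = ∑ j, f ((L : Matrix (Fin n) (Fin n) k) i j) * v j) →
      ∀ i, ∃ c, f c = v i

/-- **Sys.** The linear system given by `F_d x = a x b`.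

*Proof.*  The `K`-linear map `m : y ↦ a y b` of `K ⊗ B` is bijective (inverse `y ↦ a⁻¹ y b⁻¹`).  Let `M` be its
matrix with respect to the basis `eb (Module.finBasis (ZMod p) B) K` (`LinearMap.toMatrix`, invertible):
`a e_j b = Σ_i M_ij e_i`.  The `K`-basis `e_j` (`= 1 ⊗ b_j`) is mapped by `tmap f id` to the basis of `Λ ⊗ B`,
so in `Λ ⊗ B` with `x = Σ_j x_j e_j`: `f(a) x f(b) = Σ_j x_j f(a) e_j f(b) = Σ_j x_j Σ_i f(M_ij) e_i`, and the `i`-th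
coordinate of `F_d x` is `x_i ^ (p^d)` (`crd_tu`, `iterateFrobenius_def`). -/
def SysStmt : Prop :=
  ∀ (p : ℕ) [Fact p.Prime] (B : Type) [Ring B] [Finite B] [Algebra (ZMod p) B] (K Λ : Type)
    [Field K] [Algebra (ZMod p) K] [Field Λ] [CharP Λ p] [Algebra (ZMod p) Λ] (f : K →+* Λ)
    (d : ℕ) (a b : (K ⊗[ZMod p] B)ˣ) (x : (Λ ⊗[ZMod p] B)ˣ),
    fru d Λ x = tu f (RingHom.id B) a * x * tu f (RingHom.id B) b →
    ∃ M : GL (Fin (Module.finrank (ZMod p) B)) K, ∀ i,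
      crd (x : Λ ⊗[ZMod p] B) i ^ (p ^ d) =
        ∑ j, f ((M : Matrix _ _ K) i j) * crd (x : Λ ⊗[ZMod p] B) j

/-- **Irr.** Relations over `k` which hold for the generic value `P(t)` hold on `H`.

*Proof.*  Let `f = Σ_m a_m X^m` (finite sum, `a_m ∈ k`).  Let `λ : k → 𝔽_p` be `𝔽_p`-linear, `f_λ = Σ_m λ(a_m) X^m`.
`aeval (crd P(t)) f = 0`, where `crd P(t) = aeval t (crd P)` coordinatewise (`crd_tu`); the homomorphism
`aeval t : k[T] → Λ` is injective (algebraic independence), so `Σ_m a_m (crd P)^m = 0` in `k[T]`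
(`(crd P)^m = ∏ (crd P)_i^{m_i} ∈ 𝔽_p[T]`, mapped to `k[T]`).  Apply `λ` to the coefficients:
`Σ_m λ(a_m) (crd P)^m = 0` in `𝔽_p[T]`, that is `aeval (crd P) f_λ = 0`.  By hypothesis
`aeval (crd x) f_λ = 0` for all `λ`.  Let `(c_μ)` be an `𝔽_p`-basis of `k`, `λ_μ` the coordinate functions;
`f = Σ_μ c_μ f_{λ_μ}` (a finite sum: only finitely many `μ` occur in the `a_m`; `f_{λ_μ}` mapped to
`k[X]`), so `aeval (crd x) f = Σ_μ c_μ aeval (crd x) f_{λ_μ} = 0`.  (Algebra structures over `ZMod p` are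
unique, `RingHom.ext_zmod`.) -/
def IrrStmt : Prop :=
  ∀ (p : ℕ) [Fact p.Prime] (B : Type) [Ring B] [Finite B] [Algebra (ZMod p) B] (ι : Type)
    (P : (MvPolynomial ι (ZMod p) ⊗[ZMod p] B)ˣ) (k Λ : Type) [Field k] [Algebra (ZMod p) k]
    [Field Λ] [Algebra (ZMod p) Λ] [Algebra k Λ] (t : ι → Λ), AlgebraicIndependent k t →
    ∀ x : (Λ ⊗[ZMod p] B)ˣ,
    (∀ f : MvPolynomial (Fin (Module.finrank (ZMod p) B)) (ZMod p),
      MvPolynomial.aeval (crd (P : MvPolynomial ι (ZMod p) ⊗[ZMod p] B)) f = 0 →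
      MvPolynomial.aeval (crd (x : Λ ⊗[ZMod p] B)) f = 0) →
    ∀ f : MvPolynomial (Fin (Module.finrank (ZMod p) B)) k,
      MvPolynomial.aeval (crd ((valP P t : (Λ ⊗[ZMod p] B)ˣ) : Λ ⊗[ZMod p] B)) f = 0 →
      MvPolynomial.aeval (crd (x : Λ ⊗[ZMod p] B)) f = 0

/-- **Trd.** A specialization with algebraic dependence is generic.

*Proof.*  Let `I ⊆ Fin n` be such that `(b_i)_{i ∈ I}` is a transcendence basis of `k(b)` over `k` (a maximal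
subset of the `b`'s which is algebraically independent).  All `b_j`, and so all `a_j`, are algebraic over
`k(b_I)`.  (1) `a_I` is algebraically independent over `k`: a relation `h(a_I) = 0` gives `h(b_I) = 0` by
hypothesis, so `h = 0`.  (2) `k(a, b)` is algebraic over `k(b_I)`, so it has transcendence degree `|I|`
over `k`, and `a_I` are `|I|` algebraically independent elements of it, so they are a transcendence
basis: all `a_j` are algebraic over `k(a_I)`.  (3) Let `f(b) = 0` and suppose `c = f(a) ≠ 0`; `c` is algebraic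
over `k(a_I)` by (2), so there is a polynomial relation `Σ_{i ≤ m} h_i(a_I) c ^ i = 0` with `h_i ∈ k[X_I]` and
`h_0(a_I) ≠ 0` (clear denominators, divide by a power of `c`), so `h_0 ≠ 0`.  The polynomial
`Σ h_i(X_I) f(X)^i ∈ k[X_1..X_n]` vanishes at `a`, so at `b`: `h_0(b_I) + 0 = 0` because `f(b) = 0`; but `b_I` are
algebraically independent, so `h_0 = 0`, a contradiction. -/
def TrdStmt : Prop :=
  ∀ (k Λ : Type) [Field k] [Field Λ] [Algebra k Λ] (n : ℕ) (a b : Fin n → Λ),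
    (∀ f : MvPolynomial (Fin n) k, MvPolynomial.aeval a f = 0 → MvPolynomial.aeval b f = 0) →
    (∀ i, IsAlgebraic (IntermediateField.adjoin k (Set.range b)) (a i)) →
    ∀ f : MvPolynomial (Fin n) k, MvPolynomial.aeval b f = 0 → MvPolynomial.aeval a f = 0

/-- **Gpt.** Extension of the isomorphism of two generic points.

*Proof.*  `F = k(b)`.  `k[b] ≅ k[X]/{f : f(b) = 0} = k[X]/{f : f(a) = 0} ≅ k[a]`, a `k`-isomorphism with
`b_i ↦ a_i`; it extends to the fields of fractions: `θ₀ : F → Λ` over `k` with `θ₀ b_i = a_i` (for example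
`IsLocalization`/`IsFractionRing.lift` for `IsFractionRing (Algebra.adjoin k _) (IntermediateField.adjoin
k _)`, or `IntermediateField` analogues).  `K₁ = k(a, b) = F(a)` is algebraic over `F` (generated by
algebraic elements).  As `Λ` is algebraically closed `θ₀` extends to `θ : K₁ → Λ` (`IsAlgClosed.lift` with
`Λ` as an `F`-algebra through `θ₀`, or `IntermediateField.exists_algHom_of_splits` and similar). -/
def GptStmt : Prop :=
  ∀ (k Λ : Type) [Field k] [Field Λ] [Algebra k Λ] [IsAlgClosed Λ] (n : ℕ) (a b : Fin n → Λ),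
    (∀ f : MvPolynomial (Fin n) k, MvPolynomial.aeval a f = 0 ↔ MvPolynomial.aeval b f = 0) →
    (∀ i, IsAlgebraic (IntermediateField.adjoin k (Set.range b)) (a i)) →
    ∃ (K₁ : IntermediateField k Λ) (θ : K₁ →ₐ[k] Λ) (_ : ∀ i, a i ∈ K₁)
      (hb : ∀ i, b i ∈ K₁), ∀ i, θ ⟨b i, hb i⟩ = a i

/-- **LangG.** The theorem of Lang and Steinberg, generic version.

*Proof.*  Write `η = P(t) ∈ H(Λ)` (`valP_mem`: `P ∈ H(𝔽_p[T])` by `Closure`), `g ∈ H(Λ)` for the image of `g`, and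
`ξ = Φ(η)⁻¹ g η ∈ H(Λ)`.  So `Φ(η) = g η ξ⁻¹`.  By induction on `m`: `Φ^m(η) = G_m η Ξ_m` with
`G_m = Φ^{m-1}(g) ⋯ Φ(g) g` (the image of an element of `H(k)`) and `Ξ_m = ξ⁻¹ Φ(ξ)⁻¹ ⋯ Φ^{m-1}(ξ)⁻¹`.
Let `K₀ = k(ξ_1, …, ξ_n) ⊆ Λ`, `ξ_i = crd ξ i`; `ξ` comes from `ξ₀ ∈ (K₀ ⊗ B)ˣ` (`exists_unit`), which is in
`H(K₀)` by `𝒢.inj`, so `Ξ_m` is the image of an element of `H(K₀)` (naturality of `Φ` for `K₀ → Λ`), also
`G_m`.  For `m = e`: `F_d η = G_e η Ξ_e`, so by *Sys* the coordinates `η_i` of `η` satisfy a linear system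
`η_i^q = Σ_j M_ij η_j` with `M_ij ∈ K₀`, `q = p ^ d ≥ 2`, so they are integral, hence algebraic over `K₀`
(`MP7fZ.isIntegral_of_system` in `Pool/Agent/Lib/MP_7f581e_ntL/Z1.lean`, import it).  By *Irr*
(`x = ξ ∈ H(Λ)`, `Closure`) every `f ∈ k[X]` with `f(η) = 0` satisfies `f(ξ) = 0`; by *Trd* (`a = η`, `b = ξ`) also
conversely.  *Gpt* gives `K₁ ⊆ Λ` containing all `η_i`, `ξ_i`, and `θ : K₁ → Λ` over `k` with `θ(ξ_i) = η_i`.
Let `η', ξ' ∈ (K₁ ⊗ B)ˣ` be the elements with images `η`, `ξ` (`exists_unit`), in `H(K₁)` by `𝒢.inj`.  In `H(K₁)`: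
`Φ(η') = g η' ξ'⁻¹` (both sides have the same image in `H(Λ)`, `tu_injective`; naturality).  Apply `θ`:
`θ ξ' = η` (coordinates), `y := θ η' ∈ H(Λ)`, `Φ(y) = θ(Φ(η')) = g y η⁻¹` (`θ g = g` as `θ` is over `k`).  So
`Φ(y) η = g y`.
*Uses*: Sys, Irr, Trd, Gpt. -/
def LangGStmt : Prop :=
  ∀ (p : ℕ) [Fact p.Prime] (B : Type) [Ring B] [Finite B] [Algebra (ZMod p) B]
    (𝒢 : LangGp p B) (ι : Type) (P : (MvPolynomial ι (ZMod p) ⊗[ZMod p] B)ˣ), Closure 𝒢 P →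
    ∀ (Φ : 𝒢.End) (e d : ℕ), 0 < d → Φ.Root e d →
    ∀ (k Λ : Type) [Field k] [CharP k p] [Algebra (ZMod p) k] [Field Λ] [CharP Λ p]
      [Algebra (ZMod p) Λ] [Algebra k Λ] [IsAlgClosed Λ] (t : ι → Λ),
      AlgebraicIndependent k t → ∀ g ∈ 𝒢.H k, ∃ y ∈ 𝒢.H Λ,
        Φ.φ Λ y * valP P t = tu (algebraMap k Λ) (RingHom.id B) g * y

/-- **LangW.** The theorem of Lang and Steinberg.

*Proof.*  Let `k` be separably closed, `g ∈ H(k)`; `Λ` an algebraic closure of the field of fractions of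
`k[T_i : i ∈ ι]`, `t_i = T_i` (algebraically independent over `k`), `η = P(t)`.  *LangG* for `g` and for `1` gives
`η₁, η₂ ∈ H(Λ)` with `Φ(η₁) η = g η₁` and `Φ(η₂) η = η₂`.  `y = η₁ η₂⁻¹ ∈ H(Λ)`: `Φ(y) = Φ(η₁) Φ(η₂)⁻¹ =
g η₁ η⁻¹ (η₂ η⁻¹)⁻¹ = g y`.  So `F_d y = Φ^e(y) = G y`, `G = Φ^{e-1}(g) ⋯ Φ(g) g`, the image of an element of `H(k)`
(induction on `e`).  By *Sys* (`K = k`, `b = 1`) and *Des* the coordinates of `y` are in `k`; `exists_unit`: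
`y` is the image of `y₀ ∈ (k ⊗ B)ˣ`, `y₀ ∈ H(k)` by `𝒢.inj`, and `Φ(y₀) = g y₀` because the images in `H(Λ)`
are equal (`Φ.nat`, `tu_injective`).
*Uses*: Sys, Des, LangG. -/
def LangWStmt : Prop :=
  ∀ (p : ℕ) [Fact p.Prime] (B : Type) [Ring B] [Finite B] [Algebra (ZMod p) B]
    (𝒢 : LangGp p B) (ι : Type) (P : (MvPolynomial ι (ZMod p) ⊗[ZMod p] B)ˣ), Closure 𝒢 P →
    ∀ (Φ : 𝒢.End) (e d : ℕ), 0 < d → Φ.Root e d → Lang Φ

/-! ## The torsor theorem -/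

/-- **GenF.** Generation, in terms of elements of a big field fixed by a power of the Frobenius.

*Proof.*  `F = {c ∈ k : c ^ (p^d) = c}` is a subfield of `k` (the Frobenius is a ring homomorphism), finite
(roots of the nonzero polynomial `X ^ (p^d) - X`).  The coordinates of `x` are in `F` (`crd_tu`,
`fru d k x = x`), so `x` is the image of `x₀ ∈ (F ⊗ B)ˣ` (`exists_unit`), in `H(F)` by `𝒢.inj`.  By hypothesis `x₀`
is in the subgroup generated by the `valP P t`, `t ∈ F^ι`; map it to `k` (`Subgroup.map`, `tu_valP`). -/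
def GenFStmt : Prop :=
  ∀ (p : ℕ) [Fact p.Prime] (B : Type) [Ring B] [Finite B] [Algebra (ZMod p) B]
    (𝒢 : LangGp p B) (ι : Type) (P : (MvPolynomial ι (ZMod p) ⊗[ZMod p] B)ˣ),
    (∀ (F : Type) [Field F] [Algebra (ZMod p) F] [Finite F], ∀ x ∈ 𝒢.H F,
      x ∈ Subgroup.closure (Set.range fun t : ι → F => valP P t)) →
    ∀ (k : Type) [Field k] [CharP k p] [Algebra (ZMod p) k] (d : ℕ), 0 < d →
      ∀ x ∈ 𝒢.H k, fru d k x = x →
      x ∈ Subgroup.closure {w : (k ⊗[ZMod p] B)ˣ | ∃ t : ι → k, (∀ i, t i ^ (p ^ d) = t i) ∧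
        w = valP P t}

/-- **LiftW.** Lifting the values of a word at the places of a split family.

*Proof.*  Let `γ_q ∈ Gx` with `ψ γ_q = q`.  *Pres* gives for every `i ∈ ι` an element `z_i ∈ Ω`, integral over
`𝔽_p[x]`, fixed by `ker ψ`, with `(V j).valuation (z_i - t j i) < 1` and `(V j).valuation (γ z_i) < 1` for
`ψ γ ≠ 1`.  Let `τ = Σ_{q ∈ Q} mvz (β q) (γ_q z) ∈ Ω^ι`, `(γ_q z)_i = γ_q z_i`.  For `γ ∈ Gx`, `q' = ψ γ`:
`γ γ_q z_i = γ_{q' q} z_i` (`z_i` is fixed by `ker ψ`, and `γ_{q'q}⁻¹ γ γ_q ∈ ker ψ`), so `γ τ =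
Σ_q mvz (β q) (γ_{q'q} z)`, `mvz (β q') (γ τ) = Σ_q mvz (β (q'q)) (γ_{q'q} z) = τ` (`mvz_map`, `mvz_mul`, `mvz` is
additive).  `w = valP P τ`: in `H(Ω)` (`valP_mem`); `tu γ (ρ q') w = tu id (ρ q') (valP P (γ τ)) =
valP P (mvz (β q') (γ τ)) = w` (`tu_split`, `tu_valP`, `equi`), so `InvL`.  For every `f ∈ 𝔽_p[T]`:
`aeval τ f` is integral over `𝔽_p[x]` (the `τ_i` are integral, and integral elements form a ring); the
coordinates of `w` and `w⁻¹` are `aeval τ (crd P i)`, `aeval τ (crd P⁻¹ i)` (`crd_tu`).  Value at `V j`: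
`(V j).valuation (τ_i - t j i) < 1` (for `q ≠ 1` all `γ_q z_m` are in the maximal ideal, `β 1 = 1`), and by
induction on `f ∈ 𝔽_p[T]`: `aeval τ f ∈ V j`, `(V j).valuation (aeval τ f - (aeval (t j) f : Ω)) < 1`
(`MvPolynomial.induction_on`; constants are in `V j`, the `τ_i` are in `V j`: integral elements are in
`V j`, see `MP7Z.Int.integral_mem` or (5) of *Int*).
*Uses*: Pres (of Lie/Spec), Int (of Lie/Spec). -/
def LiftWStmt : Prop :=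
  ∀ (p : ℕ) [Fact p.Prime] (B : Type) [Ring B] [Finite B] [Algebra (ZMod p) B]
    (𝒢 : LangGp p B) (Q : Type) [Group Q] [Fintype Q] (ρ : Q →* (B ≃+* B)) (ι : Type)
    [Fintype ι] [DecidableEq ι] (P : (MvPolynomial ι (ZMod p) ⊗[ZMod p] B)ˣ)
    (β : Q →* Matrix ι ι (ZMod p)), Word 𝒢 ρ P β →
    ∀ (Ω : Type) [Field Ω] [Algebra (ZMod p) Ω] (x : Ω), IsStage p x →
    ∀ ψ : Gx p x →* Q, Function.Surjective ψ →
    ∀ (m₀ r : ℕ) (V : Fin r → ValuationSubring Ω), SplitFam m₀ ψ V →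
    ∀ t : Fin r → ι → Cst p Ω,
    (∀ j i, ∀ γ ∈ Gx p x ⊓ Dec p (V j), γ ((t j i : Cst p Ω) : Ω) = (t j i : Cst p Ω)) →
    ∃ w : (Ω ⊗[ZMod p] B)ˣ, w ∈ 𝒢.H Ω ∧ InvL ψ ρ w ∧ IntX x (w : Ω ⊗[ZMod p] B) ∧
      IntX x ((w⁻¹ : (Ω ⊗[ZMod p] B)ˣ) : Ω ⊗[ZMod p] B) ∧
      ∀ j, Cong (V j) (w : Ω ⊗[ZMod p] B)
        ((valP P (t j) : (Cst p Ω ⊗[ZMod p] B)ˣ) : Cst p Ω ⊗[ZMod p] B)

/-- **LiftAllW.** Every family of points, fixed by the powers of the Frobenius, lifts.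

*Proof.*  (As `Lie/LiftAll.lean`.)  For fixed `j` let `C_j ⊆ (𝔽 ⊗ B)ˣ` (`𝔽 = Cst p Ω`) be the set of the `u` for
which there is `w ∈ H(Ω)` with `InvL ψ ρ w`, `w` and `w⁻¹` integral, value `u` at `V j` and value `1` at `V i`,
`i ≠ j`.  `C_j` is a subgroup (*Cong*, *Int*; see `Lie/LiftAll.lean`), and it contains all `valP P t`,
`t ∈ 𝔽^ι` with `t_i ^ (p ^ d_j) = t_i`: apply *LiftW* to the family with `t` at `j` and `0` at the other places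
(`valP P 0 = 1` by `Word.zero` and `tu_valP`); the condition on `γ ∈ Gx ∩ D_{V_j}` is the hypothesis on `d_j`.
By *GenF* (`k = 𝔽`) `g_j ∈ C_j`, realized by `w_j`; `w = ∏_j w_j`.
*Uses*: Cong, Int (of Lie/Spec), GenF, LiftW. -/
def LiftAllWStmt : Prop :=
  ∀ (p : ℕ) [Fact p.Prime] (B : Type) [Ring B] [Finite B] [Algebra (ZMod p) B]
    (𝒢 : LangGp p B) (Q : Type) [Group Q] [Fintype Q] (ρ : Q →* (B ≃+* B)) (ι : Type)
    [Fintype ι] [DecidableEq ι] (P : (MvPolynomial ι (ZMod p) ⊗[ZMod p] B)ˣ)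
    (β : Q →* Matrix ι ι (ZMod p)), Word 𝒢 ρ P β →
    ∀ (Ω : Type) [Field Ω] [Algebra (ZMod p) Ω] [CharP Ω p] [CharP (Cst p Ω) p] (x : Ω),
    IsStage p x → ∀ ψ : Gx p x →* Q, Function.Surjective ψ →
    ∀ (m₀ r : ℕ) (V : Fin r → ValuationSubring Ω), SplitFam m₀ ψ V →
    ∀ d : Fin r → ℕ, (∀ j, 0 < d j) →
    (∀ j, ∀ δ ∈ Gx p x ⊓ Dec p (V j), ∀ c ∈ Cst p Ω, c ^ (p ^ d j) = c → δ c = c) →
    ∀ g : Fin r → (Cst p Ω ⊗[ZMod p] B)ˣ, (∀ j, g j ∈ 𝒢.H (Cst p Ω)) →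
    (∀ j, fru (d j) (Cst p Ω) (g j) = g j) →
    ∃ w : (Ω ⊗[ZMod p] B)ˣ, w ∈ 𝒢.H Ω ∧ InvL ψ ρ w ∧ IntX x (w : Ω ⊗[ZMod p] B) ∧
      IntX x ((w⁻¹ : (Ω ⊗[ZMod p] B)ˣ) : Ω ⊗[ZMod p] B) ∧
      ∀ j, Cong (V j) (w : Ω ⊗[ZMod p] B) (g j : Cst p Ω ⊗[ZMod p] B)

/-- **GelW.** The element `g`.

*Proof.*  (As `Lie/Gel.lean`.)  Let `h_0, …, h_{r-1}` be the elements of the finite group `Φ.pts`,
`V_0, …, V_{r-1}` a split family (*Fam*, `m₀ = 1`), `d_j`, `γ_j` from *DecF* for `V_j` (`ψ γ_j = 1` by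
`SplitFam.dec`).  `𝔽 = Cst p Ω` is algebraically closed (*Cst*).  Lang's theorem for `F_{d_j}` and `h_j⁻¹`
gives `y_j ∈ H(𝔽)` with `F_{d_j} y_j = h_j⁻¹ y_j` (`h_j` = `cstu 𝔽 h_j ∈ H(𝔽)` by `cstu_mem`); `z_j = y_j⁻¹`:
`F_{d_j} z_j = z_j h_j`.  `g_j = Φ(z_j) z_j⁻¹ ∈ H(𝔽)`.  `F_{d_j} g_j = Φ(F_{d_j} z_j) (F_{d_j} z_j)⁻¹ =
Φ(z_j) Φ(h_j) h_j⁻¹ z_j⁻¹ = g_j` (`phi_fru`, `cstu_mem`: `Φ(h_j) = h_j`).  *LiftAllW* gives `g = w`.
*Uses*: Cst (of BR), Fam, DecF (of Lie/Spec), LiftAllW. -/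
def GelWStmt : Prop :=
  ∀ (p : ℕ) [Fact p.Prime] (B : Type) [Ring B] [Finite B] [Algebra (ZMod p) B]
    (𝒢 : LangGp p B) (Φ : 𝒢.End), (∀ d, 0 < d → Lang (frEnd 𝒢 d)) →
    ∀ (Q : Type) [Group Q] [Fintype Q] (ρ : Q →* (B ≃+* B)) (ι : Type)
    [Fintype ι] [DecidableEq ι] (P : (MvPolynomial ι (ZMod p) ⊗[ZMod p] B)ˣ)
    (β : Q →* Matrix ι ι (ZMod p)), Word 𝒢 ρ P β →
    ∀ (Ω : Type) [Field Ω] [Algebra (ZMod p) Ω] [CharP Ω p] [CharP (Cst p Ω) p] (x : Ω),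
      IsStage p x → ∀ ψ : Gx p x →* Q, FinLevel ψ → Function.Surjective ψ →
      ∃ g ∈ 𝒢.H Ω, InvL ψ ρ g ∧ IntX x (g : Ω ⊗[ZMod p] B) ∧
        IntX x ((g⁻¹ : (Ω ⊗[ZMod p] B)ˣ) : Ω ⊗[ZMod p] B) ∧
        ∀ h ∈ Φ.pts, ∃ V : ValuationSubring Ω, V ≠ ⊤ ∧ x ∈ V ∧ ∃ γ : Gx p x,
          (γ : Ω ≃ₐ[ZMod p] Ω) ∈ Dec p V ∧ ψ γ = 1 ∧ ∃ d : ℕ, 0 < d ∧
          (∀ c ∈ Cst p Ω, (γ : Ω ≃ₐ[ZMod p] Ω) c = c ^ (p ^ d)) ∧
          ∃ z ∈ 𝒢.H (Cst p Ω), fru d (Cst p Ω) z = z * cstu (Cst p Ω) h ∧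
            Cong V (g : Ω ⊗[ZMod p] B)
              ((Φ.φ (Cst p Ω) z * z⁻¹ : (Cst p Ω ⊗[ZMod p] B)ˣ) : Cst p Ω ⊗[ZMod p] B)

/-- **TorW.** The homomorphism defined by a solution of `Φ(y) = g y`.

*Proof.*  (As `Lie/Tor.lean`.)  For `γ ∈ Gx` write `γ * y = tu γ (ρ (ψ γ)) y` and `c(γ) = y⁻¹ (γ * y)`, in `H(Ω)`
(*Stable*, `𝒢.map`, `tu_split`).  `Φ(γ * y) = γ * Φ(y)` (`Φ.nat` for `γ : Ω → Ω`, and `Comm`), so
`Φ(c γ) = (g y)⁻¹ (γ * (g y)) = y⁻¹ g⁻¹ g (γ * y) = c γ` (`InvL`).  So `F_1 (c γ) = Φ^e(c γ) = c γ` (`Root`), and by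
`exists_cstu` `c γ = cstu Ω b`, `b ∈ Bˣ`, and `b ∈ Φ.pts` by `mem_pts_iff` (`K = Ω`).  `cstu Ω` is injective.
`c(γ δ) = y⁻¹ (γ * (δ * y)) = y⁻¹ (γ * (y c(δ))) = c(γ) · uact ρ (ψ γ) (c δ)` (`tu_cstu'`).  So
`Ψ γ = (c γ, ψ γ)` is a homomorphism to the semidirect product (`coe_act`).  Finite level: the set for `ψ`
together with the coordinates of `y`. -/
def TorWStmt : Prop :=
  ∀ (p : ℕ) [Fact p.Prime] (B : Type) [Ring B] [Finite B] [Algebra (ZMod p) B]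
    (𝒢 : LangGp p B) (Φ : 𝒢.End) (e : ℕ), Φ.Root e 1 →
    ∀ (Q : Type) [Group Q] (ρ : Q →* (B ≃+* B)) (hρ : 𝒢.Stable ρ) (hc : Φ.Comm ρ)
    (Ω : Type) [Field Ω] [Algebra (ZMod p) Ω] [CharP Ω p] (x : Ω) (ψ : Gx p x →* Q)
    (g y : (Ω ⊗[ZMod p] B)ˣ), FinLevel ψ → InvL ψ ρ g → g ∈ 𝒢.H Ω → y ∈ 𝒢.H Ω →
      Φ.φ Ω y = g * y →
      ∃ Ψ : Gx p x →* Φ.pts ⋊[Φ.act ρ hρ hc] Q, FinLevel Ψ ∧ (∀ γ, (Ψ γ).right = ψ γ) ∧
        ∀ γ : Gx p x, tu ((γ : Ω ≃ₐ[ZMod p] Ω) : Ω →+* Ω) (ρ (ψ γ) : B →+* B) y =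
          y * cstu Ω ((Ψ γ).left : Bˣ)

/-- **IntW.** Solutions of `Φ(y) = g y` are integral.

*Proof.*  Let `R'` be the ring of all elements of `Ω` integral over `adjoin (ZMod p) {x}`
(`integralClosure`, a commutative `𝔽_p`-algebra of characteristic `p`), `inc : R' → Ω`, injective.  The
coordinates of `g` and `g⁻¹` are in `R'`, so `g = inc g'` with `g' ∈ (R' ⊗ B)ˣ` (take the `vec` of the
coordinates for `g` and `g⁻¹`; the products are `1` because `tmap inc id` is injective), `g' ∈ H(R')` by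
`𝒢.inj`.  `G' = Φ^{e-1}(g') ⋯ Φ(g') g' ∈ H(R')`.  By induction on `m`, `Φ^m(y) = inc(Φ^{m-1}(g') ⋯ g') y`
(naturality of `Φ` for `inc`).  So `F_1 y = (inc G') y`, and `inc G'`, `inc G'⁻¹` have coordinates in `R'`.  Now
(6) of *Int*.
*Uses*: Int (of Lie/Spec). -/
def IntWStmt : Prop :=
  ∀ (p : ℕ) [Fact p.Prime] (B : Type) [Ring B] [Finite B] [Algebra (ZMod p) B]
    (𝒢 : LangGp p B) (Φ : 𝒢.End) (e : ℕ), Φ.Root e 1 →
    ∀ (Ω : Type) [Field Ω] [Algebra (ZMod p) Ω] [CharP Ω p] (x : Ω), ∀ g ∈ 𝒢.H Ω,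
    ∀ y ∈ 𝒢.H Ω, IntX x (g : Ω ⊗[ZMod p] B) →
      IntX x ((g⁻¹ : (Ω ⊗[ZMod p] B)ˣ) : Ω ⊗[ZMod p] B) → Φ.φ Ω y = g * y →
      IntX x (y : Ω ⊗[ZMod p] B) ∧ IntX x ((y⁻¹ : (Ω ⊗[ZMod p] B)ˣ) : Ω ⊗[ZMod p] B)

/-- **CloW.** Values of elements of `H(Ω)` and `Φ`.

*Proof.*  (As `Lie/Clo.lean`, where most of this is proved: `Clo_res`, `Clo_main`.)  `V` as a commutative
ring is an algebra over `ZMod p`, of characteristic `p`.  The residue map `res : V → 𝔽 = Cst p Ω` is a ring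
homomorphism.  With `w_V ∈ (V ⊗ B)ˣ` the unit with image `w` (coordinates of `w` and `w⁻¹` are in `V`),
`w_V ∈ H(V)` by `𝒢.inj`, and `res w_V = u`, so `u ∈ H(𝔽)`.  `Φ_V(w_V) ∈ H(V)` has the image `Φ(w)` in `H(Ω)` and
the image `Φ(u)` in `H(𝔽)` (naturality), so `Φ(w)` has the value `Φ(u)`.
*Uses*: Res (of BR). -/
def CloWStmt : Prop :=
  ∀ (p : ℕ) [Fact p.Prime] (B : Type) [Ring B] [Finite B] [Algebra (ZMod p) B]
    (𝒢 : LangGp p B) (Φ : 𝒢.End) (Ω : Type) [Field Ω] [Algebra (ZMod p) Ω] [CharP Ω p]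
    [CharP (Cst p Ω) p] (x : Ω), IsStage p x →
    ∀ V : ValuationSubring Ω, V ≠ ⊤ → ∀ (w : (Ω ⊗[ZMod p] B)ˣ) (u : (Cst p Ω ⊗[ZMod p] B)ˣ),
      w ∈ 𝒢.H Ω → (∀ i, crd (w : Ω ⊗[ZMod p] B) i ∈ V) →
      (∀ i, crd ((w⁻¹ : (Ω ⊗[ZMod p] B)ˣ) : Ω ⊗[ZMod p] B) i ∈ V) →
      Cong V (w : Ω ⊗[ZMod p] B) (u : Cst p Ω ⊗[ZMod p] B) → u ∈ 𝒢.H (Cst p Ω) ∧
        Cong V (Φ.φ Ω w : Ω ⊗[ZMod p] B) (Φ.φ (Cst p Ω) u : Cst p Ω ⊗[ZMod p] B)

/-- **TorSW.** The invariant (S) for `Ψ`.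

*Proof.*  As `Lie/TorS.lean` (the same proof, with `Φ.pts` in the place of `𝒢.pts`; only
`tu γ (ρ (ψ γ)) y = y cstu (Ψ γ).left` is used).
*Uses*: Cong, CongU, Int (of Lie/Spec). -/
def TorSWStmt : Prop :=
  ∀ (p : ℕ) [Fact p.Prime] (B : Type) [Ring B] [Finite B] [Algebra (ZMod p) B]
    (𝒢 : LangGp p B) (Φ : 𝒢.End) (Q : Type) [Group Q] [Finite Q] (ρ : Q →* (B ≃+* B))
    (hρ : 𝒢.Stable ρ) (hc : Φ.Comm ρ)
    (Ω : Type) [Field Ω] [Algebra (ZMod p) Ω] [CharP Ω p] [CharP (Cst p Ω) p] (x : Ω)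
    (ψ : Gx p x →* Q) (y : (Ω ⊗[ZMod p] B)ˣ) (Ψ : Gx p x →* Φ.pts ⋊[Φ.act ρ hρ hc] Q),
    IsStage p x → SInv p x ψ → IntX x (y : Ω ⊗[ZMod p] B) →
    IntX x ((y⁻¹ : (Ω ⊗[ZMod p] B)ˣ) : Ω ⊗[ZMod p] B) → (∀ γ, (Ψ γ).right = ψ γ) →
    (∀ γ : Gx p x, tu ((γ : Ω ≃ₐ[ZMod p] Ω) : Ω →+* Ω) (ρ (ψ γ) : B →+* B) y =
          y * cstu Ω ((Ψ γ).left : Bˣ)) → SInv p x Ψ

/-- **TorOW.** Surjectivity on the geometric part.

*Proof.*  As `Lie/TorO.lean` with these changes.  Let `h ∈ Φ.pts`, with `V, γ, d, z` as in the hypothesis.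
`y` has a value `u` at `V` (*CongU*), `u ∈ H(𝔽)` and `Φ(y)` has the value `Φ(u)` by *CloW*; `g y` has the value
`Φ(z) z⁻¹ u`, so `Φ(u) = Φ(z) z⁻¹ u` (*Cong* (1), (4)), so `Φ(z⁻¹ u) = z⁻¹ u` (`z⁻¹ u ∈ H(𝔽)`), so
`F_1 (z⁻¹ u) = Φ^e(z⁻¹ u) = z⁻¹ u` and `z⁻¹ u = cstu 𝔽 b` (`exists_cstu`), `b ∈ Φ.pts` (`mem_pts_iff`).
`ψ γ = 1`: `tu γ id y = y cstu (Ψ γ).left`; values: `F_d u = u cstu (Ψ γ).left`.  With `u = z cstu b`:
`F_d u = z cstu h cstu b`, so `(Ψ γ).left = b⁻¹ h b`.  The rest is as in `Lie/TorO.lean` (a subgroup of the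
finite group `Φ.pts` which meets all conjugacy classes is everything; then the geometric part is
normal with abelian quotient and `Φ.pts` is perfect).
*Uses*: Cong, CongU, Int (of Lie/Spec), CloW. -/
def TorOWStmt : Prop :=
  ∀ (p : ℕ) [Fact p.Prime] (B : Type) [Ring B] [Finite B] [Algebra (ZMod p) B]
    (𝒢 : LangGp p B) (Φ : 𝒢.End) (e : ℕ), Φ.Root e 1 →
    ∀ (Q : Type) [Group Q] [Finite Q] (ρ : Q →* (B ≃+* B)) (hρ : 𝒢.Stable ρ) (hc : Φ.Comm ρ)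
    (Ω : Type) [Field Ω] [Algebra (ZMod p) Ω] [CharP Ω p] [CharP (Cst p Ω) p] (x : Ω)
    (ψ : Gx p x →* Q) (g y : (Ω ⊗[ZMod p] B)ˣ) (Ψ : Gx p x →* Φ.pts ⋊[Φ.act ρ hρ hc] Q),
    IsStage p x → (∀ a : Q, ∃ γ : Gx p x, (γ : Ω ≃ₐ[ZMod p] Ω) ∈ Fx p (Cst p Ω : Set Ω) ∧
      ψ γ = a) →
    commutator Φ.pts = ⊤ → g ∈ 𝒢.H Ω → y ∈ 𝒢.H Ω → IntX x (y : Ω ⊗[ZMod p] B) →
    IntX x ((y⁻¹ : (Ω ⊗[ZMod p] B)ˣ) : Ω ⊗[ZMod p] B) → Φ.φ Ω y = g * y →
    (∀ γ, (Ψ γ).right = ψ γ) →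
    (∀ γ : Gx p x, tu ((γ : Ω ≃ₐ[ZMod p] Ω) : Ω →+* Ω) (ρ (ψ γ) : B →+* B) y =
          y * cstu Ω ((Ψ γ).left : Bˣ)) →
    (∀ h ∈ Φ.pts, ∃ V : ValuationSubring Ω, V ≠ ⊤ ∧ x ∈ V ∧ ∃ γ : Gx p x,
          (γ : Ω ≃ₐ[ZMod p] Ω) ∈ Dec p V ∧ ψ γ = 1 ∧ ∃ d : ℕ, 0 < d ∧
          (∀ c ∈ Cst p Ω, (γ : Ω ≃ₐ[ZMod p] Ω) c = c ^ (p ^ d)) ∧
          ∃ z ∈ 𝒢.H (Cst p Ω), fru d (Cst p Ω) z = z * cstu (Cst p Ω) h ∧
            Cong V (g : Ω ⊗[ZMod p] B)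
              ((Φ.φ (Cst p Ω) z * z⁻¹ : (Cst p Ω ⊗[ZMod p] B)ˣ) : Cst p Ω ⊗[ZMod p] B)) →
    ∀ a : Φ.pts ⋊[Φ.act ρ hρ hc] Q, ∃ γ : Gx p x,
      (γ : Ω ≃ₐ[ZMod p] Ω) ∈ Fx p (Cst p Ω : Set Ω) ∧ Ψ γ = a

/-- **L3W.** The Lang torsor theorem for `Φ`.

*Proof.*  (As `Lie/L3.lean`.)  *GelW* gives `g`; `Lang Φ` for `k = Ω` (separably closed) gives `y ∈ H(Ω)` with
`Φ(y) = g y`; *IntW*: `y`, `y⁻¹` integral; *TorW* gives `Ψ`; *TorSW*: (S); *TorOW*: `reg`.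
*Uses*: GelW, TorW, IntW, TorSW, TorOW. -/
def L3WStmt : Prop :=
  ∀ (p : ℕ) [Fact p.Prime] (B : Type) [Ring B] [Finite B] [Algebra (ZMod p) B]
    (𝒢 : LangGp p B) (Φ : 𝒢.End) (e : ℕ), Φ.Root e 1 → Lang Φ →
    (∀ d, 0 < d → Lang (frEnd 𝒢 d)) → commutator Φ.pts = ⊤ →
    ∀ (Q : Type) [Group Q] [Fintype Q] (ρ : Q →* (B ≃+* B)) (hρ : 𝒢.Stable ρ)
    (hc : Φ.Comm ρ) (ι : Type) [Fintype ι] [DecidableEq ι]
    (P : (MvPolynomial ι (ZMod p) ⊗[ZMod p] B)ˣ) (β : Q →* Matrix ι ι (ZMod p)),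
    Word 𝒢 ρ P β →
    ∀ (Ω : Type) [Field Ω] [Algebra (ZMod p) Ω] (x : Ω) (ψ : Gx p x →* Q), GoodR p x ψ →
      ∃ Ψ : Gx p x →* Φ.pts ⋊[Φ.act ρ hρ hc] Q, GoodR p x Ψ ∧ ∀ γ, (Ψ γ).right = ψ γ

/-! ## Powers -/

/-- **PowA.** Lang's theorem, roots of the Frobenius, stability, commutation, for powers.

*Proof.*  Everything is componentwise, through `pwu` (`mem_powG`, `pwu_ext`, `pwu_powE`, `pwu_fru`,
`pwu_act`, and `(pwu R).symm` to construct elements).  (1) Given `g ∈ H^κ(k)` take `y_j ∈ H(k)` with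
`Φ(y_j) = g_j y_j`.  (2) the same.  (3) `pwu ((powE Φ)^[m] x) k = Φ^[m] (pwu x k)` by induction.  (4) (5):
`pwu_act`. -/
def PowAStmt : Prop :=
  ∀ (p : ℕ) [Fact p.Prime] (B : Type) [Ring B] [Finite B] [Algebra (ZMod p) B]
    (𝒢 : LangGp p B) (Φ : 𝒢.End) (κ : Type) [Fintype κ] [DecidableEq κ],
    (Lang Φ → Lang (powE κ Φ)) ∧
    (∀ d, Lang (frEnd 𝒢 d) → Lang (frEnd (powG κ 𝒢) d)) ∧
    (∀ e d, Φ.Root e d → (powE κ Φ).Root e d) ∧
    ∀ (A : Type) [Group A] (α : A →* (B ≃+* B)),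
      (𝒢.Stable α → (powG κ 𝒢).Stable (wrAct κ α)) ∧ (Φ.Comm α → (powE κ Φ).Comm (wrAct κ α))

/-- **PowW.** The word for powers.

*Proof.*  `mem`: `pwu_valP` for `t = X` and `valP_X` (or directly by `MulEquiv.apply_symm_apply`), `valP_mem`.
`zero`: `pwu_valP`, `Word.zero`.  `gen`: let `x ∈ H^κ(F)`, `x_j = pwu x j ∈ H(F)`.  For fixed `j` the map
`s_j : (F ⊗ B)ˣ → (F ⊗ (κ → B))ˣ`, `s_j u = (pwu F).symm (Pi.mulSingle j u)`, is a homomorphism, which maps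
`valP P t` to `valP (powP P) t'` with `t' (j, i) = t i` and `t' (j', i) = 0` for `j' ≠ j` (`pwu_valP`; `valP P 0 = 1`
over `F` by `zero` and `tu_valP`), so it maps the closure of the values of `P` into the closure of the
values of `powP P` (`Subgroup.closure_induction` or `MonoidHom.map_closure`).  `x = ∏_j s_j(x_j)` (the
factors commute, for example `Subgroup.pi_mem_of_mulSingle_mem` or `Finset.univ_prod_mulSingle`-like
arguments in `κ → (F ⊗ B)ˣ`; the subgroup `K = (closure …).map (pwu F)` of `κ → (F ⊗ B)ˣ` contains all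
`Pi.mulSingle j (x_j)`, so it contains `(x_j)_j` by `Subgroup.pi_mem_of_mulSingle_mem`).  `equi`: apply
`pwu_ext`, `pwu_valP`, `pwu_act`, `mvz_wrMat`, `Word.equi`. -/
def PowWStmt : Prop :=
  ∀ (p : ℕ) [Fact p.Prime] (B : Type) [Ring B] [Finite B] [Algebra (ZMod p) B]
    (𝒢 : LangGp p B) (A : Type) [Group A] (α : A →* (B ≃+* B)) (ι : Type) [Fintype ι]
    [DecidableEq ι] (P : (MvPolynomial ι (ZMod p) ⊗[ZMod p] B)ˣ)
    (β : A →* Matrix ι ι (ZMod p)), Word 𝒢 α P β →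
    ∀ (κ : Type) [Fintype κ] [DecidableEq κ],
      Word (powG κ 𝒢) (wrAct κ α) (powP κ P) (wrMat κ β)

/-- **PowP.** The points of powers.

*Proof.*  `b ∈ (κ → B)ˣ` is in `(powE κ Φ).pts` iff all components `MulEquiv.piUnits b k` are in `Φ.pts`
(`pwu_cstu`, `mem_powG`, `pwu_powE`, `pwu_ext`).  So `MulEquiv.piUnits` restricts to an isomorphism `ε` of
`(powE κ Φ).pts` with `κ → Φ.pts`.  The action: `wrAct κ α w` acts on `b` by
`(w b)_k = α (w.left k) (b_{w.right⁻¹ k})` (`wrAct_apply`, `coe_act`, `coe_uact`).  A finite power of a perfect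
group is perfect (`MP7fY.perfect_pi` in `Pool/Agent/Lib/MP_7f581e_ntL/Y6.lean`), and perfectness passes
through `ε` (see `lie_of_type` in `Lie/L1.lean`). -/
def PowPStmt : Prop :=
  ∀ (p : ℕ) [Fact p.Prime] (B : Type) [Ring B] [Finite B] [Algebra (ZMod p) B]
    (𝒢 : LangGp p B) (Φ : 𝒢.End) (κ : Type) [Fintype κ] [DecidableEq κ],
    commutator Φ.pts = ⊤ → commutator (powE κ Φ).pts = ⊤ ∧
    ∃ ε : (powE κ Φ).pts ≃* (κ → Φ.pts),
      ∀ (A : Type) [Group A] (α : A →* (B ≃+* B)) (h : 𝒢.Stable α) (hc : Φ.Comm α)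
        (h' : (powG κ 𝒢).Stable (wrAct κ α)) (hc' : (powE κ Φ).Comm (wrAct κ α))
        (w : WrG κ A) (b : (powE κ Φ).pts) (k : κ),
        ε ((powE κ Φ).act (wrAct κ α) h' hc' w b) k =
          Φ.act α h hc (w.left k) (ε b (w.right.symm k))

/-! ## Group theory -/

/-- **Grp.** The group of the pairs of an element of `E` and an element of the wreath product which
induces the same automorphism of the kernel.

*Proof.*  `ν z = (θ.symm z : E)` for `z ∈ S^κ` (`MP7fW.nn f.ker θ`, import `Pool/Agent/Lib/MP_7f581e_ntL/Y6.lean`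
for `MP7fW.nn`, `nn_psi`, `nn_surj`, `nn_inj`, `Psi`, `Psi_nn`), `πb = (π (b_k))_k` for `b ∈ M^κ`, and
`w b = (act (w.left k) (b (w.right⁻¹ k)))_k`, an action of `WrG κ A` on `M^κ` (`WrG.mul_left`, `mul_symm`).
`Q` is the subgroup `{(a, w) ∈ E × WrG κ A : a ν(πb) a⁻¹ = ν(π(w b)) for all b ∈ M^κ}` (closed under
products: `(a a') ν(πb) (a a')⁻¹ = a ν(π(w' b)) a⁻¹ = ν(π(w w' b))`, and inverses: replace `b` by `w⁻¹ b`).
`i`, `w`: the projections, `f₂ = f ∘ i`.  `S` is perfect (image of `M`) and simple, so its center is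
trivial (the center is a normal subgroup; if it is `⊤` then `S` is commutative and perfect, so trivial).
*Surjectivity of `f₂`:* let `a ∈ E`.  Conjugation by `a` is an automorphism `Psi f.ker θ a` of `S^κ`, so by
`Pool.Agent.Lib.MP_7f581e_nt.AutAlt.aut_pi` there are `σ ∈ Perm κ` and `φ_k ∈ Aut S` with
`Psi a z (σ k) = φ_k (z_k)`.  By hypothesis `φ_k (π m) = s_k π(act a_k m) s_k⁻¹`.  With `w.right = σ`,
`w.left (σ k) = a_k`, `s'_{σ k} = s_k`: `Psi a (πb) = s' · π(w b) · s'⁻¹`, so `(ν(s')⁻¹ a, w) ∈ Q`, with the same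
image `f(a)`.  *The kernel of `f₂`:* `(a, w)` with `a = ν(s)`, `s ∈ S^κ`: `s πb s⁻¹ = π(w b)` for all `b`.  `w.right`
is the identity: if `w.right⁻¹ k ≠ k`, take `b` with `b_k` such that `π(b_k) ≠ 1` and `b_j = 1` for `j ≠ k`: the
`k`-th component of the left side is `≠ 1`, that of the right side is `1` (`act _ 1 = 1`).  So
`s_k π(m) s_k⁻¹ = π(act (w.left k) m)` for all `m ∈ M`: `s_k` is determined by `w.left k` up to the center of `S`,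
which is trivial (`π` is onto).  So `(a, w) ↦ w.left` is an injective homomorphism of the kernel to
`A^κ` (`w.right = 1` makes it a homomorphism), and the kernel is solvable (`solvable_of_homs` in
`Lie/L1.lean`, or solvability of `A^κ`). -/
def GrpStmt : Prop :=
  ∀ (M S A : Type) [Group M] [Group S] [Finite S] [IsSimpleGroup S] [Group A] [Finite A],
    Group.IsSolvable A → commutator M = ⊤ →
    ∀ (act : A →* MulAut M) (π : M →* S), Function.Surjective π →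
    (∀ σ : S ≃* S, ∃ (s : S) (a : A), ∀ b, σ (π b) = s * π (act a b) * s⁻¹) →
    ∀ (κ : Type) [Finite κ] (G E : Type) [Group G] [Group E] [Finite E] (f : E →* G),
      Function.Surjective f → ∀ θ : f.ker ≃* (κ → S),
    ∃ (Q : Type) (_ : Group Q) (_ : Finite Q) (f₂ : Q →* G) (i : Q →* E) (w : Q →* WrG κ A),
      Function.Surjective f₂ ∧ Group.IsSolvable f₂.ker ∧ (∀ q, f (i q) = f₂ q) ∧
      ∀ (q : Q) (b : κ → M), i q * ((θ.symm fun k => π (b k) : f.ker) : E) * (i q)⁻¹ =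
        ((θ.symm fun k => π (act ((w q).left k) (b ((w q).right.symm k))) : f.ker) : E)

/-- **LieG.** Step Lie for the simple groups of Lie type.

*Proof.*  Let `S` be of Lie type, `D`, `π` the data, `f : E → G` onto with `θ : ker f ≅ S^κ` (`κ` finite; choose
`Fintype`, `DecidableEq` structures), `ψ` the given realization of `G`.  *Grp* with `M = D.Φ.pts`,
`act = D.Φ.act D.α D.stab D.comm`, gives `Q, f₂, i, w`.  `SolvStmt p` gives `x'` and `ψ₂ : Gx p x' → Q` with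
`GoodR p x' ψ₂`.  `D.Φ` and the Frobenius endomorphisms of `D.H` satisfy Lang's theorem by *LangW*
(`D.closure` is `Closure D.H D.P`; `frEnd_root`), so also their powers (*PowA*).  `Word D.H D.α D.P D.β`: by
`P_mem`, `D.zero`, `D.gen`, `D.equi`; *PowW*: a word for the powers with the group `WrG κ D.A`; compose
with `w : Q → WrG κ D.A`: `ρ = (wrAct κ D.α).comp w`, `β' = (wrMat κ D.β).comp w` (all conditions pass to
`Q`).  *L3W* for `powG κ D.H`, `powE κ D.Φ` gives `Ψ : Gx p x' → (powE κ D.Φ).pts ⋊ Q` with `GoodR`.  Let `ε` be as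
in *PowP* and `ν z = (θ.symm z : E)`.  `F(b, q) = ν(π(ε b)) · i q` is a homomorphism
`(powE κ D.Φ).pts ⋊ Q → E` (`SemidirectProduct.lift`, by the last property in *Grp* and the formula for the
action in *PowP*), onto: for `a ∈ E` take `q` with `f₂ q = f a`; `a (i q)⁻¹ ∈ ker f`, so it is `ν(z)`, `z = π(ε b)`
for some `b` (`π` is onto).  `GoodR.map`.
*Uses*: LangW, L3W, PowA, PowW, PowP, Grp; and `SolvStmt p` as a hypothesis (see the statement). -/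
def LieGStmt : Prop :=
  ∀ (p : ℕ) [Fact p.Prime], SolvStmt p → LieStep p (fun S [Group S] => IsLieType p S)

end LG

end MP7Z
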