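import Pool.Agent.Lib.MP_7f581e_Z.LieG.Spec

/-! # TorW: the homomorphism defined by a solution of `Φ y = g y` -/

set_option autoImplicit false

namespace MP7Z

namespace LG

open TensorProduct MP7fS MP7fU

theorem tTorW : TorWStmt := by
  intro p _ B _ _ _ 𝒢 Φ e hroot Q _ ρ hρ hcomm Ω _ _ _ x ψ g y hψ hg hgH hy hfy
  classical
  let T : Gx p x → (Ω ⊗[ZMod p] B)ˣ →* (Ω ⊗[ZMod p] B)ˣ := fun γ =>
    tu ((γ : Ω ≃ₐ[ZMod p] Ω) : Ω →+* Ω) (ρ (ψ γ) : B →+* B)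
  have hT : ∀ γ z, T γ z = tu ((γ : Ω ≃ₐ[ZMod p] Ω) : Ω →+* Ω) (ρ (ψ γ) : B →+* B) z :=
    fun _ _ => rfl
  have hTmul : ∀ γ δ z, T (γ * δ) z = T γ (T δ z) := fun γ δ z => by
    rw [hT, hT, hT, tu_tu, map_mul, map_mul]
    rfl
  have hTc : ∀ γ (b : Bˣ), T γ (cstu Ω b) = cstu Ω (uact ρ (ψ γ) b) := fun γ b =>
    tu_cstu' _ ρ (ψ γ) b
  have hTH : ∀ γ, ∀ z ∈ 𝒢.H Ω, T γ z ∈ 𝒢.H Ω := fun γ z hz => by
    rw [hT, tu_split]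
    exact hρ Ω (ψ γ) _ (𝒢.map Ω Ω ((γ : Ω ≃ₐ[ZMod p] Ω) : Ω →+* Ω) z hz)
  have hTΦ : ∀ γ, ∀ z ∈ 𝒢.H Ω, Φ.φ Ω (T γ z) = T γ (Φ.φ Ω z) := fun γ z hz => by
    rw [hT, hT, tu_split, tu_split _ _ (Φ.φ Ω z),
      hcomm Ω (ψ γ) _ (𝒢.map Ω Ω ((γ : Ω ≃ₐ[ZMod p] Ω) : Ω →+* Ω) z hz),
      Φ.nat Ω Ω ((γ : Ω ≃ₐ[ZMod p] Ω) : Ω →+* Ω) z hz]
  have hcH : ∀ γ, y⁻¹ * T γ y ∈ 𝒢.H Ω := fun γ => mul_mem (inv_mem hy) (hTH γ y hy)
  have hcΦ : ∀ γ, Φ.φ Ω (y⁻¹ * T γ y) = y⁻¹ * T γ y := fun γ => by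
    rw [Φ.mul Ω _ (inv_mem hy) _ (hTH γ y hy), Φ.map_inv Ω hy, hTΦ γ y hy, hfy, map_mul]
    have h1 : T γ g = g := hg γ
    rw [h1]
    group
  have hc : ∀ γ, ∃ b : Bˣ, T γ y = y * cstu Ω b := fun γ => by
    obtain ⟨b, hb⟩ := exists_cstu (p := p) (x := y⁻¹ * T γ y) (by
      rw [← hroot Ω _ (hcH γ)]
      exact Function.iterate_fixed (hcΦ γ) e)
    exact ⟨b, by rw [← hb, mul_inv_cancel_left]⟩
  choose b hb using hc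
  have hbpts : ∀ γ, b γ ∈ Φ.pts := fun γ => by
    rw [mem_pts_iff Φ (K := Ω)]
    have h1 : cstu Ω (b γ) = y⁻¹ * T γ y := by rw [hb, inv_mul_cancel_left]
    rw [h1]
    exact ⟨hcH γ, hcΦ γ⟩
  have hbmul : ∀ γ δ, b (γ * δ) = b γ * uact ρ (ψ γ) (b δ) := fun γ δ => by
    apply cstu_injective (p := p) (R := Ω)
    have h1 := hb (γ * δ)
    rw [hTmul, hb δ, map_mul, hb γ, hTc, mul_assoc] at h1
    rw [map_mul]
    exact (mul_left_cancel h1).symm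
  let Ψ : Gx p x →* Φ.pts ⋊[Φ.act ρ hρ hcomm] Q :=
    MonoidHom.mk' (fun γ => ⟨⟨b γ, hbpts γ⟩, ψ γ⟩)
    (fun γ δ => by
      refine SemidirectProduct.ext ?_ ?_
      · rw [SemidirectProduct.mul_left]
        exact Subtype.ext (hbmul γ δ)
      · rw [SemidirectProduct.mul_right]
        exact map_mul ψ γ δ)
  refine ⟨Ψ, ?_, fun γ => rfl, fun γ => hb γ⟩
  obtain ⟨S, hS⟩ := hψ
  refine ⟨S ∪ Finset.univ.image (fun i => crd (y : Ω ⊗[ZMod p] B) i), fun γ hγ => ?_⟩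
  have h1 : ψ γ = 1 := hS γ fun s hs => hγ s (Finset.mem_union_left _ hs)
  have h2 : T γ y = y := by
    apply Units.ext
    rw [hT, coe_tu, h1, map_one]
    have h3 : ((1 : B ≃+* B) : B →+* B) = RingHom.id B := rfl
    rw [h3]
    apply crd_ext
    intro i
    rw [crd_tmap]
    exact hγ _ (Finset.mem_union_right _ (Finset.mem_image_of_mem _ (Finset.mem_univ i)))
  have h3 : b γ = 1 := by
    apply cstu_injective (p := p) (R := Ω)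
    have h4 := hb γ
    rw [h2, left_eq_mul] at h4
    rw [h4, map_one]
  refine SemidirectProduct.ext ?_ ?_
  · exact Subtype.ext h3
  · exact h1

end LG

end MP7Z
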